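import Pool.Agent.CofSN2.FIX
import Pool.Agent.CofSN2.TYP
import Pool.Agent.CofSN2.ANT
import Pool.Agent.CofSN2.BIN
import Pool.Agent.CofSN2.CCS
import Pool.Agent.CofSN2.CNT
import Pool.Agent.CofSN2.COW
import Pool.Agent.CofSN2.CPW
import Pool.Agent.CofSN2.DMN
import Pool.Agent.CofSN2.EPS
import Pool.Agent.CofSN2.EXD
import Pool.Agent.CofSN2.EXL
import Pool.Agent.CofSN2.GMN
import Pool.Agent.CofSN2.GNW
import Pool.Agent.CofSN2.GTRx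
import Pool.Agent.CofSN2.IMN
import Pool.Agent.CofSN2.IST
import Pool.Agent.CofSN2.LIN
import Pool.Agent.CofSN2.LNK
import Pool.Agent.CofSN2.PTC
import Pool.Agent.CofSN2.PTE
import Pool.Agent.CofSN2.PTR
import Pool.Agent.CofSN2.PTT
import Pool.Agent.CofSN2.RES
import Pool.Agent.CofSN2.SLA
import Pool.Agent.CofSN2.SPW
import Pool.Agent.CofSN2.STW
import Pool.Agent.CofSN2.TAW
import Pool.Agent.CofSN2.TDM
import Pool.Agent.CofSN2.TGM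
import Pool.Agent.CofSN2.TIN
import Pool.Agent.CofSN2.TNM
import Pool.Agent.CofSN2.TRW
import Pool.Agent.CofSN2.TSA
import Pool.Agent.CofSN2.TWC
import Pool.Agent.CofSN2.TWE
import Pool.Agent.CofSN2.TYA
import Pool.Agent.CofSN2.TYB
import Pool.Agent.CofSN.BRA
import Pool.Agent.CofSN.LIM
import Pool.Agent.CofSN.DEL
import Pool.Agent.CofSN.COC
import Pool.Agent.CofSN.CO3
import Pool.Agent.CofSN.CMH
import Pool.Agent.CofSN.WOR

/-!
# MP_3e8648_lc: the second model (cof(SN) < min(d, non(N))), by helper90 and the CofSN2 team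
-/

set_option autoImplicit false

namespace SNB

open CofSN CofSN2

/-- the theorem of `CofSNBelowDNonN` -/
theorem dnonn : ∃ (B : Type) (_ : CompleteBooleanAlgebra B) (I : Type), (⊥ : B) ≠ ⊤ ∧
    (∃ Y : I → BSet B, (∀ i, SN (Y i) = ⊤) ∧ ∀ X : BSet B, SN X ≤ ⨆ i, Sub X (Y i)) ∧
    (∀ g : I → Nm B ℕ, ⨆ f : Nm B ℕ, ⨅ i, (Nm.leS f (g i))ᶜ = ⊤) ∧
    ∀ x : I → Nm B Bool,
      ⨆ φ : Nm B (Finset (List Bool)), small φ ⊓ ⨅ i, infm φ (x i) = ⊤ := by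
  have hTWE : T_TWE := p_TWE p_EPS
  have hGNW : T_GNW := p_GNW
  have hTGM : T_TGM := p_TGM p_PTE hTWE p_IMN p_GMN
  have hTYP : T_TYP := p_TYP (p_TYA p_IMN p_EPS p_LNK hGNW p_CNT)
    (p_TYB p_EPS p_IMN p_EXL hGNW)
  have hIST : T_IST := p_IST p_ANT p_RES p_GTR hTYP p_EPS p_IMN
  have hTIN : T_TIN := p_TIN p_PTE hTWE hTGM (p_LIN p_IMN) hIST
  have hTWC : T_TWC := p_TWC p_PTE p_PTC p_PTT hTWE hTGM (p_CCS p_EXL)
  have hTSA : T_TSA := p_TSA p_PTE hTWE hTGM p_IMN p_EPS (p_SLA p_EXL)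
  have hTDM : T_TDM := p_TDM p_PTE hTWE p_EPS (p_DMN p_EXD)
  have hTNM : T_TNM := p_TNM p_PTE hTWE p_IMN p_GMN
  have hCOC : T_COC := p_COC p_DEL
  have hSTW : T_STW := p_STW (p_CPW p_BRA p_EXL) (p_SPW p_RES) p_RES
  have hTRW : T_TRW := p_TRW p_PTE hTWE hTGM p_LIM hSTW
  exact p_FIX (p_COW p_TAW) p_CMH p_WOR p_PTE hTWE hTWC hTIN p_PTR hTSA hTDM hTNM hTGM p_IMN
    p_BIN hCOC hTRW (p_CO3 hCOC)

end SNB
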