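import Mathlib

/-!
# MP_3e8648_lc, the case x = b: an exhaustive submeasure on well-ordered products (helper56)

Paper proof: ideas row 1723. This file: points, gluing, fibres, hulls, escape sets, purchases,
plans, the functionals `phi`.
-/

set_option autoImplicit false
set_option linter.unusedSectionVars false

namespace SNB

open Classical

/-! ## Points, gluing, fibres -/

section Basic

variable {L : Type} [LinearOrder L] {T : L → Type}

/-- `glue n z y`: the coordinates of `z` below the time `n`, those of `y` from `n` on -/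
noncomputable def glue (n : WithTop L) (z y : ∀ l, T l) : ∀ l, T l :=
  fun l => if (l : WithTop L) < n then z l else y l

theorem glue_lt {n : WithTop L} {z y : ∀ l, T l} {l : L} (h : (l : WithTop L) < n) :
    glue n z y l = z l := by simp [glue, h]

theorem glue_ge {n : WithTop L} {z y : ∀ l, T l} {l : L} (h : n ≤ (l : WithTop L)) :
    glue n z y l = y l := by simp [glue, not_lt.2 h]

@[simp] theorem glue_self (n : WithTop L) (z : ∀ l, T l) : glue n z z = z := by
  funext l
  simp [glue]

/-- `glue m x (glue n y w) = glue n (glue m x y) w` for `m ≤ n` -/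
theorem glue_glue {m n : WithTop L} (h : m ≤ n) (x y w : ∀ l, T l) :
    glue m x (glue n y w) = glue n (glue m x y) w := by
  funext l
  by_cases h1 : (l : WithTop L) < m
  · rw [glue_lt h1, glue_lt (h1.trans_le h), glue_lt h1]
  · by_cases h2 : (l : WithTop L) < n
    · rw [glue_ge (not_lt.1 h1), glue_lt h2, glue_lt h2, glue_ge (not_lt.1 h1)]
    · rw [glue_ge (not_lt.1 h1), glue_ge (not_lt.1 h2), glue_ge (not_lt.1 h2)]

/-- `glue n (glue m x y) w = glue n x w` for `n ≤ m` -/
theorem glue_left {m n : WithTop L} (h : n ≤ m) (x y w : ∀ l, T l) :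
    glue n (glue m x y) w = glue n x w := by
  funext l
  by_cases h2 : (l : WithTop L) < n
  · rw [glue_lt h2, glue_lt (h2.trans_le h), glue_lt h2]
  · rw [glue_ge (not_lt.1 h2), glue_ge (not_lt.1 h2)]

/-- `glue m x (glue n y w) = glue m x w` for `n ≤ m` -/
theorem glue_right {m n : WithTop L} (h : n ≤ m) (x y w : ∀ l, T l) :
    glue m x (glue n y w) = glue m x w := by
  funext l
  by_cases h2 : (l : WithTop L) < m
  · rw [glue_lt h2, glue_lt h2]
  · rw [glue_ge (not_lt.1 h2), glue_ge (not_lt.1 h2), glue_ge (h.trans (not_lt.1 h2))]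

/-- the set depends only on the coordinates in `S` -/
def Dp (S : Set L) (X : Set (∀ l, T l)) : Prop :=
  ∀ z y : ∀ l, T l, (∀ l ∈ S, z l = y l) → (z ∈ X ↔ y ∈ X)

/-- the set depends only on the coordinates below `n` -/
def DLt (n : WithTop L) (X : Set (∀ l, T l)) : Prop := Dp {l : L | (l : WithTop L) < n} X

/-- the set depends only on finitely many coordinates, all in `S` -/
def Cl (S : Set L) (X : Set (∀ l, T l)) : Prop :=
  ∃ F : Finset L, (∀ l ∈ F, l ∈ S) ∧ Dp {l : L | l ∈ F} X

/-- the coordinates in the interval `[m,n)` -/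
def Iv (m n : WithTop L) : Set L := {l : L | m ≤ (l : WithTop L) ∧ (l : WithTop L) < n}

/-- the fibre of `X` at the state `(n,z)` -/
def fib (n : WithTop L) (z : ∀ l, T l) (X : Set (∀ l, T l)) : Set (∀ l, T l) :=
  {y | glue n z y ∈ X}

/-- the hull of `X` at the time `n` -/
def hull (n : WithTop L) (X : Set (∀ l, T l)) : Set (∀ l, T l) := {z | ∃ y, glue n z y ∈ X}

/-- the ways to use the coordinates in `[a,b)` after `z` such that `X` is avoided for sure -/
def Esc (X : Set (∀ l, T l)) (a b : WithTop L) (z : ∀ l, T l) : Set (∀ l, T l) :=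
  {y | ∀ w, glue b (glue a z y) w ∉ X}

theorem mem_fib {n : WithTop L} {z y : ∀ l, T l} {X : Set (∀ l, T l)} :
    y ∈ fib n z X ↔ glue n z y ∈ X := Iff.rfl

theorem mem_hull {n : WithTop L} {z : ∀ l, T l} {X : Set (∀ l, T l)} :
    z ∈ hull n X ↔ ∃ y, glue n z y ∈ X := Iff.rfl

theorem mem_Esc {X : Set (∀ l, T l)} {a b : WithTop L} {z y : ∀ l, T l} :
    y ∈ Esc X a b z ↔ ∀ w, glue b (glue a z y) w ∉ X := Iff.rfl

theorem subset_hull (n : WithTop L) (X : Set (∀ l, T l)) : X ⊆ hull n X := by
  intro z hz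
  exact ⟨z, by rwa [glue_self]⟩

theorem dLt_hull (n : WithTop L) (X : Set (∀ l, T l)) : DLt n (hull n X) := by
  have key : ∀ z y : ∀ l, T l, (∀ l : L, (l : WithTop L) < n → z l = y l) →
      z ∈ hull n X → y ∈ hull n X := by
    rintro z y h ⟨w, hw⟩
    refine ⟨w, ?_⟩
    have : glue n y w = glue n z w := by
      funext l
      by_cases h1 : (l : WithTop L) < n
      · rw [glue_lt h1, glue_lt h1, h l h1]
      · rw [glue_ge (not_lt.1 h1), glue_ge (not_lt.1 h1)]
    rwa [this]
  intro z y h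
  exact ⟨key z y h, key y z fun l hl => (h l hl).symm⟩

theorem Esc_fib {m a b : WithTop L} (hma : m ≤ a) (hab : a ≤ b) (z y : ∀ l, T l)
    (X : Set (∀ l, T l)) : Esc (fib m z X) a b y = Esc X a b (glue m z y) := by
  ext u
  simp only [mem_Esc, mem_fib]
  have h : ∀ w, glue m z (glue b (glue a y u) w) = glue b (glue a (glue m z y) u) w := by
    intro w
    rw [glue_glue (hma.trans hab), glue_glue hma]
  constructor
  · intro h1 w
    rw [← h w]
    exact h1 w
  · intro h1 w
    rw [h w]
    exact h1 w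

theorem Esc_hull {n a b : WithTop L} (hbn : b ≤ n) (z : ∀ l, T l)
    (X : Set (∀ l, T l)) : Esc (hull n X) a b z = Esc X a b z := by
  ext u
  simp only [mem_Esc, mem_hull]
  constructor
  · intro h1 w h2
    refine h1 w ⟨w, ?_⟩
    rw [← glue_glue hbn, glue_self]
    exact h2
  · rintro h1 w ⟨v, hv⟩
    rw [← glue_glue hbn] at hv
    exact h1 _ hv

theorem Esc_mono {X Y : Set (∀ l, T l)} (h : X ⊆ Y) (a b : WithTop L) (z : ∀ l, T l) :
    Esc Y a b z ⊆ Esc X a b z := fun _ hu w hw => hu w (h hw)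

/-- the interval `[a,b)` has only one coordinate -/
def Single (a b : WithTop L) : Prop :=
  ∃ l : L, a = (l : WithTop L) ∧ a < b ∧ ∀ x : L, a ≤ (x : WithTop L) → (x : WithTop L) < b → x = l

end Basic

/-! ## Parameters and prices -/

/-- the parameters `A k` -/
def parA : ℕ → ℕ
  | 0 => 1
  | k + 1 => 2 ^ (k + 9 + (2 * k + 30 + 2 ^ (k + 4) * parA k))

/-- the logarithms of the numbers `N k` -/
def parD (k : ℕ) : ℕ := 2 * k + 30 + 2 ^ (k + 4) * parA k

/-- the price of level `k` with `N` gates -/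
noncomputable def price (k N : ℕ) : ℝ :=
  (1 / 2) ^ k * (1 + ((parD k - Nat.log 2 N : ℕ) : ℝ) / (parA k : ℝ))

theorem parA_pos (k : ℕ) : 0 < parA k := by
  cases k with
  | zero => simp [parA]
  | succ k => simp only [parA]; positivity

theorem price_pos (k N : ℕ) : 0 < price k N := by
  unfold price
  have : (0 : ℝ) ≤ ((parD k - Nat.log 2 N : ℕ) : ℝ) / (parA k : ℝ) := by positivity
  positivity

theorem price_nonneg (k N : ℕ) : 0 ≤ price k N := (price_pos k N).le

theorem le_price (k N : ℕ) : (1 / 2) ^ k ≤ price k N := by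
  unfold price
  have h : (0 : ℝ) ≤ ((parD k - Nat.log 2 N : ℕ) : ℝ) / (parA k : ℝ) := by positivity
  nlinarith [pow_pos (show (0 : ℝ) < 1 / 2 by norm_num) k]

theorem price_eq {k N : ℕ} (h : 2 ^ parD k ≤ N) : price k N = (1 / 2) ^ k := by
  unfold price
  have h1 : parD k ≤ Nat.log 2 N := Nat.le_log_of_pow_le (by norm_num) h
  rw [Nat.sub_eq_zero_of_le h1]
  simp

theorem price_anti (k : ℕ) {M N : ℕ} (h : M ≤ N) : price k N ≤ price k M := by
  unfold price
  have h1 : Nat.log 2 M ≤ Nat.log 2 N := Nat.log_mono_right h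
  have h2 : ((parD k - Nat.log 2 N : ℕ) : ℝ) ≤ ((parD k - Nat.log 2 M : ℕ) : ℝ) := by
    exact_mod_cast Nat.sub_le_sub_left h1 _
  gcongr

/-! ## Purchases and plans -/

section Plans

variable {L : Type} [LinearOrder L] {T : L → Type}

/-- a purchase: level, time, set of states where it is made, set covered, gates -/
structure Pur (T : L → Type) where
  lev : ℕ
  tm : WithTop L
  Q : Set (∀ l, T l)
  X : Set (∀ l, T l)
  J : Finset (WithTop L × WithTop L)

/-- the contribution of a purchase at the point `z` -/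
noncomputable def con (q : Pur T) (z : ∀ l, T l) : ℝ :=
  if z ∈ q.Q then price q.lev q.J.card else 0

/-- the cost of a plan at the point `z` -/
noncomputable def cost (P : List (Pur T)) (z : ∀ l, T l) : ℝ := (P.map fun q => con q z).sum

/-- the set covered by a plan -/
def cov (P : List (Pur T)) : Set (∀ l, T l) := {z | ∃ q ∈ P, z ∈ q.Q ∧ z ∈ q.X}

/-- The conditions on a purchase of a plan of the levels `k, …, p` from the time `m`, where
`Z j a C` says that the set `C` is large for the levels `j, …, p` from the time `a`. The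
conditions are only required if the purchase is made at some point. -/
def OKw (Z : ℕ → WithTop L → Set (∀ l, T l) → Prop) (m : WithTop L) (k p : ℕ) (q : Pur T) :
    Prop :=
  DLt q.tm q.Q ∧ ∀ z ∈ q.Q, (k ≤ q.lev ∧ q.lev ≤ p) ∧ m ≤ q.tm ∧ q.J.Nonempty ∧
    (∀ g ∈ q.J, q.tm ≤ g.1 ∧ g.1 < g.2) ∧
    (∀ g ∈ q.J, ∀ h ∈ q.J, g ≠ h → g.2 ≤ h.1 ∨ h.2 ≤ g.1) ∧
    ∀ g ∈ q.J, (Single g.1 g.2 ∧ (Esc q.X g.1 g.2 z).Nonempty) ∨
      Z (q.lev + 1) g.1 (Esc q.X g.1 g.2 z)

/-- `BigR p d a C`: no plan of the last `d` levels up to `p`, from the time `a`, of cost less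
than `1` at every point, covers `C` -/
def BigR (p : ℕ) : ℕ → ℕ → WithTop L → Set (∀ l, T l) → Prop
  | 0 => fun _ _ C => C.Nonempty
  | d + 1 => fun k a C =>
      if p < k + d then BigR p d k a C else
        ¬ ∃ P : List (Pur T), (∀ q ∈ P, OKw (BigR p d) a k p q) ∧ (∀ z, cost P z < 1) ∧
          C ⊆ cov P

/-- the set `C` has `phi ≥ 1` for the levels `k, …, p` from the time `a` -/
def Big (p k : ℕ) (a : WithTop L) (C : Set (∀ l, T l)) : Prop := BigR p (p + 1 - k) k a C

/-- the conditions on a purchase of a plan of the levels `k, …, p` from the time `m` -/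
def OK (m : WithTop L) (k p : ℕ) (q : Pur T) : Prop := OKw (Big p) m k p q

/-- plans of the levels `k, …, p` from the time `m` -/
def Plan (m : WithTop L) (k p : ℕ) (P : List (Pur T)) : Prop := ∀ q ∈ P, OK m k p q

/-- the functional `phi` -/
noncomputable def phi (p k : ℕ) (m : WithTop L) (Y : Set (∀ l, T l)) : ℝ :=
  sInf ({s | 0 ≤ s ∧ ∃ P : List (Pur T), Plan m k p P ∧ (∀ z, cost P z ≤ s) ∧ Y ⊆ cov P} ∪ {16})

theorem OKw_congr {Z Z' : ℕ → WithTop L → Set (∀ l, T l) → Prop} {m : WithTop L} {k p : ℕ}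
    {q : Pur T} (h : ∀ j, k < j → j ≤ p + 1 → Z j = Z' j) : OKw Z m k p q → OKw Z' m k p q := by
  rintro ⟨h1, h2⟩
  refine ⟨h1, fun z hz => ?_⟩
  obtain ⟨a, b, c, d, e, f⟩ := h2 z hz
  refine ⟨a, b, c, d, e, fun g hg => ?_⟩
  rw [← h (q.lev + 1) (by omega) (by omega)]
  exact f g hg

theorem BigR_stab (p k : ℕ) : ∀ d, p + 1 - k ≤ d →
    BigR (T := T) p d k = BigR p (p + 1 - k) k := by
  intro d
  induction d with
  | zero =>
    intro h
    have : p + 1 - k = 0 := by omega
    rw [this]
  | succ d ih =>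
    intro h
    rcases Nat.lt_or_ge d (p + 1 - k) with h1 | h1
    · have : p + 1 - k = d + 1 := by omega
      rw [this]
    · rw [← ih h1]
      funext a C
      simp only [BigR]
      rw [if_pos (by omega)]

theorem Big_iff {p k : ℕ} {a : WithTop L} {C : Set (∀ l, T l)} : Big p k a C ↔
    ¬ ∃ P : List (Pur T), Plan a k p P ∧ (∀ z, cost P z < 1) ∧ C ⊆ cov P := by
  rcases Nat.lt_or_ge p k with h | h
  · have h0 : p + 1 - k = 0 := by omega
    unfold Big
    rw [h0]
    simp only [BigR]
    constructor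
    · rintro ⟨x, hx⟩ ⟨P, hP, -, hc⟩
      obtain ⟨q, hq, hqQ, -⟩ := hc hx
      have := ((hP q hq).2 x hqQ).1
      omega
    · intro h1
      by_contra h2
      apply h1
      refine ⟨[], by simp [Plan], by simp [cost], ?_⟩
      rw [Set.not_nonempty_iff_eq_empty.1 h2]
      simp
  · obtain ⟨d, hd⟩ : ∃ d, p + 1 - k = d + 1 := ⟨p - k, by omega⟩
    have e1 : Big p k a C ↔ ¬ ∃ P : List (Pur T), (∀ q ∈ P, OKw (BigR p d) a k p q) ∧
        (∀ z, cost P z < 1) ∧ C ⊆ cov P := by
      unfold Big
      rw [hd]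
      simp only [BigR]
      rw [if_neg (by omega)]
    rw [e1]
    have e2 : ∀ j, k < j → j ≤ p + 1 → BigR (T := T) p d j = Big p j := by
      intro j hj _
      funext a C
      unfold Big
      rw [BigR_stab p j d (by omega)]
    have e3 : ∀ P : List (Pur T), (∀ q ∈ P, OKw (BigR p d) a k p q) ↔ Plan a k p P := by
      intro P
      constructor
      · intro hP q hq
        exact OKw_congr e2 (hP q hq)
      · intro hP q hq
        exact OKw_congr (fun j h1 h2 => (e2 j h1 h2).symm) (hP q hq)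
    simp only [e3]

end Plans

/-! ## Counting gates -/

section Gates

variable {L : Type} [LinearOrder L]

/-- a family of gates: nonempty pairwise disjoint intervals -/
def Gts (J : Finset (WithTop L × WithTop L)) : Prop :=
  (∀ g ∈ J, g.1 < g.2) ∧ ∀ g ∈ J, ∀ h ∈ J, g ≠ h → g.2 ≤ h.1 ∨ h.2 ≤ g.1

/-- the gates inside `[m,n)` -/
noncomputable def ins (J : Finset (WithTop L × WithTop L)) (m n : WithTop L) :
    Finset (WithTop L × WithTop L) := J.filter fun g => m ≤ g.1 ∧ g.2 ≤ n

/-- the number of gates inside `[m,n)` -/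
noncomputable def cnt (J : Finset (WithTop L × WithTop L)) (m n : WithTop L) : ℕ :=
  (ins J m n).card

/-- the number of gates which start in `[m,n)` -/
noncomputable def stt (J : Finset (WithTop L × WithTop L)) (m n : WithTop L) : ℕ :=
  (J.filter fun g => m ≤ g.1 ∧ g.1 < n).card

/-- the number of gates which start before `n` -/
noncomputable def bef (J : Finset (WithTop L × WithTop L)) (n : WithTop L) : ℕ :=
  (J.filter fun g => g.1 < n).card

/-- the number of gates used from a family of `N` gates: a part `2 ^ (-e)` of them -/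
def tq (e N : ℕ) : ℕ := N / 2 ^ e + 1

end Gates

/-! ## States -/

section States

variable {L : Type} [LinearOrder L] {T : L → Type}

/-- the points agree below the time `m` -/
def agr (m : WithTop L) (z y : ∀ l, T l) : Prop := ∀ l : L, (l : WithTop L) < m → z l = y l

/-- the purchase is made at the state `(m,z)` -/
def made (m : WithTop L) (z : ∀ l, T l) (q : Pur T) : Prop := q.tm ≤ m ∧ z ∈ q.Q

/-- no continuation of the state `(m,z)` is in the set `q.X` -/
def esc (m : WithTop L) (z : ∀ l, T l) (q : Pur T) : Prop := ∀ w, glue m z w ∉ q.X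

/-- made and not escaped -/
def alive (m : WithTop L) (z : ∀ l, T l) (q : Pur T) : Prop := made m z q ∧ ¬ esc m z q

/-- the bound `c_k` -/
noncomputable def cc (k : ℕ) : ℝ := 16 - 8 * (1 / 2) ^ k

/-- the lower bound for the levels `k, …, p` -/
def LBH (T : L → Type) (p k : ℕ) : Prop :=
  ∀ (m : WithTop L) (P : List (Pur T)), Plan m k p P → (∀ z, cost P z < cc k) → ∃ z, z ∉ cov P

/-- the sum of the prices of the purchases made at the state -/
noncomputable def Spent (P : List (Pur T)) (m : WithTop L) (z : ∀ l, T l) : ℝ :=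
  (P.map fun q => if made m z q then price q.lev q.J.card else 0).sum

/-- the sum of the prices of the purchases of level `> k` made in `(m,m']` -/
noncomputable def Newp (P : List (Pur T)) (k : ℕ) (m m' : WithTop L) (z : ∀ l, T l) : ℝ :=
  (P.map fun q => if k < q.lev ∧ m < q.tm ∧ q.tm ≤ m' ∧ z ∈ q.Q then price q.lev q.J.card
    else 0).sum

/-- twice the sum of the prices of the purchases of level `> k` made at the state which have
many gates inside the interval `g` -/
noncomputable def wgt (P : List (Pur T)) (k : ℕ) (m : WithTop L) (z : ∀ l, T l)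
    (g : WithTop L × WithTop L) : ℝ :=
  (P.map fun q => if k < q.lev ∧ made m z q ∧ tq (k + 10) q.J.card ≤ cnt q.J g.1 g.2
    then 2 * price q.lev q.J.card else 0).sum

/-- the potential -/
noncomputable def Psi (P : List (Pur T)) (k : ℕ) (m : WithTop L) (z : ∀ l, T l) : ℝ :=
  (P.map fun q => if q.lev = k ∧ alive m z q then (1 : ℝ) else 0).sum +
    (2 ^ (k + 1) + 3) * (16 - Spent P m z)

/-- the invariant after `i` phases -/
def Inv (P : List (Pur T)) (k i : ℕ) (m : WithTop L) (z : ∀ l, T l) : Prop :=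
  (∀ q ∈ P, k < q.lev → alive m z q → bef q.J m ≤ i * tq (k + 10) q.J.card) ∧
    ∀ q ∈ P, q.lev = k → alive m z q → bef q.J m ≤ i * (2 ^ (k + 18) + 1)

/-- a purchase derived from `q` at the state `(m,z)` -/
def der (m : WithTop L) (z : ∀ l, T l) (R X' : Set (∀ l, T l))
    (J' : Finset (WithTop L × WithTop L)) (q : Pur T) : Pur T where
  lev := q.lev
  tm := max q.tm m
  Q := {y | glue m z y ∈ q.Q ∧ y ∈ R}
  X := X'
  J := J'

end States

/-! ## Simple facts -/

section Simple

variable {L : Type} [LinearOrder L] {T : L → Type}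

theorem tq_pos (e N : ℕ) : 1 ≤ tq e N := Nat.le_add_left 1 _

theorem mem_ins {J : Finset (WithTop L × WithTop L)} {m n : WithTop L}
    {g : WithTop L × WithTop L} : g ∈ ins J m n ↔ g ∈ J ∧ m ≤ g.1 ∧ g.2 ≤ n := by
  unfold ins
  simp

theorem ins_subset (J : Finset (WithTop L × WithTop L)) (m n : WithTop L) : ins J m n ⊆ J :=
  Finset.filter_subset _ _

theorem Gts.sub {J J' : Finset (WithTop L × WithTop L)} (h : Gts J) (h' : J' ⊆ J) : Gts J' :=
  ⟨fun g hg => h.1 g (h' hg), fun g hg x hx => h.2 g (h' hg) x (h' hx)⟩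

theorem ins_mono {J : Finset (WithTop L × WithTop L)} {m m' n n' : WithTop L} (h : m' ≤ m)
    (h' : n ≤ n') : ins J m n ⊆ ins J m' n' := by
  intro g hg
  rw [mem_ins] at hg ⊢
  exact ⟨hg.1, h.trans hg.2.1, hg.2.2.trans h'⟩

theorem cnt_mono {J : Finset (WithTop L × WithTop L)} {m m' n n' : WithTop L} (h : m' ≤ m)
    (h' : n ≤ n') : cnt J m n ≤ cnt J m' n' := Finset.card_le_card (ins_mono h h')

theorem cnt_le (J : Finset (WithTop L × WithTop L)) (m n : WithTop L) : cnt J m n ≤ J.card :=
  Finset.card_le_card (ins_subset J m n)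

theorem stt_mono {J : Finset (WithTop L × WithTop L)} {m n n' : WithTop L} (h' : n ≤ n') :
    stt J m n ≤ stt J m n' := by
  unfold stt
  apply Finset.card_le_card
  intro g hg
  rw [Finset.mem_filter] at hg ⊢
  exact ⟨hg.1, hg.2.1, hg.2.2.trans_le h'⟩

theorem bef_add_stt (J : Finset (WithTop L × WithTop L)) {m n : WithTop L} (h : m ≤ n) :
    bef J n = bef J m + stt J m n := by
  unfold bef stt
  rw [← Finset.card_union_of_disjoint]
  · congr 1
    ext g
    simp only [Finset.mem_filter, Finset.mem_union]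
    constructor
    · rintro ⟨h1, h2⟩
      rcases lt_or_ge g.1 m with h3 | h3
      · exact Or.inl ⟨h1, h3⟩
      · exact Or.inr ⟨h1, h3, h2⟩
    · rintro (⟨h1, h2⟩ | ⟨h1, h2, h3⟩)
      · exact ⟨h1, h2.trans_le h⟩
      · exact ⟨h1, h3⟩
  · rw [Finset.disjoint_left]
    intro g h1 h2
    rw [Finset.mem_filter] at h1 h2
    exact absurd h1.2 (not_lt.2 h2.2.1)

theorem card_eq_bef_add_cnt (J : Finset (WithTop L × WithTop L)) (m : WithTop L) :
    J.card = bef J m + cnt J m ⊤ := by
  unfold bef cnt ins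
  rw [← Finset.card_union_of_disjoint]
  · congr 1
    ext g
    simp only [Finset.mem_filter, Finset.mem_union]
    constructor
    · intro h1
      rcases lt_or_ge g.1 m with h3 | h3
      · exact Or.inl ⟨h1, h3⟩
      · exact Or.inr ⟨h1, h3, le_top⟩
    · rintro (⟨h1, h2⟩ | ⟨h1, h2, h3⟩)
      · exact h1
      · exact h1
  · rw [Finset.disjoint_left]
    intro g h1 h2
    rw [Finset.mem_filter] at h1 h2
    exact absurd h1.2 (not_lt.2 h2.2.1)

theorem bef_zero {J : Finset (WithTop L × WithTop L)} {t : WithTop L}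
    (h : ∀ g ∈ J, t ≤ g.1) : bef J t = 0 := by
  unfold bef
  rw [Finset.card_eq_zero, Finset.filter_eq_empty_iff]
  intro g hg
  exact not_lt.2 (h g hg)

theorem stt_zero {J : Finset (WithTop L × WithTop L)} {m t : WithTop L}
    (h : ∀ g ∈ J, t ≤ g.1) : stt J m t = 0 := by
  unfold stt
  rw [Finset.card_eq_zero, Finset.filter_eq_empty_iff]
  intro g hg h2
  exact absurd h2.2 (not_lt.2 (h g hg))

theorem stt_self (J : Finset (WithTop L × WithTop L)) (m : WithTop L) : stt J m m = 0 := by
  unfold stt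
  rw [Finset.card_eq_zero, Finset.filter_eq_empty_iff]
  intro g _ h2
  exact absurd h2.2 (not_lt.2 h2.1)

theorem stt_le_one {J : Finset (WithTop L × WithTop L)} (hJ : Gts J) {a b : WithTop L}
    (h : Single a b) : stt J a b ≤ 1 := by
  obtain ⟨l, hl, hab, hx⟩ := h
  have key : ∀ g ∈ J.filter (fun g => a ≤ g.1 ∧ g.1 < b), g.1 = a := by
    intro g hg
    rw [Finset.mem_filter] at hg
    have h1 : g.1 ≠ ⊤ := (hg.2.2.trans_le le_top).ne
    obtain ⟨x, hx1⟩ := WithTop.ne_top_iff_exists.1 h1
    rw [← hx1] at hg ⊢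
    rw [hx x hg.2.1 hg.2.2, hl]
  unfold stt
  rw [Finset.card_le_one]
  intro g hg h hh
  by_contra hne
  have h1 := key g hg
  have h2 := key h hh
  rw [Finset.mem_filter] at hg hh
  rcases hJ.2 g hg.1 h hh.1 hne with h3 | h3
  · have := hJ.1 g hg.1
    rw [h1] at this
    rw [h2] at h3
    exact absurd this (not_lt.2 h3)
  · have := hJ.1 h hh.1
    rw [h2] at this
    rw [h1] at h3
    exact absurd this (not_lt.2 h3)

theorem agr_refl (m : WithTop L) (z : ∀ l, T l) : agr m z z := fun _ _ => rfl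

theorem agr_symm {m : WithTop L} {z y : ∀ l, T l} (h : agr m z y) : agr m y z :=
  fun l hl => (h l hl).symm

theorem agr_trans {m : WithTop L} {z y w : ∀ l, T l} (h : agr m z y) (h' : agr m y w) :
    agr m z w := fun l hl => (h l hl).trans (h' l hl)

theorem agr_mono {m n : WithTop L} {z y : ∀ l, T l} (hmn : m ≤ n) (h : agr n z y) :
    agr m z y := fun l hl => h l (hl.trans_le hmn)

theorem agr_glue (m : WithTop L) (z y : ∀ l, T l) : agr m z (glue m z y) :=
  fun _ hl => (glue_lt hl).symm

theorem agr_top {z y : ∀ l, T l} (h : agr ⊤ z y) : z = y := by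
  funext l
  exact h l (WithTop.coe_lt_top l)

theorem glue_congr {m : WithTop L} {z y : ∀ l, T l} (h : agr m z y) (w : ∀ l, T l) :
    glue m z w = glue m y w := by
  funext l
  by_cases h1 : (l : WithTop L) < m
  · rw [glue_lt h1, glue_lt h1, h l h1]
  · rw [glue_ge (not_lt.1 h1), glue_ge (not_lt.1 h1)]

theorem glue_agr {m : WithTop L} {z y : ∀ l, T l} (h : agr m z y) : glue m z y = y := by
  rw [glue_congr h, glue_self]

theorem DLt.iff {n : WithTop L} {X : Set (∀ l, T l)} (h : DLt n X) {z y : ∀ l, T l}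
    (h' : agr n z y) : z ∈ X ↔ y ∈ X := h z y h'

theorem DLt.mono {m n : WithTop L} {X : Set (∀ l, T l)} (h : DLt m X) (h' : m ≤ n) :
    DLt n X := fun z y hzy => h z y fun l hl => hzy l (lt_of_lt_of_le hl h')

theorem dLt_univ (n : WithTop L) : DLt n (Set.univ : Set (∀ l, T l)) := fun _ _ _ => Iff.rfl

theorem dLt_empty (n : WithTop L) : DLt n (∅ : Set (∀ l, T l)) := fun _ _ _ => Iff.rfl

theorem made_iff {m : WithTop L} {z y : ∀ l, T l} {q : Pur T} (hq : DLt q.tm q.Q)
    (h : agr m z y) : made m z q ↔ made m y q := by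
  unfold made
  constructor
  · rintro ⟨h1, h2⟩
    exact ⟨h1, (hq.iff (agr_mono h1 h)).1 h2⟩
  · rintro ⟨h1, h2⟩
    exact ⟨h1, (hq.iff (agr_mono h1 h)).2 h2⟩

theorem made_mono {m n : WithTop L} (hmn : m ≤ n) {z y : ∀ l, T l} {q : Pur T}
    (hq : DLt q.tm q.Q) (h : agr m z y) (hm : made m z q) : made n y q :=
  ⟨hm.1.trans hmn, (hq.iff (agr_mono hm.1 h)).1 hm.2⟩

theorem esc_congr {m : WithTop L} {z y : ∀ l, T l} {q : Pur T} (h : agr m z y) :
    esc m z q ↔ esc m y q := by
  unfold esc
  simp only [glue_congr h]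

theorem esc_mono {m n : WithTop L} (hmn : m ≤ n) {z y : ∀ l, T l} {q : Pur T}
    (h : agr m z y) (he : esc m z q) : esc n y q := by
  intro w hw
  refine he (glue n y w) ?_
  rw [glue_glue hmn, glue_agr h]
  exact hw

theorem esc_notMem {m : WithTop L} {z : ∀ l, T l} {q : Pur T} (he : esc m z q) : z ∉ q.X := by
  have := he z
  rwa [glue_self] at this

theorem esc_of_hull {m e : WithTop L} (h : e ≤ m) {z : ∀ l, T l} {q : Pur T}
    (hz : z ∉ hull e q.X) : esc m z q := by
  intro w hw
  apply hz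
  have h1 := subset_hull e q.X hw
  exact ((dLt_hull e q.X).iff (agr_mono h (agr_glue m z w))).2 h1

theorem con_nonneg (q : Pur T) (z : ∀ l, T l) : 0 ≤ con q z := by
  unfold con
  split_ifs
  · exact price_nonneg _ _
  · exact le_rfl

theorem cost_nil (z : ∀ l, T l) : cost ([] : List (Pur T)) z = 0 := by simp [cost]

theorem cost_append (P P' : List (Pur T)) (z : ∀ l, T l) :
    cost (P ++ P') z = cost P z + cost P' z := by simp [cost]

theorem cost_nonneg (P : List (Pur T)) (z : ∀ l, T l) : 0 ≤ cost P z := by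
  unfold cost
  apply List.sum_nonneg
  intro x hx
  obtain ⟨q, _, rfl⟩ := List.mem_map.1 hx
  exact con_nonneg q z

theorem con_le_cost {P : List (Pur T)} {q : Pur T} (hq : q ∈ P) (z : ∀ l, T l) :
    con q z ≤ cost P z := by
  unfold cost
  apply List.single_le_sum
  · intro x hx
    obtain ⟨q', _, rfl⟩ := List.mem_map.1 hx
    exact con_nonneg q' z
  · exact List.mem_map.2 ⟨q, hq, rfl⟩

theorem mem_cov {P : List (Pur T)} {z : ∀ l, T l} :
    z ∈ cov P ↔ ∃ q ∈ P, z ∈ q.Q ∧ z ∈ q.X := Iff.rfl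

theorem cov_append (P P' : List (Pur T)) : cov (P ++ P') = cov P ∪ cov P' := by
  ext z
  simp only [mem_cov, List.mem_append, Set.mem_union]
  constructor
  · rintro ⟨q, hq | hq, h⟩
    · exact Or.inl ⟨q, hq, h⟩
    · exact Or.inr ⟨q, hq, h⟩
  · rintro (⟨q, hq, h⟩ | ⟨q, hq, h⟩)
    · exact ⟨q, Or.inl hq, h⟩
    · exact ⟨q, Or.inr hq, h⟩

theorem Plan.append {m : WithTop L} {k p : ℕ} {P P' : List (Pur T)} (h : Plan m k p P)
    (h' : Plan m k p P') : Plan m k p (P ++ P') := by
  intro q hq
  rcases List.mem_append.1 hq with h1 | h1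
  · exact h q h1
  · exact h' q h1

theorem Big_mono {p k : ℕ} {a : WithTop L} {C C' : Set (∀ l, T l)} (h : Big p k a C)
    (hC : C ⊆ C') : Big p k a C' := by
  rw [Big_iff] at h ⊢
  rintro ⟨P, h1, h2, h3⟩
  exact h ⟨P, h1, h2, hC.trans h3⟩

/-- the price of a purchase made at some point of a plan of cost `< 16` is `< 16` -/
theorem price_lt {P : List (Pur T)} {q : Pur T} (hq : q ∈ P) {z : ∀ l, T l} (hz : z ∈ q.Q)
    {c : ℝ} (hc : cost P z < c) : price q.lev q.J.card < c := by
  have := con_le_cost hq z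
  unfold con at this
  rw [if_pos hz] at this
  linarith

end Simple

end SNB
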