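import Pool.Agent.SNB.Base

/-!
# MP_3e8648_lc, case x = b: sets depending on finitely many coordinates, fibres (helper56)
-/

set_option autoImplicit false
set_option linter.unusedSectionVars false

namespace SNB

open Classical Filter Topology

section Fin

variable {L : Type} [LinearOrder L] {T : L → Type}

theorem Dp.mono {S S' : Set L} {X : Set (∀ l, T l)} (h : Dp S X) (h' : S ⊆ S') : Dp S' X :=
  fun z y hzy => h z y fun l hl => hzy l (h' hl)

theorem Dp.compl {S : Set L} {X : Set (∀ l, T l)} (h : Dp S X) : Dp S Xᶜ :=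
  fun z y hzy => not_congr (h z y hzy)

theorem Dp.inter {S : Set L} {X Y : Set (∀ l, T l)} (h : Dp S X) (h' : Dp S Y) :
    Dp S (X ∩ Y) := fun z y hzy => and_congr (h z y hzy) (h' z y hzy)

theorem Dp.union {S : Set L} {X Y : Set (∀ l, T l)} (h : Dp S X) (h' : Dp S Y) :
    Dp S (X ∪ Y) := fun z y hzy => or_congr (h z y hzy) (h' z y hzy)

theorem Dp.diff {S : Set L} {X Y : Set (∀ l, T l)} (h : Dp S X) (h' : Dp S Y) :
    Dp S (X \ Y) := fun z y hzy => and_congr (h z y hzy) (not_congr (h' z y hzy))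

theorem Dp.iUnion {ι : Sort*} {S : Set L} {X : ι → Set (∀ l, T l)} (h : ∀ i, Dp S (X i)) :
    Dp S (⋃ i, X i) := by
  intro z y hzy
  simp only [Set.mem_iUnion]
  exact exists_congr fun i => h i z y hzy

theorem Dp.iInter {ι : Sort*} {S : Set L} {X : ι → Set (∀ l, T l)} (h : ∀ i, Dp S (X i)) :
    Dp S (⋂ i, X i) := by
  intro z y hzy
  simp only [Set.mem_iInter]
  exact forall_congr' fun i => h i z y hzy

theorem Cl.dp {S : Set L} {X : Set (∀ l, T l)} (h : Cl S X) : Dp S X := by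
  obtain ⟨F, h1, h2⟩ := h
  exact h2.mono h1

theorem Cl.mono {S S' : Set L} {X : Set (∀ l, T l)} (h : Cl S X) (h' : S ⊆ S') : Cl S' X := by
  obtain ⟨F, h1, h2⟩ := h
  exact ⟨F, fun l hl => h' (h1 l hl), h2⟩

theorem cl_empty (S : Set L) : Cl S (∅ : Set (∀ l, T l)) :=
  ⟨∅, by simp, fun _ _ _ => Iff.rfl⟩

theorem cl_univ (S : Set L) : Cl S (Set.univ : Set (∀ l, T l)) :=
  ⟨∅, by simp, fun _ _ _ => Iff.rfl⟩

theorem Cl.compl {S : Set L} {X : Set (∀ l, T l)} (h : Cl S X) : Cl S Xᶜ := by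
  obtain ⟨F, h1, h2⟩ := h
  exact ⟨F, h1, h2.compl⟩

theorem Cl.union {S : Set L} {X Y : Set (∀ l, T l)} (h : Cl S X) (h' : Cl S Y) :
    Cl S (X ∪ Y) := by
  obtain ⟨F, h1, h2⟩ := h
  obtain ⟨F', h1', h2'⟩ := h'
  refine ⟨F ∪ F', ?_, (h2.mono ?_).union (h2'.mono ?_)⟩
  · intro l hl
    rcases Finset.mem_union.1 hl with h | h
    · exact h1 l h
    · exact h1' l h
  · intro l hl
    exact Finset.mem_union_left _ hl
  · intro l hl
    exact Finset.mem_union_right _ hl

theorem Cl.inter {S : Set L} {X Y : Set (∀ l, T l)} (h : Cl S X) (h' : Cl S Y) :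
    Cl S (X ∩ Y) := by
  have := (h.compl.union h'.compl).compl
  rwa [← Set.compl_inter, compl_compl] at this

theorem Cl.diff {S : Set L} {X Y : Set (∀ l, T l)} (h : Cl S X) (h' : Cl S Y) :
    Cl S (X \ Y) := h.inter h'.compl

theorem Cl.biUnion {ι : Type*} {S : Set L} (I : Finset ι) {X : ι → Set (∀ l, T l)}
    (h : ∀ i ∈ I, Cl S (X i)) : Cl S (⋃ i ∈ I, X i) := by
  induction I using Finset.induction_on with
  | empty => simpa using cl_empty S
  | insert a I _ ih =>
    rw [Finset.set_biUnion_insert]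
    exact (h a (Finset.mem_insert_self _ _)).union
      (ih fun i hi => h i (Finset.mem_insert_of_mem hi))

theorem Cl.biInter {ι : Type*} {S : Set L} (I : Finset ι) {X : ι → Set (∀ l, T l)}
    (h : ∀ i ∈ I, Cl S (X i)) : Cl S (⋂ i ∈ I, X i) := by
  induction I using Finset.induction_on with
  | empty => simpa using cl_univ S
  | insert a I _ ih =>
    rw [Finset.set_biInter_insert]
    exact (h a (Finset.mem_insert_self _ _)).inter
      (ih fun i hi => h i (Finset.mem_insert_of_mem hi))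

/-- finite support in `S'` and dependence on `S` only -/
theorem cl_inter {S S' : Set L} {X : Set (∀ l, T l)} (h : Cl S' X) (h' : Dp S X) :
    Cl (S ∩ S') X := by
  obtain ⟨F, h1, h2⟩ := h
  refine ⟨F.filter fun l => l ∈ S, ?_, ?_⟩
  · intro l hl
    rw [Finset.mem_filter] at hl
    exact ⟨hl.2, h1 l hl.1⟩
  · intro z y hzy
    have e1 : z ∈ X ↔ (fun l => if l ∈ F then z l else y l) ∈ X := by
      apply h2
      intro l hl
      exact (if_pos hl).symm
    have e2 : (fun l => if l ∈ F then z l else y l) ∈ X ↔ y ∈ X := by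
      apply h'
      intro l hl
      show (if l ∈ F then z l else y l) = y l
      split_ifs with hF
      · exact hzy l (Finset.mem_filter.2 ⟨hF, hl⟩)
      · rfl
    exact e1.trans e2

theorem Dp.fib {S : Set L} {X : Set (∀ l, T l)} (h : Dp S X) (n : WithTop L)
    (z : ∀ l, T l) : Dp (S ∩ {l : L | n ≤ (l : WithTop L)}) (fib n z X) := by
  intro y y' hy
  apply h
  intro l hl
  by_cases h1 : (l : WithTop L) < n
  · rw [glue_lt h1, glue_lt h1]
  · rw [glue_ge (not_lt.1 h1), glue_ge (not_lt.1 h1)]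
    exact hy l ⟨hl, not_lt.1 h1⟩

theorem Cl.fib {S : Set L} {X : Set (∀ l, T l)} (h : Cl S X) (n : WithTop L)
    (z : ∀ l, T l) : Cl (S ∩ {l : L | n ≤ (l : WithTop L)}) (fib n z X) := by
  obtain ⟨F, h1, h2⟩ := h
  refine ⟨F.filter fun l => n ≤ (l : WithTop L), ?_, ?_⟩
  · intro l hl
    rw [Finset.mem_filter] at hl
    exact ⟨h1 l hl.1, hl.2⟩
  · refine (h2.fib n z).mono ?_
    rintro l ⟨hl, hl'⟩
    exact Finset.mem_filter.2 ⟨hl, hl'⟩

/-- the fibre only depends on the coordinates of the support below `n` -/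
theorem fib_congr {S : Set L} {U : Set (∀ l, T l)} (h : Dp S U) {n : WithTop L}
    {z z' : ∀ l, T l} (hz : ∀ l ∈ S, (l : WithTop L) < n → z l = z' l) :
    fib n z U = fib n z' U := by
  ext y
  apply h
  intro l hl
  by_cases h1 : (l : WithTop L) < n
  · rw [glue_lt h1, glue_lt h1, hz l hl h1]
  · rw [glue_ge (not_lt.1 h1), glue_ge (not_lt.1 h1)]

theorem Dp.pred {S : Set L} {U : Set (∀ l, T l)} (h : Dp S U) (n : WithTop L)
    (φ : Set (∀ l, T l) → Prop) :
    Dp (S ∩ {l : L | (l : WithTop L) < n}) {z | φ (SNB.fib n z U)} := by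
  intro z y hzy
  simp only [Set.mem_setOf_eq]
  rw [fib_congr h fun l hl hl' => hzy l ⟨hl, hl'⟩]

/-- the states whose fibre has a given property -/
theorem Cl.pred {S : Set L} {U : Set (∀ l, T l)} (h : Cl S U) (n : WithTop L)
    (φ : Set (∀ l, T l) → Prop) :
    Cl (S ∩ {l : L | (l : WithTop L) < n}) {z | φ (SNB.fib n z U)} := by
  obtain ⟨F, h1, h2⟩ := h
  refine ⟨F.filter fun l => (l : WithTop L) < n, ?_, ?_⟩
  · intro l hl
    rw [Finset.mem_filter] at hl
    exact ⟨h1 l hl.1, hl.2⟩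
  · refine (h2.pred n φ).mono ?_
    rintro l ⟨hl, hl'⟩
    exact Finset.mem_filter.2 ⟨hl, hl'⟩

theorem fib_inter (n : WithTop L) (z : ∀ l, T l) (X Y : Set (∀ l, T l)) :
    fib n z (X ∩ Y) = fib n z X ∩ fib n z Y := rfl

theorem fib_union (n : WithTop L) (z : ∀ l, T l) (X Y : Set (∀ l, T l)) :
    fib n z (X ∪ Y) = fib n z X ∪ fib n z Y := rfl

theorem fib_diff (n : WithTop L) (z : ∀ l, T l) (X Y : Set (∀ l, T l)) :
    fib n z (X \ Y) = fib n z X \ fib n z Y := rfl

theorem fib_compl (n : WithTop L) (z : ∀ l, T l) (X : Set (∀ l, T l)) :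
    fib n z Xᶜ = (fib n z X)ᶜ := rfl

theorem fib_mono (n : WithTop L) (z : ∀ l, T l) {X Y : Set (∀ l, T l)} (h : X ⊆ Y) :
    fib n z X ⊆ fib n z Y := fun _ hy => h hy

theorem fib_univ (n : WithTop L) (z : ∀ l, T l) :
    fib n z (Set.univ : Set (∀ l, T l)) = Set.univ := rfl

theorem fib_empty (n : WithTop L) (z : ∀ l, T l) : fib n z (∅ : Set (∀ l, T l)) = ∅ := rfl

theorem fib_iUnion {ι : Sort*} (n : WithTop L) (z : ∀ l, T l) (X : ι → Set (∀ l, T l)) :
    fib n z (⋃ i, X i) = ⋃ i, fib n z (X i) := by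
  ext y
  simp [mem_fib]

theorem fib_fib {m n : WithTop L} (h : m ≤ n) (x z : ∀ l, T l) (X : Set (∀ l, T l)) :
    fib n z (fib m x X) = fib n (glue m x z) X := by
  ext y
  rw [mem_fib, mem_fib, mem_fib, glue_glue h]

theorem fib_of_mem {n : WithTop L} {X : Set (∀ l, T l)} (h : DLt n X) {z : ∀ l, T l}
    (hz : z ∈ X) : fib n z X = Set.univ := by
  ext y
  rw [mem_fib]
  simp only [Set.mem_univ, iff_true]
  exact (h.iff (agr_glue n z y)).1 hz

theorem fib_of_notMem {n : WithTop L} {X : Set (∀ l, T l)} (h : DLt n X) {z : ∀ l, T l}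
    (hz : z ∉ X) : fib n z X = ∅ := by
  ext y
  rw [mem_fib]
  simp only [Set.mem_empty_iff_false, iff_false]
  intro h1
  exact hz ((h.iff (agr_glue n z y)).2 h1)

theorem fib_of_dGe {n : WithTop L} {X : Set (∀ l, T l)}
    (h : Dp {l : L | n ≤ (l : WithTop L)} X) (z : ∀ l, T l) : fib n z X = X := by
  ext y
  rw [mem_fib]
  apply h
  intro l hl
  exact glue_ge hl

theorem mem_fib_self {n : WithTop L} {z : ∀ l, T l} {X : Set (∀ l, T l)} :
    z ∈ fib n z X ↔ z ∈ X := by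
  rw [mem_fib, glue_self]

theorem mem_Iv {m n : WithTop L} {l : L} :
    l ∈ Iv m n ↔ m ≤ (l : WithTop L) ∧ (l : WithTop L) < n := Iff.rfl

theorem Iv_mono {m m' n n' : WithTop L} (h : m' ≤ m) (h' : n ≤ n') :
    (Iv m n : Set L) ⊆ Iv m' n' := fun _ hl => ⟨h.trans hl.1, hl.2.trans_le h'⟩

theorem Cl.dLt {m n : WithTop L} {X : Set (∀ l, T l)} (h : Cl (Iv m n) X) : DLt n X :=
  h.dp.mono fun _ hl => hl.2

theorem Cl.dGe {m n : WithTop L} {X : Set (∀ l, T l)} (h : Cl (Iv m n) X) :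
    Dp {l : L | m ≤ (l : WithTop L)} X := h.dp.mono fun _ hl => hl.1

theorem Cl.toUniv {S : Set L} {X : Set (∀ l, T l)} (h : Cl S X) : Cl Set.univ X :=
  h.mono (Set.subset_univ _)

end Fin

/-! ## Exhaustive functions and the limits of `phi` -/

section Nu

variable {L : Type} [LinearOrder L] {T : L → Type}

/-- `μ` is exhaustive on the sets depending on finitely many coordinates of `S` -/
def Exs (μ : Set (∀ l, T l) → ℝ) (S : Set L) : Prop :=
  ∀ E : ℕ → Set (∀ l, T l), (∀ i, Cl S (E i)) → (∀ i j, i ≠ j → Disjoint (E i) (E j)) →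
    ∀ ε : ℝ, 0 < ε → ∃ N : ℕ, ∀ i, N ≤ i → μ (E i) < ε

/-- the limit of `phi p k m Y` along a nonprincipal ultrafilter of indices `p` -/
noncomputable def nu (k : ℕ) (m : WithTop L) (Y : Set (∀ l, T l)) : ℝ :=
  limUnder (Filter.hyperfilter ℕ : Filter ℕ) (fun p => phi p k m Y)

end Nu

end SNB
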