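import Pool.Agent.SNB.Targets1

set_option autoImplicit false

namespace SNB

open Classical

namespace ALV_

theorem cc_lt (k : ℕ) : cc k < 16 := by
  unfold cc
  have : (0 : ℝ) < (1 / 2) ^ k := by positivity
  linarith

theorem stt_eq_cnt {L : Type} [LinearOrder L] {J : Finset (WithTop L × WithTop L)}
    (hJ : Gts J) (m : WithTop L) : stt J m ⊤ = cnt J m ⊤ := by
  unfold stt cnt ins
  congr 1
  apply Finset.filter_congr
  intro g hg
  constructor
  · rintro ⟨h1, _⟩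
    exact ⟨h1, le_top⟩
  · rintro ⟨h1, _⟩
    exact ⟨h1, (hJ.1 g hg).trans_le le_top⟩

end ALV_

open ALV_ in
theorem p_ALV (hPB : T_PB) : T_ALV := by
  intro L _ T p k i m0 m z P hP hc hi q hq hz
  obtain ⟨hdl, hok⟩ := hP q hq
  obtain ⟨⟨hk, hp⟩, hm, hne, hg1, hg2, -⟩ := hok z hz
  have hJ : Gts q.J := ⟨fun g hg => (hg1 g hg).2, hg2⟩
  have hpr : price q.lev q.J.card < 16 := (price_lt hq hz (hc z)).trans (cc_lt k)
  have hN := hPB _ _ hpr
  have hcard := card_eq_bef_add_cnt q.J m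
  constructor
  · intro hlev hbef
    rw [hlev] at hN
    have h1 : bef q.J m ≤ 2 ^ (k + 8) * (2 ^ (k + 18) + 1) :=
      hbef.trans (Nat.mul_le_mul_right _ hi)
    have e1 : (2 : ℕ) ^ (k + 8) * (2 ^ (k + 18) + 1) = (2 ^ k) * 2 ^ 8 * ((2 ^ k) * 2 ^ 18 + 1) := by
      rw [pow_add, pow_add]
    have e2 : (2 : ℕ) ^ (2 * k + 30) = (2 ^ k) * (2 ^ k) * 2 ^ 30 := by
      rw [pow_add, two_mul, pow_add]
    have e3 : (2 : ℕ) ^ (k + 18) = 2 ^ k * 2 ^ 18 := pow_add _ _ _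
    have hx : 1 ≤ (2 : ℕ) ^ k := Nat.one_le_two_pow
    rw [e2] at hN
    rw [e1] at h1
    rw [e3]
    generalize (2 : ℕ) ^ k = x at *
    nlinarith
  · intro hlev hbef
    have hN' : (2 : ℕ) ^ (2 * k + 32) ≤ q.J.card := by
      refine le_trans (Nat.pow_le_pow_right (by norm_num) ?_) hN
      omega
    rw [stt_eq_cnt hJ m]
    unfold tq at hbef ⊢
    set N := q.J.card with hNdef
    set u := N / 2 ^ (k + 10) with hu
    have h1 : bef q.J m ≤ 2 ^ (k + 8) * (u + 1) := hbef.trans (Nat.mul_le_mul_right _ hi)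
    have h2 : u * 2 ^ (k + 10) ≤ N := Nat.div_mul_le_self _ _
    have e1 : (2 : ℕ) ^ (k + 8) = 2 ^ k * 2 ^ 8 := pow_add _ _ _
    have e2 : (2 : ℕ) ^ (2 * k + 32) = (2 ^ k) * (2 ^ k) * 2 ^ 32 := by
      rw [pow_add, two_mul, pow_add]
    have e3 : (2 : ℕ) ^ (k + 10) = 2 ^ k * 2 ^ 10 := pow_add _ _ _
    have hx : 1 ≤ (2 : ℕ) ^ k := Nat.one_le_two_pow
    rw [e1] at h1
    rw [e2] at hN'
    rw [e3] at h2
    clear_value u
    generalize (2 : ℕ) ^ k = x at *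
    have h3 : x * 2 ^ 8 ≤ x * x * 2 ^ 8 := by nlinarith
    have h4 : u ≤ u * x := Nat.le_mul_of_pos_right _ (by omega)
    nlinarith

end SNB
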