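import Pool.Agent.SNB.Targets1

/-!
# The attempt phase, gates with a large escape set
-/

set_option autoImplicit false

namespace SNB

open Classical

namespace ATB_

section

variable {L : Type} [LinearOrder L] {T : L → Type}

/-- the purchase has the end of its `t`-th gate inside the interval -/
def Cond (k : ℕ) (m' n' : WithTop L) (q : Pur T) : Prop :=
  k < q.lev ∧ ∃ e : WithTop L, m' < e ∧ e ≤ n' ∧ cnt q.J m' e = tq (k + 10) q.J.card ∧
    ∀ x < e, cnt q.J m' x < tq (k + 10) q.J.card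

/-- the end of the `t`-th gate -/
noncomputable def En (k : ℕ) (m' n' : WithTop L) (q : Pur T) : WithTop L :=
  if h : Cond k m' n' q then h.2.choose else ⊤

theorem En_spec {k : ℕ} {m' n' : WithTop L} {q : Pur T} (h : Cond k m' n' q) :
    m' < En k m' n' q ∧ En k m' n' q ≤ n' ∧
      cnt q.J m' (En k m' n' q) = tq (k + 10) q.J.card ∧
      ∀ x < En k m' n' q, cnt q.J m' x < tq (k + 10) q.J.card := by
  have h1 : En k m' n' q = h.2.choose := by
    unfold En
    rw [dif_pos h]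
  rw [h1]
  exact h.2.choose_spec

/-- the cumulated prices -/
noncomputable def Sm (P : List (Pur T)) (k : ℕ) (m' n' : WithTop L) (z y : ∀ l, T l)
    (s : WithTop L) : ℝ :=
  (P.map fun q => if Cond k m' n' q ∧ q.tm ≤ s ∧ glue m' z y ∈ q.Q then
    2 * price q.lev q.J.card else 0).sum

/-- the set of the points with a small sum -/
def Rr (P : List (Pur T)) (k : ℕ) (m' n' : WithTop L) (z : ∀ l, T l) (q : Pur T) :
    Set (∀ l, T l) :=
  {y | Sm P k m' n' z y (max q.tm m') < 1}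

theorem sum_map_le {α : Type} (P : List α) (f h : α → ℝ) (hfh : ∀ q ∈ P, f q ≤ h q) :
    (P.map f).sum ≤ (P.map h).sum := List.sum_le_sum hfh

theorem agr_glue_glue {s m' : WithTop L} {z y y' : ∀ l, T l} (h : agr s y y') :
    agr s (glue m' z y) (glue m' z y') := by
  intro l hl
  by_cases h1 : (l : WithTop L) < m'
  · rw [glue_lt h1, glue_lt h1]
  · rw [glue_ge (not_lt.1 h1), glue_ge (not_lt.1 h1), h l hl]

theorem Sm_congr {P : List (Pur T)} {k p : ℕ} {m0 m' n' : WithTop L} (hP : Plan m0 k p P)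
    (z : ∀ l, T l) {y y' : ∀ l, T l} {s : WithTop L} (h : agr s y y') :
    Sm P k m' n' z y s = Sm P k m' n' z y' s := by
  unfold Sm
  congr 1
  refine List.map_congr_left fun q hq => ?_
  have h1 : (Cond k m' n' q ∧ q.tm ≤ s ∧ glue m' z y ∈ q.Q) ↔
      (Cond k m' n' q ∧ q.tm ≤ s ∧ glue m' z y' ∈ q.Q) := by
    constructor
    · rintro ⟨ha, hb, hc⟩
      exact ⟨ha, hb, ((hP q hq).1.iff (agr_mono hb (agr_glue_glue h))).1 hc⟩
    · rintro ⟨ha, hb, hc⟩
      exact ⟨ha, hb, ((hP q hq).1.iff (agr_mono hb (agr_glue_glue h))).2 hc⟩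
  simp only [h1]

theorem dLt_Rr {P : List (Pur T)} {k p : ℕ} {m0 m' n' : WithTop L} (hP : Plan m0 k p P)
    (z : ∀ l, T l) (q : Pur T) : DLt (max q.tm m') (Rr P k m' n' z q) := by
  intro y y' h
  unfold Rr
  rw [Set.mem_setOf_eq, Set.mem_setOf_eq, Sm_congr hP z (s := max q.tm m') h]

theorem gts {P : List (Pur T)} {k p : ℕ} {m0 : WithTop L} (hP : Plan m0 k p P) {q : Pur T}
    (hq : q ∈ P) {z : ∀ l, T l} (hz : z ∈ q.Q) : Gts q.J ∧ ∀ g ∈ q.J, q.tm ≤ g.1 := by
  obtain ⟨-, -, -, h1, h2, -⟩ := (hP q hq).2 z hz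
  exact ⟨⟨fun g hg => (h1 g hg).2, h2⟩, fun g hg => (h1 g hg).1⟩

/-- the finite set of the times -/
def Cand (P : List (Pur T)) (k : ℕ) (m' n' : WithTop L) (z y : ∀ l, T l) :
    Set (WithTop L) :=
  {s | s = n' ∨ (∃ q ∈ P, q.lev = k ∧ glue m' z y ∈ q.Q ∧ m' < q.tm ∧ q.tm ≤ n' ∧ s = q.tm) ∨
    ∃ q ∈ P, s = max q.tm m' ∧ s ≤ n' ∧ 1 ≤ Sm P k m' n' z y s}

theorem cand_min (P : List (Pur T)) (k : ℕ) (m' n' : WithTop L) (z y : ∀ l, T l) :
    ∃ s ∈ Cand P k m' n' z y, ∀ b ∈ Cand P k m' n' z y, s ≤ b := by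
  have hfin : (Cand P k m' n' z y).Finite := by
    refine Set.Finite.subset (((Set.finite_singleton n').union
      ((List.finite_toSet P).image fun q => q.tm)).union
      ((List.finite_toSet P).image fun q => max q.tm m')) ?_
    rintro s (h | ⟨q, hq, -, -, -, -, h⟩ | ⟨q, hq, h, -⟩)
    · exact Or.inl (Or.inl h)
    · exact Or.inl (Or.inr ⟨q, hq, h.symm⟩)
    · exact Or.inr ⟨q, hq, h.symm⟩
  exact Set.exists_min_image (Cand P k m' n' z y) id hfin ⟨n', Or.inl rfl⟩

end

end ATB_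

open ATB_ in
theorem p_ATB (hDPL : T_DPL) (hEE : T_EE) (hSTC : T_STC) (hPC : T_PC) : T_ATB := by
  intro L _ T p k m0 m z P q1 g hP hmg hg hBig hw
  obtain ⟨W, hW1, hW2, hW3⟩ := hDPL L T p k (k + 1) (k + 10) m0 g.1 z P (Cond k g.1 g.2)
    (En k g.1 g.2) (Rr P k g.1 g.2 z) hP
    (fun q _ hc => ⟨hc.1, (En_spec hc).2.2.1.ge⟩) (fun q _ => dLt_Rr hP z q)
  -- the cost of the derived plan
  have hcost : ∀ y, cost W y < 1 := by
    intro y
    refine lt_of_le_of_lt (hW2 y) ?_
    by_cases hex : ∃ q ∈ P, Cond k g.1 g.2 q ∧ glue g.1 z y ∈ q.Q ∧ y ∈ Rr P k g.1 g.2 z q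
    · obtain ⟨q0, hq0, hmax⟩ := Set.exists_max_image
        {q | q ∈ P ∧ Cond k g.1 g.2 q ∧ glue g.1 z y ∈ q.Q ∧ y ∈ Rr P k g.1 g.2 z q}
        (fun q => max q.tm g.1) ((List.finite_toSet P).subset fun q hq => hq.1)
        (by
          obtain ⟨q, hq, h⟩ := hex
          exact ⟨q, hq, h⟩)
      refine lt_of_le_of_lt ?_ (show Sm P k g.1 g.2 z y (max q0.tm g.1) < 1 from hq0.2.2.2)
      refine sum_map_le P _ _ fun q hq => ?_
      by_cases hc : Cond k g.1 g.2 q ∧ glue g.1 z y ∈ q.Q ∧ y ∈ Rr P k g.1 g.2 z q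
      · rw [if_pos hc, if_pos ⟨hc.1, (le_max_left _ _).trans (hmax q ⟨hq, hc⟩), hc.2.1⟩]
        exact mul_le_mul_of_nonneg_right (hPC k).2 (price_nonneg _ _)
      · rw [if_neg hc]
        split_ifs
        · exact mul_nonneg (by norm_num) (price_nonneg _ _)
        · exact le_rfl
    · have h0 : (P.map fun q => if Cond k g.1 g.2 q ∧ glue g.1 z y ∈ q.Q ∧
          y ∈ Rr P k g.1 g.2 z q then
          (1 + ((k + 10 : ℕ) : ℝ) / (parA (k + 1) : ℝ)) * price q.lev q.J.card else 0).sum ≤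
          (P.map fun _ => (0 : ℝ)).sum := by
        refine sum_map_le P _ _ fun q hq => ?_
        rw [if_neg fun hc => hex ⟨q, hq, hc⟩]
      refine lt_of_le_of_lt h0 ?_
      simp
  rw [Big_iff] at hBig
  obtain ⟨y, hyC, hyW⟩ : ∃ y ∈ Esc q1.X g.1 g.2 z, y ∉ cov W := by
    by_contra hcon
    push Not at hcon
    exact hBig ⟨W, hW1, hcost, hcon⟩
  obtain ⟨m'', hm'', hmin⟩ := cand_min P k g.1 g.2 z y
  have hlow : g.1 ≤ m'' := by
    rcases hm'' with h | ⟨q, hq, -, -, h, -, h'⟩ | ⟨q, hq, h, -⟩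
    · rw [h]; exact hg.le
    · rw [h']; exact h.le
    · rw [h]; exact le_max_right _ _
  have hupp : m'' ≤ g.2 := hmin g.2 (Or.inl rfl)
  refine ⟨m'', glue g.1 z y, hlow, hupp, agr_glue _ _ _, ?_, ?_, ?_⟩
  · intro q hq hlev hzQ h1 h2
    exact le_antisymm h2 (hmin q.tm (Or.inr (Or.inl ⟨q, hq, hlev, hzQ, h1, h2.trans hupp, rfl⟩)))
  · rcases hm'' with h | ⟨q, hq, hlev, hzQ, h1, -, h2⟩ | ⟨q, hq, -, -, h1⟩
    · left
      rw [h]
      exact hyC
    · exact Or.inr (Or.inl ⟨q, hq, hlev, hzQ, h1, h2.ge⟩)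
    · refine Or.inr (Or.inr ?_)
      have hle : Sm P k g.1 g.2 z y m'' ≤ wgt P k m z g + 2 * Newp P k m m'' (glue g.1 z y) := by
        unfold Sm wgt Newp
        rw [← List.sum_map_mul_left, ← List.sum_map_add]
        refine sum_map_le P _ _ fun q hq => ?_
        have hpr := price_nonneg q.lev q.J.card
        by_cases hc : Cond k g.1 g.2 q ∧ q.tm ≤ m'' ∧ glue g.1 z y ∈ q.Q
        · rw [if_pos hc]
          by_cases htm : q.tm ≤ m
          · have hmade : made m z q := by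
              refine ⟨htm, ?_⟩
              exact ((hP q hq).1.iff (agr_mono (htm.trans hmg) (agr_glue g.1 z y))).2 hc.2.2
            have hcnt : tq (k + 10) q.J.card ≤ cnt q.J g.1 g.2 := by
              obtain ⟨-, e, -, he, he2, -⟩ := hc.1
              rw [← he2]
              exact cnt_mono le_rfl he
            rw [if_pos ⟨hc.1.1, hmade, hcnt⟩]
            split_ifs
            · linarith
            · linarith
          · rw [if_pos (show k < q.lev ∧ m < q.tm ∧ q.tm ≤ m'' ∧ glue g.1 z y ∈ q.Q from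
              ⟨hc.1.1, not_le.1 htm, hc.2.1, hc.2.2⟩)]
            split_ifs
            · linarith
            · linarith
        · rw [if_neg hc]
          split_ifs <;> linarith
      linarith
  · intro q hq hlev hmade
    obtain ⟨htm, hzQ⟩ := hmade
    obtain ⟨hG, hst⟩ := gts hP hq hzQ
    by_cases hc : Cond k g.1 g.2 q
    · by_cases hR : y ∈ Rr P k g.1 g.2 z q
      · have hh := hW3 y hyW q hq hc hzQ hR
        rcases le_or_gt (En k g.1 g.2 q) m'' with he | he
        · exact Or.inl (esc_of_hull he hh)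
        · right
          have h1 := (En_spec hc).2.2.2 m'' he
          have h2 := hSTC L q.J g.1 m'' hG
          omega
      · right
        have h1 : 1 ≤ Sm P k g.1 g.2 z y (max q.tm g.1) := not_lt.1 hR
        have h2 : max q.tm g.1 ≤ m'' := max_le htm hlow
        have h3 : m'' ≤ max q.tm g.1 :=
          hmin _ (Or.inr (Or.inr ⟨q, hq, rfl, h2.trans hupp, h1⟩))
        have h4 : m'' = max q.tm g.1 := le_antisymm h3 h2
        rcases le_total q.tm g.1 with h5 | h5
        · rw [h4, max_eq_right h5, stt_self]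
          exact Nat.zero_le _
        · rw [h4, max_eq_left h5, stt_zero hst]
          exact Nat.zero_le _
    · right
      have h1 : cnt q.J g.1 g.2 < tq (k + 10) q.J.card := by
        by_contra hcon
        exact hc ⟨hlev, hEE L q.J g.1 g.2 _ hG (tq_pos _ _) (not_lt.1 hcon)⟩
      have h2 := hSTC L q.J g.1 g.2 hG
      have h3 : stt q.J g.1 m'' ≤ stt q.J g.1 g.2 := stt_mono hupp
      omega

end SNB
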