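import Pool.Agent.SNB.Targets1

/-!
# MP_3e8648_lc, case x = b: target ATS (single coordinate gates)
-/

set_option autoImplicit false

namespace SNB

open Classical

/-- The attempt phase, gates which are a single coordinate. -/
theorem p_ATS : T_ATS := by
  intro L _ T p k m0 z P q1 g hP hS hE
  obtain ⟨y, hy⟩ := hE
  refine ⟨glue g.1 z y, agr_glue g.1 z y, ?_, hy, ?_⟩
  · intro q _ _ _ h1 h2
    by_contra hne
    have h3 : q.tm < g.2 := lt_of_le_of_ne h2 hne
    have h4 : q.tm ≠ ⊤ := (h3.trans_le le_top).ne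
    obtain ⟨x, hx⟩ := WithTop.ne_top_iff_exists.1 h4
    obtain ⟨l, hl, _, hl2⟩ := hS
    have h5 : x = l := hl2 x (by rw [hx]; exact h1.le) (by rw [hx]; exact h3)
    rw [← hx, h5, ← hl] at h1
    exact lt_irrefl _ h1
  · intro q hq _ hm
    obtain ⟨_, _, _, hJ1, hJ2, _⟩ := (hP q hq).2 _ hm.2
    have hG : Gts q.J := ⟨fun a ha => (hJ1 a ha).2, hJ2⟩
    exact (stt_le_one hG hS).trans (tq_pos _ _)

end SNB
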