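import Pool.Agent.SNB.Targets2

/-!
# SNB-BSE: times for the supports
-/

set_option autoImplicit false

namespace SNB

open Classical

namespace BSE_

variable {L : Type} [LinearOrder L]

private theorem above {l : WithTop L} (hl : ∀ x < l, ∃ y, x < y ∧ y < l) (F : Finset L)
    (hF : ∀ f ∈ F, (f : WithTop L) < l) (x : WithTop L) (hx : x < l) :
    ∃ y, x ≤ y ∧ y < l ∧ ∀ f ∈ F, (f : WithTop L) < y := by
  induction F using Finset.induction_on with
  | empty => exact ⟨x, le_rfl, hx, by simp⟩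
  | insert a F _ ih =>
    obtain ⟨y, h1, h2, h3⟩ := ih fun f hf => hF f (Finset.mem_insert_of_mem hf)
    obtain ⟨y', h4, h5⟩ := hl (max y (a : WithTop L)) (max_lt h2 (hF a (Finset.mem_insert_self _ _)))
    refine ⟨y', h1.trans ((le_max_left _ _).trans h4.le), h5, ?_⟩
    intro f hf
    rcases Finset.mem_insert.1 hf with rfl | hf
    · exact (le_max_right _ _).trans_lt h4
    · exact (h3 f hf).trans_le ((le_max_left _ _).trans h4.le)

end BSE_

theorem p_BSE : T_BSE := by
  intro L _ T m m1 l E hm h1 hl hE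
  choose F hF hD using hE
  have hFl : ∀ i, ∀ f ∈ F i, (f : WithTop L) < l := fun i f hf => (hF i f hf).2
  choose nxt hn1 hn2 hn3 using fun (i : ℕ) (x : {x : WithTop L // x < l}) =>
    BSE_.above hl (F i) (hFl i) x.1 x.2
  let b' : ℕ → {x : WithTop L // x < l} := fun N =>
    Nat.rec ⟨m1, h1⟩ (fun i x => ⟨nxt i x, hn2 i x⟩) N
  have hb : ∀ N, (b' (N + 1)).1 = nxt N (b' N) := fun N => rfl
  have hmono : Monotone fun N => (b' N).1 := by
    apply monotone_nat_of_le_succ
    intro N
    rw [hb]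
    exact hn1 N (b' N)
  refine ⟨⋃ i, (F i : Set L), fun N => (b' N).1, ?_, hmono, rfl, fun N => (b' N).2, ?_⟩
  · exact Set.countable_iUnion fun i => (F i).countable_toSet
  · intro N i hi
    refine ⟨F i, ?_, hD i⟩
    intro x hx
    refine ⟨Set.mem_iUnion.2 ⟨i, hx⟩, (hF i x hx).1, ?_⟩
    have h2 : (x : WithTop L) < (b' (i + 1)).1 := by
      rw [hb]
      exact hn3 i (b' i) x hx
    exact h2.trans_le (hmono hi)

end SNB
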