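import Pool.Agent.SNB.Targets1

/-! # SNB: choice of the gate (target CHO) -/

set_option autoImplicit false

namespace SNB

open Classical

theorem p_CHO (hEE : T_EE) (hSTC : T_STC) (hWGT : T_WGT) : T_CHO := by
  intro L _ T p k m0 m z P hP hcost hcnt hex
  have hG : ∀ q ∈ P, alive m z q → Gts q.J := by
    intro q hq hal
    obtain ⟨-, -, -, hd, he, -⟩ := (hP q hq).2 z hal.1.2
    exact ⟨fun g hg => (hd g hg).2, he⟩
  have hE : ∀ q : Pur T, ∃ e : WithTop L, q ∈ P → q.lev = k → alive m z q →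
      m < e ∧ cnt q.J m e = 2 ^ (k + 18) := by
    intro q
    by_cases h : q ∈ P ∧ q.lev = k ∧ alive m z q
    · obtain ⟨e, h1, -, h3, -⟩ := hEE L q.J m ⊤ (2 ^ (k + 18)) (hG q h.1 h.2.2)
        Nat.one_le_two_pow (hcnt q h.1 h.2.1 h.2.2)
      exact ⟨e, fun _ _ _ => ⟨h1, h3⟩⟩
    · exact ⟨m, fun h1 h2 h3 => absurd ⟨h1, h2, h3⟩ h⟩
  choose en hen using hE
  obtain ⟨q0, hq0, hl0, ha0⟩ := hex
  obtain ⟨q1, hq1, hmin⟩ := (P.toFinset.filter fun q => q.lev = k ∧ alive m z q).exists_min_image en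
    ⟨q0, by rw [Finset.mem_filter, List.mem_toFinset]; exact ⟨hq0, hl0, ha0⟩⟩
  rw [Finset.mem_filter, List.mem_toFinset] at hq1
  obtain ⟨hq1P, hl1, ha1⟩ := hq1
  obtain ⟨hm1, hc1⟩ := hen q1 hq1P hl1 ha1
  obtain ⟨g, hg, hw⟩ := hWGT L T p k m0 m z P (ins q1.J m (en q1)) hP hcost
    ((hG q1 hq1P ha1).sub (ins_subset _ _ _)) hc1
  rw [mem_ins] at hg
  refine ⟨q1, hq1P, hl1, ha1, g, hg.1, hg.2.1, en q1, hg.2.2, ?_, hw⟩
  intro q hq hl ha
  obtain ⟨-, hc⟩ := hen q hq hl ha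
  have h1 := hSTC L q.J m (en q1) (hG q hq ha)
  have h2 : en q1 ≤ en q := hmin q (by
    rw [Finset.mem_filter, List.mem_toFinset]; exact ⟨hq, hl, ha⟩)
  have h3 : cnt q.J m (en q1) ≤ cnt q.J m (en q) := cnt_mono le_rfl h2
  omega

end SNB
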