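import Pool.Agent.SNB.Targets2

/-! SNB-CNT: countably many sets depending on finitely many coordinates of a countable set. -/

set_option autoImplicit false

namespace SNB

open Classical

theorem p_CNT : T_CNT := by
  intro L _ T _ S hS
  have h1 : ∀ F : Finset L, {X : Set (∀ l, T l) | Dp {l : L | l ∈ F} X}.Finite := by
    intro F
    set r : (∀ l, T l) → (∀ l : F, T l) := fun z l => z l with hr
    refine (Set.finite_range (fun Y : Set (∀ l : F, T l) => r ⁻¹' Y)).subset ?_
    intro X hX
    refine ⟨r '' X, ?_⟩
    ext z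
    simp only [Set.mem_preimage, Set.mem_image]
    constructor
    · rintro ⟨y, hy, hyz⟩
      refine (hX y z ?_).1 hy
      intro l hl
      exact congrFun hyz ⟨l, hl⟩
    · intro hz
      exact ⟨z, hz, rfl⟩
  have h2 : {F : Finset L | ∀ l ∈ F, l ∈ S}.Countable := by
    have h3 := Set.countable_setOf_finite_subset hS
    have h4 : Set.InjOn (fun F : Finset L => (F : Set L)) {F : Finset L | ∀ l ∈ F, l ∈ S} :=
      fun F _ G _ h => Finset.coe_injective h
    refine Set.MapsTo.countable_of_injOn ?_ h4 h3
    intro F hF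
    exact ⟨F.finite_toSet, fun l hl => hF l hl⟩
  refine (h2.biUnion fun F _ => (h1 F).countable).mono ?_
  rintro X ⟨F, hF, hX⟩
  exact Set.mem_biUnion (show F ∈ {F : Finset L | ∀ l ∈ F, l ∈ S} from hF) hX

end SNB
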