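import Pool.Agent.SNB.Targets2

/-!
# SNB: compactness (target `T_CPT`)
-/

set_option autoImplicit false

namespace SNB

open Classical

namespace CPT_

theorem isClosed_of_cl {L : Type} [LinearOrder L] {T : L → Type} [∀ l, TopologicalSpace (T l)]
    [∀ l, DiscreteTopology (T l)] {X : Set (∀ l, T l)} (h : Cl Set.univ X) : IsClosed X := by
  obtain ⟨F, -, hF⟩ := h
  let r : (∀ l, T l) → ∀ l : F, T l.1 := fun z l => z l.1
  have hr : Continuous r := continuous_pi fun l => continuous_apply l.1
  have hX : X = r ⁻¹' (r '' X) := by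
    ext z
    constructor
    · intro hz
      exact ⟨z, hz, rfl⟩
    · rintro ⟨y, hy, hyz⟩
      refine (hF y z ?_).1 hy
      intro l hl
      exact congrFun hyz ⟨l, hl⟩
  rw [hX]
  exact (isClosed_discrete _).preimage hr

end CPT_

theorem p_CPT : T_CPT := by
  intro L _ T _ X hcl hdec hne
  let _ : ∀ l, TopologicalSpace (T l) := fun _ => ⊥
  have : ∀ l, DiscreteTopology (T l) := fun _ => ⟨rfl⟩
  have hclosed : ∀ i, IsClosed (X i) := fun i => CPT_.isClosed_of_cl (hcl i)
  have h := IsCompact.nonempty_iInter_of_sequence_nonempty_isCompact_isClosed X hdec hne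
    (hclosed 0).isCompact hclosed
  obtain ⟨z, hz⟩ := h
  exact ⟨z, fun i => Set.mem_iInter.1 hz i⟩

end SNB
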