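import Pool.Agent.SNB.Targets1

/-!
# SNB-DJ: gates inside disjoint intervals
-/

set_option autoImplicit false

namespace SNB

open Classical

namespace DJ_

/-- the gates inside two different intervals of a disjoint family are disjoint -/
theorem disj {L : Type} [LinearOrder L] {J G : Finset (WithTop L × WithTop L)}
    (hJ : Gts J) (hG : Gts G) {g h : WithTop L × WithTop L} (hg : g ∈ G) (hh : h ∈ G)
    (hne : g ≠ h) : Disjoint (ins J g.1 g.2) (ins J h.1 h.2) := by
  rw [Finset.disjoint_left]
  intro x h1 h2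
  rw [mem_ins] at h1 h2
  have hx := hJ.1 x h1.1
  rcases hG.2 g hg h hh hne with h3 | h3
  · exact absurd hx (not_lt.2 (h1.2.2.trans (h3.trans h2.2.1)))
  · exact absurd hx (not_lt.2 (h2.2.2.trans (h3.trans h1.2.1)))

end DJ_

/-- `T_DJ` -/
theorem p_DJ : T_DJ := by
  intro L _ J G t hJ hG
  have h1 : t * (G.filter fun g => t ≤ cnt J g.1 g.2).card ≤
      ∑ g ∈ G.filter (fun g => t ≤ cnt J g.1 g.2), (ins J g.1 g.2).card := by
    rw [mul_comm, ← smul_eq_mul]
    refine Finset.card_nsmul_le_sum _ _ _ fun g hg => ?_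
    exact (Finset.mem_filter.1 hg).2
  refine h1.trans ?_
  rw [← Finset.card_biUnion]
  · refine Finset.card_le_card fun x hx => ?_
    obtain ⟨g, _, hx⟩ := Finset.mem_biUnion.1 hx
    exact (mem_ins.1 hx).1
  · intro g hg h hh hne
    exact DJ_.disj hJ hG (Finset.mem_filter.1 hg).1 (Finset.mem_filter.1 hh).1 hne

end SNB
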