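import Pool.Agent.SNB.Targets1

/-!
# SNB: DPL, derived plans at a state
-/

set_option autoImplicit false
set_option linter.unusedSectionVars false

namespace SNB

open Classical

namespace DPL_

variable {L : Type} [LinearOrder L] {T : L → Type}

theorem con_mem {q : Pur T} {z : ∀ l, T l} (h : z ∈ q.Q) : con q z = price q.lev q.J.card :=
  if_pos h

theorem con_not {q : Pur T} {z : ∀ l, T l} (h : z ∉ q.Q) : con q z = 0 := if_neg h

/-- the new purchase -/
noncomputable def nw (σ : WithTop L) (z : ∀ l, T l) (cond : Pur T → Prop)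
    (en : Pur T → WithTop L) (R : Pur T → Set (∀ l, T l)) (q : Pur T) : Pur T :=
  if cond q then der σ z (R q) (fib σ z (hull (en q) q.X)) (ins q.J σ (en q)) q
  else der σ z ∅ q.X q.J q

theorem nw_pos {σ : WithTop L} {z : ∀ l, T l} {cond : Pur T → Prop} {en : Pur T → WithTop L}
    {R : Pur T → Set (∀ l, T l)} {q : Pur T} (h : cond q) :
    nw σ z cond en R q = der σ z (R q) (fib σ z (hull (en q) q.X)) (ins q.J σ (en q)) q := by
  unfold nw
  rw [if_pos h]

theorem nw_neg {σ : WithTop L} {z : ∀ l, T l} {cond : Pur T → Prop} {en : Pur T → WithTop L}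
    {R : Pur T → Set (∀ l, T l)} {q : Pur T} (h : ¬ cond q) :
    nw σ z cond en R q = der σ z ∅ q.X q.J q := by
  unfold nw
  rw [if_neg h]

theorem agr_gl {σ : WithTop L} {t : WithTop L} (z : ∀ l, T l) {y y' : ∀ l, T l}
    (h : ∀ l : L, (l : WithTop L) < max t σ → y l = y' l) :
    ∀ l : L, (l : WithTop L) < t → glue σ z y l = glue σ z y' l := by
  intro l hl
  by_cases h1 : (l : WithTop L) < σ
  · rw [glue_lt h1, glue_lt h1]
  · rw [glue_ge (not_lt.1 h1), glue_ge (not_lt.1 h1)]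
    exact h l (lt_of_lt_of_le hl (le_max_left _ _))

theorem dLt_der {σ : WithTop L} {z : ∀ l, T l} {q : Pur T} {R : Set (∀ l, T l)}
    (hq : DLt q.tm q.Q) (hR : DLt (max q.tm σ) R) :
    DLt (max q.tm σ) {y | glue σ z y ∈ q.Q ∧ y ∈ R} := by
  intro y y' hyy
  change (glue σ z y ∈ q.Q ∧ y ∈ R) ↔ (glue σ z y' ∈ q.Q ∧ y' ∈ R)
  rw [hR y y' hyy, hq (glue σ z y) (glue σ z y') (agr_gl z hyy)]

theorem OK_nw {p k k' e : ℕ} {m0 σ : WithTop L} {z : ∀ l, T l} {cond : Pur T → Prop}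
    {en : Pur T → WithTop L} {R : Pur T → Set (∀ l, T l)} {q : Pur T} (hq : OK m0 k p q)
    (hc : cond q → k' ≤ q.lev ∧ tq e q.J.card ≤ cnt q.J σ (en q))
    (hR : DLt (max q.tm σ) (R q)) :
    OK σ k' p (nw σ z cond en R q) := by
  by_cases h : cond q
  · rw [nw_pos h]
    obtain ⟨h1, h2⟩ := hq
    refine ⟨dLt_der h1 hR, ?_⟩
    rintro y ⟨hy, hyR⟩
    obtain ⟨a, b, c, d, f, g⟩ := h2 _ hy
    refine ⟨⟨(hc h).1, a.2⟩, le_max_right _ _, ?_, ?_, ?_, ?_⟩
    · have h3 : 1 ≤ (ins q.J σ (en q)).card := (tq_pos e q.J.card).trans (hc h).2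
      exact Finset.card_pos.1 h3
    · intro x hx
      have hx' := mem_ins.1 (show x ∈ ins q.J σ (en q) from hx)
      have h4 := d x hx'.1
      exact ⟨max_le h4.1 hx'.2.1, h4.2⟩
    · intro x hx x' hx'
      exact f x (ins_subset _ _ _ hx) x' (ins_subset _ _ _ hx')
    · intro x hx
      have hx' := mem_ins.1 (show x ∈ ins q.J σ (en q) from hx)
      have h4 := g x hx'.1
      have h6 := (d x hx'.1).2
      change (Single x.1 x.2 ∧ (Esc (fib σ z (hull (en q) q.X)) x.1 x.2 y).Nonempty) ∨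
        Big p (q.lev + 1) x.1 (Esc (fib σ z (hull (en q) q.X)) x.1 x.2 y)
      rw [Esc_fib hx'.2.1 h6.le, Esc_hull hx'.2.2]
      exact h4
  · rw [nw_neg h]
    refine ⟨?_, ?_⟩
    · intro y y' _
      change (glue σ z y ∈ q.Q ∧ y ∈ (∅ : Set (∀ l, T l))) ↔
        (glue σ z y' ∈ q.Q ∧ y' ∈ (∅ : Set (∀ l, T l)))
      simp
    · rintro y ⟨_, hy⟩
      exact absurd hy (Set.notMem_empty y)

theorem con_nw (hPS : T_PS) (hPA : T_PA) {k' e : ℕ} {σ : WithTop L}
    {z : ∀ l, T l} {cond : Pur T → Prop}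
    {en : Pur T → WithTop L} {R : Pur T → Set (∀ l, T l)} {q : Pur T}
    (hc : cond q → k' ≤ q.lev ∧ tq e q.J.card ≤ cnt q.J σ (en q)) (y : ∀ l, T l) :
    con (nw σ z cond en R q) y ≤ if cond q ∧ glue σ z y ∈ q.Q ∧ y ∈ R q then
      (1 + (e : ℝ) / (parA k' : ℝ)) * price q.lev q.J.card else 0 := by
  by_cases h : cond q
  · rw [nw_pos h]
    by_cases h1 : glue σ z y ∈ q.Q ∧ y ∈ R q
    · rw [if_pos (show cond q ∧ glue σ z y ∈ q.Q ∧ y ∈ R q from ⟨h, h1⟩)]
      have h2 : y ∈ (der σ z (R q) (fib σ z (hull (en q) q.X)) (ins q.J σ (en q)) q).Q := h1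
      rw [con_mem h2]
      change price q.lev (ins q.J σ (en q)).card ≤ _
      have h3 : price q.lev (ins q.J σ (en q)).card ≤ price q.lev (tq e q.J.card) :=
        price_anti _ (hc h).2
      have h4 := hPS q.lev e q.J.card
      have hlev : k' ≤ q.lev := (hc h).1
      have h5 : (parA k' : ℝ) ≤ (parA q.lev : ℝ) := by exact_mod_cast hPA.1 hlev
      have h6 : (0 : ℝ) < (parA k' : ℝ) := by exact_mod_cast parA_pos k'
      have h7 : (e : ℝ) / (parA q.lev : ℝ) ≤ (e : ℝ) / (parA k' : ℝ) :=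
        div_le_div_of_nonneg_left (Nat.cast_nonneg e) h6 h5
      have h8 : (1 + (e : ℝ) / (parA q.lev : ℝ)) * price q.lev q.J.card ≤
          (1 + (e : ℝ) / (parA k' : ℝ)) * price q.lev q.J.card :=
        mul_le_mul_of_nonneg_right (by linarith) (price_nonneg _ _)
      exact h3.trans (h4.trans h8)
    · rw [if_neg (show ¬ (cond q ∧ glue σ z y ∈ q.Q ∧ y ∈ R q) from fun h3 => h1 h3.2)]
      have h2 : y ∉ (der σ z (R q) (fib σ z (hull (en q) q.X)) (ins q.J σ (en q)) q).Q := h1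
      rw [con_not h2]
  · rw [nw_neg h, if_neg (show ¬ (cond q ∧ glue σ z y ∈ q.Q ∧ y ∈ R q) from fun h3 => h h3.1)]
    have h2 : y ∉ (der σ z ∅ q.X q.J q).Q := fun h3 => Set.notMem_empty y h3.2
    rw [con_not h2]

end DPL_

open DPL_ in
theorem p_DPL (hPS : T_PS) (hPA : T_PA) : T_DPL := by
  intro L _ T p k k' e m0 σ z P cond en R hP hc hR
  refine ⟨P.map (nw σ z cond en R), ?_, ?_, ?_⟩
  · intro q' hq'
    obtain ⟨q, hq, rfl⟩ := List.mem_map.1 hq'
    exact OK_nw (hP q hq) (hc q hq) (hR q hq)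
  · intro y
    unfold cost
    rw [List.map_map]
    apply List.sum_le_sum
    intro q hq
    exact con_nw hPS hPA (hc q hq) y
  · intro y hy q hq hcq hyQ hyR hyX
    apply hy
    refine ⟨nw σ z cond en R q, List.mem_map.2 ⟨q, hq, rfl⟩, ?_⟩
    rw [nw_pos hcq]
    exact ⟨⟨hyQ, hyR⟩, hyX⟩

end SNB
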