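import Pool.Agent.SNB.Targets1

/-!
# SNB: DPN, derived plans without a state
-/

set_option autoImplicit false

namespace SNB

open Classical

namespace DPN_

variable {L : Type} [LinearOrder L] {T : L → Type}

theorem con_mem {q : Pur T} {z : ∀ l, T l} (h : z ∈ q.Q) : con q z = price q.lev q.J.card :=
  if_pos h

theorem con_not {q : Pur T} {z : ∀ l, T l} (h : z ∉ q.Q) : con q z = 0 := if_neg h

/-- the new purchase -/
noncomputable def nw (m : WithTop L) (cond : Pur T → Prop) (en : Pur T → WithTop L)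
    (R : Pur T → Set (∀ l, T l)) (q : Pur T) : Pur T :=
  if cond q then ⟨q.lev, q.tm, q.Q ∩ R q, hull (en q) q.X, ins q.J m (en q)⟩
  else ⟨q.lev, q.tm, ∅, q.X, q.J⟩

theorem nw_pos {m : WithTop L} {cond : Pur T → Prop} {en : Pur T → WithTop L}
    {R : Pur T → Set (∀ l, T l)} {q : Pur T} (h : cond q) :
    nw m cond en R q = ⟨q.lev, q.tm, q.Q ∩ R q, hull (en q) q.X, ins q.J m (en q)⟩ := by
  unfold nw
  rw [if_pos h]

theorem nw_neg {m : WithTop L} {cond : Pur T → Prop} {en : Pur T → WithTop L}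
    {R : Pur T → Set (∀ l, T l)} {q : Pur T} (h : ¬ cond q) :
    nw m cond en R q = ⟨q.lev, q.tm, ∅, q.X, q.J⟩ := by
  unfold nw
  rw [if_neg h]

theorem OK_nw {p k e : ℕ} {m : WithTop L} {cond : Pur T → Prop} {en : Pur T → WithTop L}
    {R : Pur T → Set (∀ l, T l)} {q : Pur T} (hq : OK m k p q)
    (hc : cond q → tq e q.J.card ≤ cnt q.J m (en q)) (hR : DLt q.tm (R q)) :
    OK m k p (nw m cond en R q) := by
  by_cases h : cond q
  · rw [nw_pos h]
    obtain ⟨h1, h2⟩ := hq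
    refine ⟨?_, ?_⟩
    · intro z y hzy
      change (z ∈ q.Q ∧ z ∈ R q) ↔ (y ∈ q.Q ∧ y ∈ R q)
      rw [h1 z y hzy, hR z y hzy]
    · rintro z ⟨hz, hzR⟩
      obtain ⟨a, b, c, d, f, g⟩ := h2 z hz
      refine ⟨a, b, ?_, ?_, ?_, ?_⟩
      · have h3 : 1 ≤ (ins q.J m (en q)).card := (tq_pos e q.J.card).trans (hc h)
        exact Finset.card_pos.1 h3
      · intro x hx
        exact d x (ins_subset _ _ _ hx)
      · intro x hx y hy
        exact f x (ins_subset _ _ _ hx) y (ins_subset _ _ _ hy)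
      · intro x hx
        have h4 := g x (ins_subset _ _ _ hx)
        have h5 : x.2 ≤ en q := (mem_ins.1 hx).2.2
        change (Single x.1 x.2 ∧ (Esc (hull (en q) q.X) x.1 x.2 z).Nonempty) ∨
          Big p (q.lev + 1) x.1 (Esc (hull (en q) q.X) x.1 x.2 z)
        rw [Esc_hull h5]
        exact h4
  · rw [nw_neg h]
    refine ⟨dLt_empty _, ?_⟩
    intro z hz
    exact absurd hz (Set.notMem_empty z)

theorem con_nw (hPS : T_PS) (hPA : T_PA) {p k e : ℕ} {m : WithTop L} {cond : Pur T → Prop}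
    {en : Pur T → WithTop L} {R : Pur T → Set (∀ l, T l)} {q : Pur T} (hq : OK m k p q)
    (hc : cond q → tq e q.J.card ≤ cnt q.J m (en q)) (y : ∀ l, T l) :
    con (nw m cond en R q) y ≤ if cond q ∧ y ∈ q.Q ∧ y ∈ R q then
      (1 + (e : ℝ) / (parA k : ℝ)) * price q.lev q.J.card else 0 := by
  by_cases h : cond q
  · rw [nw_pos h]
    by_cases h1 : y ∈ q.Q ∧ y ∈ R q
    · rw [if_pos (show cond q ∧ y ∈ q.Q ∧ y ∈ R q from ⟨h, h1⟩), con_mem h1]
      have h3 : price q.lev (ins q.J m (en q)).card ≤ price q.lev (tq e q.J.card) :=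
        price_anti _ (hc h)
      have h4 := hPS q.lev e q.J.card
      have hlev : k ≤ q.lev := (hq.2 y h1.1).1.1
      have h5 : (parA k : ℝ) ≤ (parA q.lev : ℝ) := by exact_mod_cast hPA.1 hlev
      have h6 : (0 : ℝ) < (parA k : ℝ) := by exact_mod_cast parA_pos k
      have h7 : (e : ℝ) / (parA q.lev : ℝ) ≤ (e : ℝ) / (parA k : ℝ) :=
        div_le_div_of_nonneg_left (Nat.cast_nonneg e) h6 h5
      have h8 : (1 + (e : ℝ) / (parA q.lev : ℝ)) * price q.lev q.J.card ≤
          (1 + (e : ℝ) / (parA k : ℝ)) * price q.lev q.J.card :=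
        mul_le_mul_of_nonneg_right (by linarith) (price_nonneg _ _)
      exact h3.trans (h4.trans h8)
    · rw [if_neg (show ¬ (cond q ∧ y ∈ q.Q ∧ y ∈ R q) from fun h3 => h1 h3.2), con_not h1]
  · rw [nw_neg h, if_neg (show ¬ (cond q ∧ y ∈ q.Q ∧ y ∈ R q) from fun h3 => h h3.1),
      con_not (Set.notMem_empty y)]

end DPN_

open DPN_ in
theorem p_DPN (hPS : T_PS) (hPA : T_PA) : T_DPN := by
  intro L _ T p k e m P cond en R hP hc hR
  refine ⟨P.map (nw m cond en R), ?_, ?_, ?_⟩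
  · intro q' hq'
    obtain ⟨q, hq, rfl⟩ := List.mem_map.1 hq'
    exact OK_nw (hP q hq) (hc q hq) (hR q hq)
  · intro y
    unfold cost
    rw [List.map_map]
    apply List.sum_le_sum
    intro q hq
    exact con_nw hPS hPA (hP q hq) (hc q hq) y
  · intro y hy q hq hcq hyQ hyR hyX
    apply hy
    refine ⟨nw m cond en R q, List.mem_map.2 ⟨q, hq, rfl⟩, ?_⟩
    rw [nw_pos hcq]
    exact ⟨⟨hyQ, hyR⟩, hyX⟩

end SNB
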