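import Pool.Agent.SNB.Targets1

/-!
# SNB: EE, the end of the `t`-th gate
-/

set_option autoImplicit false

namespace SNB

open Classical

namespace EE_

variable {L : Type} [LinearOrder L]

lemma max_end (J : Finset (WithTop L × WithTop L)) (m x : WithTop L) (h : 1 ≤ cnt J m x) :
    ∃ g ∈ ins J m x, cnt J m g.2 = cnt J m x := by
  have hne : (ins J m x).Nonempty := Finset.card_pos.1 h
  obtain ⟨g, hg, hmax⟩ := Finset.exists_max_image (ins J m x) (fun g => g.2) hne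
  refine ⟨g, hg, ?_⟩
  unfold cnt
  congr 1
  ext h
  rw [mem_ins, mem_ins]
  constructor
  · rintro ⟨h1, h2, h3⟩
    exact ⟨h1, h2, h3.trans (mem_ins.1 hg).2.2⟩
  · rintro ⟨h1, h2, h3⟩
    exact ⟨h1, h2, hmax h (mem_ins.2 ⟨h1, h2, h3⟩)⟩

end EE_

open EE_ in
theorem p_EE : T_EE := by
  intro L _ J m n t hJ ht htn
  obtain ⟨g1, hg1, hc1⟩ := max_end J m n (ht.trans htn)
  have hne : ((ins J m n).filter fun g => t ≤ cnt J m g.2).Nonempty :=
    ⟨g1, Finset.mem_filter.2 ⟨hg1, by rw [hc1]; exact htn⟩⟩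
  obtain ⟨g0, hg0, hmin⟩ := Finset.exists_min_image _ (fun g : WithTop L × WithTop L => g.2) hne
  rw [Finset.mem_filter, mem_ins] at hg0
  obtain ⟨⟨hg0J, hmg, hgn⟩, htg⟩ := hg0
  have hlt : g0.1 < g0.2 := hJ.1 g0 hg0J
  have hx : ∀ x < g0.2, cnt J m x < t := by
    intro x hxe
    by_contra hcon
    push Not at hcon
    obtain ⟨g2, hg2, hc2⟩ := max_end J m x (ht.trans hcon)
    rw [mem_ins] at hg2
    have h3 : g2 ∈ (ins J m n).filter fun g => t ≤ cnt J m g.2 := by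
      rw [Finset.mem_filter, mem_ins]
      exact ⟨⟨hg2.1, hg2.2.1, (hg2.2.2.trans hxe.le).trans hgn⟩, by rw [hc2]; exact hcon⟩
    exact absurd ((hmin g2 h3).trans hg2.2.2) (not_le.2 hxe)
  refine ⟨g0.2, lt_of_le_of_lt hmg hlt, hgn, le_antisymm ?_ htg, hx⟩
  have h1 : ins J m g0.2 ⊆ insert g0 (ins J m g0.1) := by
    intro h hh
    rw [mem_ins] at hh
    by_cases heq : h = g0
    · subst heq
      exact Finset.mem_insert_self _ _
    · refine Finset.mem_insert_of_mem (mem_ins.2 ⟨hh.1, hh.2.1, ?_⟩)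
      rcases hJ.2 h hh.1 g0 hg0J heq with h2 | h2
      · exact h2
      · exact absurd (lt_of_lt_of_le (hJ.1 h hh.1) hh.2.2) (not_lt.2 h2)
  have h2 : cnt J m g0.2 ≤ cnt J m g0.1 + 1 :=
    (Finset.card_le_card h1).trans (Finset.card_insert_le _ _)
  have h3 := hx g0.1 hlt
  omega

end SNB
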