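import Pool.Agent.SNB.Targets2

/-! EX: exhaustivity, by transfinite induction (helper59). -/

set_option autoImplicit false

namespace SNB

open Classical Filter Topology

theorem p_EX (h1 : T_EXR) (h2 : T_EXS) (h3 : T_EX0) (h4 : T_NUB) : T_EX := by
  intro L _ _ T _ _ l
  induction l using WellFoundedLT.induction with
  | ind l ih =>
    intro m k
    rcases le_or_gt l m with hlm | hml
    · have he : (Iv m l : Set L) = ∅ := by
        ext x
        simp only [mem_Iv, Set.mem_empty_iff_false, iff_false]
        rintro ⟨ha, hb⟩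
        exact absurd (hb.trans_le (hlm.trans ha)) (lt_irrefl _)
      rw [he]
      exact h3 L T _ (h4 L T k m).2.1
    · by_cases hx : ∃ x : L, (x : WithTop L) < l ∧ ∀ y : L, (y : WithTop L) < l → y ≤ x
      · obtain ⟨x, hx1, hx2⟩ := hx
        obtain ⟨-, hb, hc, hd, -, -⟩ := h4 L T k m
        exact h2 L T _ m l x hx1 hx2 hb hc hd (ih x hx1 m k)
      · have hlim : ∀ x < l, ∃ y, x < y ∧ y < l := by
          intro x hxl
          have hne : x ≠ ⊤ := (hxl.trans_le le_top).ne
          obtain ⟨x', rfl⟩ := WithTop.ne_top_iff_exists.1 hne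
          by_contra hcon
          refine hx ⟨x', hxl, fun y hy => ?_⟩
          by_contra hyx
          exact hcon ⟨y, WithTop.coe_lt_coe.2 (not_le.1 hyx), hy⟩
        intro E hE hdis ε hε
        obtain ⟨r0, hr0⟩ : ∃ n : ℕ, (1 / 2 : ℝ) ^ n < ε / 2 :=
          exists_pow_lt_of_lt_one (by positivity) (by norm_num)
        obtain ⟨N, hN⟩ := h1 L T (max r0 k) m l E hml hlim hE hdis
          (fun n1 n2 hn2 => ih n2 hn2 n1 (max r0 k + 1))
        refine ⟨N, fun i hi => ?_⟩
        have e1 := (h4 L T k m).2.2.2.2.1 (max r0 k) (E i) (le_max_right _ _)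
        have e2 := hN i hi
        have e3 : (1 / 2 : ℝ) ^ (max r0 k) ≤ (1 / 2) ^ r0 :=
          pow_le_pow_of_le_one (by norm_num) (by norm_num) (le_max_left _ _)
        linarith

end SNB
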