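import Pool.Agent.SNB.Targets2

/-! EX0 : no coordinates. -/

set_option autoImplicit false

namespace SNB

open Classical Filter Topology

theorem p_EX0 : T_EX0 := by
  intro L _ T _ μ h0 E hE hd ε hε
  obtain ⟨z0⟩ : Nonempty (∀ l, T l) := inferInstance
  -- a member which does not contain `z0` is empty
  have key : ∀ i, z0 ∉ E i → E i = ∅ := by
    intro i hi
    obtain ⟨F, hF, hD⟩ := hE i
    rw [Set.eq_empty_iff_forall_notMem]
    intro y hy
    apply hi
    exact (hD z0 y fun l hl => absurd (hF l hl) (Set.notMem_empty l)).2 hy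
  by_cases h : ∃ i, z0 ∈ E i
  · obtain ⟨i, hi⟩ := h
    refine ⟨i + 1, fun j hj => ?_⟩
    have hne : i ≠ j := by omega
    rw [key j fun hz => Set.disjoint_left.1 (hd i j hne) hi hz, h0]
    exact hε
  · refine ⟨0, fun j _ => ?_⟩
    rw [key j fun hz => h ⟨j, hz⟩, h0]
    exact hε

end SNB
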