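import Pool.Agent.SNB.Targets2

/-!
# SNB-EXR: the bound at level `r`
-/

set_option autoImplicit false

namespace SNB

open Classical Filter Topology

/-- a subadditive function vanishing at `∅`, on a finite union -/
private theorem EXR_sub {α : Type} (μ : Set α → ℝ) (h0 : μ ∅ = 0)
    (hs : ∀ X Y : Set α, μ (X ∪ Y) ≤ μ X + μ Y) (c : ℝ) (A : ℕ → Set α) :
    ∀ J : ℕ, (∀ j < J, μ (A j) ≤ c) → μ (⋃ j ∈ Finset.range J, A j) ≤ J * c := by
  intro J
  induction J with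
  | zero => intro _; simp [h0]
  | succ J ih =>
    intro h
    rw [Finset.range_add_one, Finset.set_biUnion_insert]
    have h1 := ih fun j hj => h j (by omega)
    have h2 := hs (A J) (⋃ j ∈ Finset.range J, A j)
    have h3 := h J (by omega)
    push_cast
    linarith

theorem p_EXR (hITG : T_ITG) (hNPU : T_NPU) (hNUB : T_NUB) : T_EXR := by
  intro L _ T _ _ r m l E hml hlim hE hdis hexs
  obtain ⟨t, ht0, hmono, -, i0, hW⟩ := hITG L T r m l E hml hlim hE hdis hexs (2 ^ parD r)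
  refine ⟨i0, fun i hi => ?_⟩
  obtain ⟨W, hW⟩ := hW i hi
  obtain ⟨-, n0, nm, ns, nk, -⟩ := hNUB L T r m
  obtain ⟨-, n0', nm', ns', -, -⟩ := hNUB L T (r + 1) m
  set B : Set (∀ l, T l) := ⋃ j ∈ Finset.range (2 ^ parD r), (E i ∩ W j) with hBdef
  have hB1 : nu (r + 1) m B ≤ ((2 ^ parD r : ℕ) : ℝ) * (3 * eps r) :=
    EXR_sub _ n0' ns' _ _ _ fun j hj => (hW j hj).2.2
  have hB2 : ((2 ^ parD r : ℕ) : ℝ) * (3 * eps r) = 3 / 8 * (1 / 2) ^ r := by
    unfold eps
    push_cast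
    field_simp
  have hB : nu r m B ≤ 3 / 8 * (1 / 2) ^ r := by
    rw [← hB2]
    exact (nk (r + 1) B (Nat.le_succ r)).trans hB1
  have hX : nu r m (E i \ B) ≤ (1 / 2) ^ r := by
    refine hNPU L T r m (E i \ B) t W ht0.ge fun j hj => ?_
    obtain ⟨h1, h2, h3⟩ := hW j hj
    refine ⟨hmono j hj, h1.toUniv, h1.dLt, ?_, h2⟩
    rw [Set.disjoint_left]
    rintro z ⟨hz1, hz2⟩ hz3
    apply hz2
    rw [hBdef]
    simp only [Set.mem_iUnion]
    exact ⟨j, Finset.mem_range.2 hj, hz1, hz3⟩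
  have h4 : nu r m (E i) ≤ nu r m (B ∪ (E i \ B)) := by
    apply nm
    intro z hz
    by_cases h : z ∈ B
    · exact Or.inl h
    · exact Or.inr ⟨hz, h⟩
  have h5 := ns B (E i \ B)
  have h6 : (0 : ℝ) < (1 / 2) ^ r := by positivity
  linarith

end SNB
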