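import Pool.Agent.SNB.Targets2

/-!
# SNB-EXS: exhaustivity, successor step
-/

set_option autoImplicit false

namespace SNB

open Classical Filter Topology

namespace EXS_

theorem mu_biUnion_le {L : Type} [LinearOrder L] {T : L → Type} {μ : Set (∀ l, T l) → ℝ}
    (h0 : μ ∅ = 0) (hU : ∀ X Y : Set (∀ l, T l), μ (X ∪ Y) ≤ μ X + μ Y) {ι : Type}
    (I : Finset ι) (X : ι → Set (∀ l, T l)) : μ (⋃ i ∈ I, X i) ≤ ∑ i ∈ I, μ (X i) := by
  induction I using Finset.induction_on with
  | empty => simp [h0]
  | insert a I ha ih =>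
    rw [Finset.set_biUnion_insert, Finset.sum_insert ha]
    exact (hU _ _).trans (by linarith)

end EXS_

theorem p_EXS : T_EXS := by
  intro L _ T _ μ m l x hxl hlast h0 hmono hU hE E hcl hdis ε hε
  haveI : Fintype (T x) := Fintype.ofFinite _
  let E' : T x → ℕ → Set (∀ l, T l) := fun v i => {z | Function.update z x v ∈ E i}
  have hcl' : ∀ v i, Cl (Iv m (x : WithTop L)) (E' v i) := by
    intro v i
    obtain ⟨F, hF, hD⟩ := hcl i
    refine ⟨F.erase x, ?_, ?_⟩
    · intro y hy
      rw [Finset.mem_erase] at hy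
      have h1 := hF y hy.2
      exact ⟨h1.1, WithTop.coe_lt_coe.2 (lt_of_le_of_ne (hlast y h1.2) hy.1)⟩
    · intro z y hzy
      apply hD
      intro y' hy'
      by_cases hyx : y' = x
      · subst hyx
        rw [Function.update_self, Function.update_self]
      · rw [Function.update_of_ne hyx, Function.update_of_ne hyx]
        exact hzy y' (Finset.mem_erase.2 ⟨hyx, hy'⟩)
  have hdis' : ∀ v i j, i ≠ j → Disjoint (E' v i) (E' v j) := by
    intro v i j hij
    rw [Set.disjoint_left]
    intro z hz hz'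
    exact Set.disjoint_left.1 (hdis i j hij) hz hz'
  have hc : (0 : ℝ) < Fintype.card (T x) + 1 := by positivity
  have hεc : 0 < ε / (Fintype.card (T x) + 1) := div_pos hε hc
  choose N hN using fun v => hE (E' v) (hcl' v) (hdis' v) _ hεc
  refine ⟨Finset.univ.sup N, fun i hi => ?_⟩
  have hsub : E i ⊆ ⋃ v ∈ (Finset.univ : Finset (T x)), E' v i := by
    intro z hz
    simp only [Set.mem_iUnion]
    refine ⟨z x, Finset.mem_univ _, ?_⟩
    change Function.update z x (z x) ∈ E i
    rw [Function.update_eq_self]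
    exact hz
  have h1 : μ (E i) ≤ ∑ v : T x, μ (E' v i) :=
    (hmono _ _ hsub).trans (EXS_.mu_biUnion_le h0 hU _ _)
  have h2 : ∑ v : T x, μ (E' v i) ≤ ∑ _v : T x, ε / (Fintype.card (T x) + 1) := by
    apply Finset.sum_le_sum
    intro v _
    exact (hN v i ((Finset.le_sup (f := N) (Finset.mem_univ v)).trans hi)).le
  rw [Finset.sum_const, Finset.card_univ, nsmul_eq_mul] at h2
  have h3 : (Fintype.card (T x) : ℝ) * (ε / (Fintype.card (T x) + 1)) < ε := by
    rw [mul_div_assoc', div_lt_iff₀ hc]
    linarith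
  linarith

end SNB
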