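import Pool.Agent.SNB.Targets1

/-!
# Project SNB, F1: upper Fubini property of `phi` (helper84)
-/

set_option autoImplicit false

namespace SNB

open Classical

namespace F1_

theorem enum {α : Type} [Nonempty α] {S : Set α} (hS : S.Finite) :
    ∃ (N : ℕ) (f : ℕ → α), (∀ j < N, f j ∈ S) ∧ (∀ x ∈ S, ∃ j < N, f j = x) ∧
      ∀ i < N, ∀ j < N, i ≠ j → f i ≠ f j := by
  let e := hS.toFinset.equivFin
  refine ⟨hS.toFinset.card, fun j => if h : j < hS.toFinset.card then (e.symm ⟨j, h⟩ : α)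
    else Classical.arbitrary α, ?_, ?_, ?_⟩
  · intro j hj
    simp only [dif_pos hj]
    exact hS.mem_toFinset.1 (e.symm ⟨j, hj⟩).2
  · intro x hx
    refine ⟨e ⟨x, hS.mem_toFinset.2 hx⟩, (e ⟨x, hS.mem_toFinset.2 hx⟩).2, ?_⟩
    simp
  · intro i hi j hj hij h
    simp only [dif_pos hi, dif_pos hj] at h
    have h1 := e.symm.injective (Subtype.ext h)
    exact hij (congrArg Fin.val h1)

variable {L : Type} [LinearOrder L] {T : L → Type}

theorem fib_congr {n : WithTop L} {z y : ∀ l, T l} (h : agr n z y) (Y : Set (∀ l, T l)) :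
    fib n z Y = fib n y Y := by
  ext w
  rw [mem_fib, mem_fib, glue_congr h]

end F1_

open F1_ in
theorem p_F1 (hF1P : T_F1P) (hFIN : T_FIN) (hPHP : T_PHP) (hPHB : T_PHB) : T_F1 := by
  intro L _ T _ p k m Y r n R s hs hY hR hdis hcov hfib
  rcases le_or_gt 16 s with h16 | h16
  · exact ((hPHB L T p k m).1 Y).2.trans h16
  -- the main claim
  have key : ∀ s' : ℝ, s < s' → s' ≤ 16 → phi p k m Y ≤ s' := by
    intro s' hss hs16
    let S : Set (ℕ × Set (∀ l, T l)) :=
      {x | x.1 < r ∧ ∃ z ∈ R x.1, fib (n x.1) z Y = x.2}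
    have hSfin : S.Finite := by
      have h1 : S ⊆ ⋃ i ∈ Finset.range r,
          (fun D => (i, D)) '' (Set.range fun z : ∀ l, T l => fib (n i) z Y) := by
        rintro ⟨i, D⟩ ⟨hi, z, _, hz⟩
        simp only [Set.mem_iUnion, Finset.mem_range]
        exact ⟨i, hi, D, ⟨z, hz⟩, rfl⟩
      refine Set.Finite.subset ?_ h1
      refine Set.Finite.biUnion (Finset.finite_toSet _) fun i _ => ?_
      exact (hFIN L T (n i) Y hY).image _
    obtain ⟨N, f, hf1, hf2, hf3⟩ := enum hSfin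
    have hplan : ∀ j, ∃ PP : List (Pur T), j < N → Plan (n (f j).1) k p PP ∧
        (∀ z, cost PP z ≤ s') ∧ (f j).2 ⊆ cov PP := by
      intro j
      by_cases hj : j < N
      · obtain ⟨hi, z, hz, hzf⟩ := hf1 j hj
        have h1 := hfib _ hi z hz
        rw [hzf] at h1
        obtain ⟨PP, s'', _, h3, h4, h5, h6⟩ := (hPHP L T p k (n (f j).1) (f j).2 s').2
          (h1.trans_lt hss) hs16
        exact ⟨PP, fun _ => ⟨h4, fun z => (h5 z).trans h3.le, h6⟩⟩
      · exact ⟨[], fun h => absurd h hj⟩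
    choose PP hPP using hplan
    obtain ⟨P, hP1, hP2, hP3⟩ := hF1P L T p k m N (fun j => n (f j).1)
      (fun j => {z | z ∈ R (f j).1 ∧ fib (n (f j).1) z Y = (f j).2}) PP s' (hs.trans hss.le)
      (by
        intro j hj
        obtain ⟨hi, _⟩ := hf1 j hj
        refine ⟨(hR _ hi).1, ?_, (hPP j hj).1, (hPP j hj).2.1⟩
        intro z y hzy
        have h1 : agr (n (f j).1) z y := fun l hl => hzy l hl
        show (z ∈ R (f j).1 ∧ fib (n (f j).1) z Y = (f j).2) ↔
          (y ∈ R (f j).1 ∧ fib (n (f j).1) y Y = (f j).2)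
        rw [(hR _ hi).2.iff h1, fib_congr h1])
      (by
        intro i hi j hj hij
        rw [Set.disjoint_left]
        rintro z ⟨hz1, hz2⟩ ⟨hz3, hz4⟩
        by_cases h1 : (f i).1 = (f j).1
        · refine hf3 i hi j hj hij (Prod.ext h1 ?_)
          rw [← hz2, ← hz4, h1]
        · exact Set.disjoint_left.1 (hdis _ (hf1 i hi).1 _ (hf1 j hj).1 h1) hz1 hz3)
    refine (hPHP L T p k m Y s').1 P (hs.trans hss.le) hP1 hP2 ?_
    intro z hz
    obtain ⟨i, hi, hzi⟩ := hcov z hz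
    obtain ⟨j, hj, hfj⟩ := hf2 (i, fib (n i) z Y) ⟨hi, z, hzi, rfl⟩
    refine hP3 j hj ⟨?_, (hPP j hj).2.2 ?_⟩
    · show z ∈ R (f j).1 ∧ fib (n (f j).1) z Y = (f j).2
      rw [hfj]
      exact ⟨hzi, rfl⟩
    · rw [hfj]
      show z ∈ fib (n i) z Y
      rw [mem_fib, glue_self]
      exact hz
  refine le_of_forall_gt_imp_ge_of_dense fun s' hs' => ?_
  rcases le_or_gt s' 16 with h | h
  · exact key s' hs' h
  · exact ((hPHB L T p k m).1 Y).2.trans h.le

end SNB
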