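import Pool.Agent.SNB.Targets1

/-!
# Gluing of plans (SNB-F1P)
-/

set_option autoImplicit false
set_option linter.unusedSectionVars false

namespace SNB

open Classical

namespace F1P_

variable {L : Type} [LinearOrder L] {T : L → Type}

/-- the purchase restricted to a set of states -/
def res (R : Set (∀ l, T l)) (q : Pur T) : Pur T where
  lev := q.lev
  tm := q.tm
  Q := q.Q ∩ R
  X := q.X
  J := q.J

theorem con_res (R : Set (∀ l, T l)) (q : Pur T) (z : ∀ l, T l) :
    con (res R q) z = if z ∈ R then con q z else 0 := by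
  unfold con res
  by_cases h1 : z ∈ R <;> by_cases h2 : z ∈ q.Q <;> simp [h1, h2]

theorem cost_res (R : Set (∀ l, T l)) (P : List (Pur T)) (z : ∀ l, T l) :
    cost (P.map (res R)) z = if z ∈ R then cost P z else 0 := by
  induction P with
  | nil => simp [cost]
  | cons q P ih =>
    have e1 : cost ((q :: P).map (res R)) z = con (res R q) z + cost (P.map (res R)) z := by
      simp [cost]
    have e2 : cost (q :: P) z = con q z + cost P z := by simp [cost]
    rw [e1, e2, ih, con_res]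
    split_ifs <;> simp

theorem plan_res {m n : WithTop L} {k p : ℕ} {R : Set (∀ l, T l)} {P : List (Pur T)}
    (hmn : m ≤ n) (hR : DLt n R) (hP : Plan n k p P) : Plan m k p (P.map (res R)) := by
  intro q' hq'
  obtain ⟨q, hq, rfl⟩ := List.mem_map.1 hq'
  obtain ⟨h1, h2⟩ := hP q hq
  refine ⟨?_, ?_⟩
  · intro z y hzy
    change z ∈ q.Q ∩ R ↔ y ∈ q.Q ∩ R
    have hQ : z ∈ q.Q ↔ y ∈ q.Q := h1 z y hzy
    by_cases hz : z ∈ q.Q
    · have hn : n ≤ q.tm := (h2 z hz).2.1
      have hRz : z ∈ R ↔ y ∈ R := (hR.mono hn) z y hzy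
      exact and_congr hQ hRz
    · have hy : y ∉ q.Q := fun h => hz (hQ.2 h)
      constructor
      · exact fun h => absurd h.1 hz
      · exact fun h => absurd h.1 hy
  · intro z hz
    obtain ⟨a, b, c⟩ := h2 z hz.1
    exact ⟨a, hmn.trans b, c⟩

theorem cov_res (R : Set (∀ l, T l)) (P : List (Pur T)) : R ∩ cov P ⊆ cov (P.map (res R)) := by
  rintro z ⟨hz, q, hq, h1, h2⟩
  exact ⟨res R q, List.mem_map.2 ⟨q, hq, rfl⟩, ⟨h1, hz⟩, h2⟩

theorem main (p k : ℕ) (m : WithTop L) (n : ℕ → WithTop L) (R : ℕ → Set (∀ l, T l))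
    (PP : ℕ → List (Pur T)) (s : ℝ) (hs : 0 ≤ s) (r : ℕ)
    (h : ∀ i < r, m ≤ n i ∧ DLt (n i) (R i) ∧ Plan (n i) k p (PP i) ∧ ∀ z, cost (PP i) z ≤ s)
    (hd : ∀ i < r, ∀ j < r, i ≠ j → Disjoint (R i) (R j)) :
    ∃ P : List (Pur T), Plan m k p P ∧ (∀ z, cost P z ≤ s) ∧
      (∀ z, (∀ i < r, z ∉ R i) → cost P z = 0) ∧ ∀ i < r, R i ∩ cov (PP i) ⊆ cov P := by
  induction r with
  | zero =>
    refine ⟨[], ?_, ?_, ?_, ?_⟩
    · intro q hq
      simp at hq
    · intro z
      rw [cost_nil]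
      exact hs
    · intro z _
      exact cost_nil z
    · intro i hi
      exact absurd hi (Nat.not_lt_zero i)
  | succ r ih =>
    obtain ⟨P, hP1, hP2, hP3, hP4⟩ := ih (fun i hi => h i (Nat.lt_succ_of_lt hi))
      (fun i hi j hj => hd i (Nat.lt_succ_of_lt hi) j (Nat.lt_succ_of_lt hj))
    obtain ⟨g1, g2, g3, g4⟩ := h r (Nat.lt_succ_self r)
    refine ⟨P ++ (PP r).map (res (R r)), hP1.append (plan_res g1 g2 g3), ?_, ?_, ?_⟩
    · intro z
      rw [cost_append, cost_res]
      by_cases hz : z ∈ R r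
      · rw [if_pos hz, hP3 z, zero_add]
        · exact g4 z
        · intro i hi hzi
          exact Set.disjoint_left.1 (hd i (Nat.lt_succ_of_lt hi) r (Nat.lt_succ_self r)
            (Nat.ne_of_lt hi)) hzi hz
      · rw [if_neg hz, add_zero]
        exact hP2 z
    · intro z hz
      rw [cost_append, cost_res, if_neg (hz r (Nat.lt_succ_self r)), add_zero]
      exact hP3 z fun i hi => hz i (Nat.lt_succ_of_lt hi)
    · intro i hi
      rw [cov_append]
      rcases Nat.lt_succ_iff_lt_or_eq.1 hi with h1 | h1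
      · exact fun z hz => Or.inl (hP4 i h1 hz)
      · subst h1
        exact fun z hz => Or.inr (cov_res _ _ hz)

end F1P_

theorem p_F1P : T_F1P := by
  intro L _ T p k m r n R PP s hs h hd
  obtain ⟨P, h1, h2, _, h4⟩ := F1P_.main p k m n R PP s hs r h hd
  exact ⟨P, h1, h2, h4⟩

end SNB
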