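import Pool.Agent.SNB.Targets1

/-! SNB-FIN: a set depending on finitely many coordinates has finitely many fibres. -/

set_option autoImplicit false

namespace SNB

open Classical

theorem p_FIN : T_FIN := by
  intro L _ T _ n Y hY
  obtain ⟨F, -, hF⟩ := hY
  set f : (∀ l, T l) → Set (∀ l, T l) := fun z => fib n z Y with hf
  set r : (∀ l, T l) → (∀ l : F, T l) := fun z l => z l with hr
  have hfac : Function.FactorsThrough f r := by
    intro z z' hzz
    have h1 : ∀ l ∈ F, z l = z' l := by
      intro l hl
      exact congrFun hzz ⟨l, hl⟩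
    simp only [hf]
    ext y
    rw [mem_fib, mem_fib]
    apply hF
    intro l hl
    by_cases h2 : (l : WithTop L) < n
    · rw [glue_lt h2, glue_lt h2]
      exact h1 l hl
    · rw [glue_ge (not_lt.1 h2), glue_ge (not_lt.1 h2)]
  have hsub : Set.range f ⊆ Set.range (Function.extend r f (fun _ => ∅)) := by
    rintro _ ⟨z, rfl⟩
    exact ⟨r z, hfac.extend_apply _ z⟩
  exact (Set.finite_range _).subset hsub

end SNB
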