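import Pool.Agent.SNB.Targets2

/-!
# MP_3e8648_lc, case x = b: target G, the density lemma (helper53)
-/

set_option autoImplicit false

namespace SNB

open Classical

theorem p_G (hGM : T_GM) (hNUB : T_NUB) (hPD : T_PD) : T_G := by
  intro L _ T _ _ r m n A hn hn0 hA hCl h3
  obtain ⟨-, hb0, hb1⟩ := hPD r
  have hB := fun (m' : WithTop L) => hNUB L T (r + 1) m'
  have hbd : ∀ (s : ℕ) (z : ∀ l, T l),
      BddAbove (Set.range fun t => nu (r + 1) (n s) (fib (n s) z (A t))) := by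
    intro s z
    refine ⟨16, ?_⟩
    rintro x ⟨t, rfl⟩
    exact ((hB (n s)).1 _).2
  have hCl0 : ∀ t, Dp {l : L | m ≤ (l : WithTop L)} (A t) := fun t => (hCl t).dGe
  obtain ⟨z0, hz0⟩ : ∃ z0 : ∀ l, T l, z0 ∉ A 0 := by
    by_contra hcon
    have hcon' : ∀ z : ∀ l, T l, z ∈ A 0 := fun z => by
      by_contra hz
      exact hcon ⟨z, hz⟩
    have hu : A 0 = Set.univ := Set.eq_univ_of_forall hcon'
    have h8 := (hB m).2.2.2.2.2
    have h30 := h3 0
    rw [hu] at h30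
    linarith
  let h : ℕ → (∀ l, T l) → ℝ := fun s z => ⨆ t, nu (r + 1) (n s) (fib (n s) z (A t))
  let X : Set ℝ := {x | ∃ (s : ℕ) (z : ∀ l, T l), z ∉ A s ∧ x = h s z}
  have hle : ∀ (s : ℕ) (z : ∀ l, T l) (t : ℕ),
      nu (r + 1) (n s) (fib (n s) z (A t)) ≤ h s z := fun s z t => le_ciSup (hbd s z) t
  have hpos : ∀ (s : ℕ) (z : ∀ l, T l), 0 ≤ h s z := fun s z =>
    le_trans ((hB (n s)).1 _).1 (hle s z 0)
  have hXb : BddBelow X := by
    refine ⟨0, ?_⟩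
    rintro x ⟨s, z, -, rfl⟩
    exact hpos s z
  have hX0 : h 0 z0 ∈ X := ⟨0, z0, hz0, rfl⟩
  have h0 : h 0 z0 ≤ 3 := by
    apply ciSup_le
    intro t
    rw [hn0, fib_of_dGe (hCl0 t)]
    exact h3 t
  have hbnn : 0 ≤ sInf X := by
    apply le_csInf ⟨_, hX0⟩
    rintro x ⟨s, z, -, rfl⟩
    exact hpos s z
  have hb3 : sInf X ≤ 3 := (csInf_le hXb hX0).trans h0
  have hd : 0 < bet r / 8 := by positivity
  obtain ⟨x, ⟨s, z, hz, rfl⟩, hx⟩ : ∃ x ∈ X, x < sInf X + bet r / 8 :=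
    exists_lt_of_csInf_lt ⟨_, hX0⟩ (by linarith)
  have hgm := hGM L T r m n A (sInf X) (bet r / 8) s z hn hA hCl hn0.ge hd (by linarith)
    hbnn hb3 (by
      intro s' z' hz' c hc
      have h1 : c < h s' z' := hc.trans_le (csInf_le hXb ⟨s', z', hz', rfl⟩)
      exact exists_lt_of_lt_ciSup h1)
    (fun t => (hle s z t).trans hx.le)
  have hbound : (1 + bet r) * (4 * (2 * (bet r / 8)) + 5 * bet r) ≤ 7 * bet r := by
    nlinarith
  refine ⟨s, z, hz, fun t => ?_⟩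
  rcases le_total s t with hst | hst
  · exact (hgm t hst).trans hbound
  · refine le_trans ?_ ((hgm s le_rfl).trans hbound)
    exact (hB (n s)).2.2.1 _ _ (fib_mono _ _ (hA hst))

end SNB
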