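import Pool.Agent.SNB.Targets1

/-!
# MP_3e8648_lc, case x = b: the gap phase (T_GAP, helper5)
-/

set_option autoImplicit false
set_option linter.unusedSectionVars false

namespace SNB

open Classical

namespace GAP_

variable {L : Type} [LinearOrder L] {T : L → Type}

/-- the purchases which have used up their gates before `m'` -/
def cond (k : ℕ) (m m' : WithTop L) (q : Pur T) : Prop :=
  k < q.lev ∧ ∃ e, m < e ∧ e ≤ m' ∧ cnt q.J m e = tq (k + 10) q.J.card ∧
    ∀ x < e, cnt q.J m x < tq (k + 10) q.J.card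

/-- the time when this happens -/
noncomputable def en (k : ℕ) (m m' : WithTop L) (q : Pur T) : WithTop L :=
  if h : cond k m m' q then h.2.choose else m

theorem en_spec {k : ℕ} {m m' : WithTop L} {q : Pur T} (h : cond k m m' q) :
    m < en k m m' q ∧ en k m m' q ≤ m' ∧ cnt q.J m (en k m m' q) = tq (k + 10) q.J.card ∧
      ∀ x < en k m m' q, cnt q.J m x < tq (k + 10) q.J.card := by
  unfold en
  rw [dif_pos h]
  exact h.2.choose_spec

theorem sum_le (P : List (Pur T)) (F : ℝ) (hF : 0 ≤ F) (z y : ∀ l, T l) (c : Pur T → Prop)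
    (R : Pur T → Set (∀ l, T l)) :
    (P.map fun q => if c q ∧ z ∈ q.Q ∧ y ∈ R q then F * price q.lev q.J.card else 0).sum ≤
      F * cost P z := by
  unfold cost
  induction P with
  | nil => simp
  | cons q P ih =>
    simp only [List.map_cons, List.sum_cons, mul_add]
    refine add_le_add ?_ ih
    unfold con
    by_cases h : z ∈ q.Q
    · rw [if_pos h]
      by_cases h2 : c q ∧ z ∈ q.Q ∧ y ∈ R q
      · rw [if_pos h2]
      · rw [if_neg h2]
        exact mul_nonneg hF (price_nonneg _ _)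
    · rw [if_neg h, if_neg fun h3 => h h3.2.1, mul_zero]

/-- the least element of a finite set of times -/
theorem exists_least (P : List (Pur T)) (m m' : WithTop L) (hm : m ≤ m') (c : Pur T → Prop)
    (hc : ∀ q, c q → m ≤ q.tm) :
    ∃ m'', m ≤ m'' ∧ m'' ≤ m' ∧ (∀ q ∈ P, c q → q.tm ≤ m'' → q.tm = m'') ∧
      (m'' = m' ∨ ∃ q ∈ P, c q ∧ q.tm = m'') := by
  induction P with
  | nil => exact ⟨m', hm, le_rfl, by simp, Or.inl rfl⟩
  | cons q P ih =>
    obtain ⟨a, h1, h2, h3, h4⟩ := ih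
    by_cases h : c q ∧ q.tm ≤ a
    · refine ⟨q.tm, hc q h.1, h.2.trans h2, ?_, Or.inr ⟨q, by simp, h.1, rfl⟩⟩
      intro q' hq' hc' hle
      rcases List.mem_cons.1 hq' with rfl | hq'
      · rfl
      · have h5 := h3 q' hq' hc' (hle.trans h.2)
        exact le_antisymm hle (by rw [h5]; exact h.2)
    · refine ⟨a, h1, h2, ?_, ?_⟩
      · intro q' hq' hc' hle
        rcases List.mem_cons.1 hq' with rfl | hq'
        · exact absurd ⟨hc', hle⟩ h
        · exact h3 q' hq' hc' hle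
      · rcases h4 with h4 | ⟨q', hq', h5, h6⟩
        · exact Or.inl h4
        · exact Or.inr ⟨q', List.mem_cons_of_mem _ hq', h5, h6⟩

end GAP_

open GAP_ in
theorem p_GAP (h_DPL : T_DPL) (h_EE : T_EE) (h_STC : T_STC) (h_PC : T_PC) : T_GAP := by
  intro L _ T p k m0 m m' z P hLB hP hcost hmm
  set F : ℝ := 1 + ((k + 10 : ℕ) : ℝ) / (parA (k + 1) : ℝ) with hFdef
  have hF : 0 < F := by
    have : (0 : ℝ) ≤ ((k + 10 : ℕ) : ℝ) / (parA (k + 1) : ℝ) := by positivity
    rw [hFdef]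
    linarith
  obtain ⟨W, hW1, hW2, hW3⟩ := h_DPL L T p k (k + 1) (k + 10) m0 m z P (cond k m m')
    (en k m m') (fun _ => Set.univ) hP (fun q _ hq => ⟨hq.1, (en_spec hq).2.2.1.ge⟩)
    (fun q _ => dLt_univ _)
  have hWc : ∀ y, cost W y < cc (k + 1) := by
    intro y
    calc cost W y ≤ _ := hW2 y
      _ ≤ F * cost P (glue m z y) :=
        sum_le P F hF.le (glue m z y) y (cond k m m') (fun _ => Set.univ)
      _ < F * cc k := mul_lt_mul_of_pos_left (hcost _) hF
      _ ≤ cc (k + 1) := (h_PC k).1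
  obtain ⟨y, hy⟩ := hLB m W hW1 hWc
  obtain ⟨m'', hm1, hm2, hm3, hm4⟩ := exists_least P m m' hmm
    (fun q => q.lev = k ∧ glue m z y ∈ q.Q ∧ m < q.tm ∧ q.tm ≤ m') (fun q hq => hq.2.2.1.le)
  refine ⟨m'', glue m z y, hm1, hm2, agr_glue m z y, ?_, ?_, ?_⟩
  · intro q hq h1 h2 h3 h4
    exact hm3 q hq ⟨h1, h2, h3, h4.trans hm2⟩ h4
  · rcases hm4 with h | ⟨q, hq, h, h'⟩
    · exact Or.inl h
    · exact Or.inr ⟨q, hq, h.1, h.2.1, h.2.2.1, h'⟩
  · rintro q hq hk ⟨hmd1, hmd2⟩
    obtain ⟨-, hOK⟩ := hP q hq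
    obtain ⟨-, -, -, hg1, hg2, -⟩ := hOK _ hmd2
    have hG : Gts q.J := ⟨fun g hg => (hg1 g hg).2, hg2⟩
    by_cases hc : cond k m m' q
    · obtain ⟨he1, he2, he3, he4⟩ := en_spec hc
      rcases le_or_gt (en k m m' q) m'' with h | h
      · left
        exact esc_of_hull h (hW3 y hy q hq hc hmd2 trivial)
      · right
        have h1 := he4 m'' h
        have h2 := h_STC L q.J m m'' hG
        omega
    · right
      have h1 : cnt q.J m m' < tq (k + 10) q.J.card := by
        by_contra h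
        obtain ⟨e, he1, he2, he3, he4⟩ := h_EE L q.J m m' _ hG (tq_pos _ _) (not_lt.1 h)
        exact hc ⟨hk, e, he1, he2, he3, he4⟩
      have h2 := h_STC L q.J m m' hG
      have h3 : stt q.J m m'' ≤ stt q.J m m' := stt_mono hm2
      omega

end SNB
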