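import Pool.Agent.SNB.Targets2

/-!
# MP_3e8648_lc, case x = b: the next gate (T_GAT, helper5)
-/

set_option autoImplicit false
set_option linter.unusedSectionVars false

namespace SNB

open Classical Filter Topology

namespace GAT_

variable {L : Type} [LinearOrder L] {T : L → Type}

theorem eps_pos (r : ℕ) : 0 < eps r := by
  unfold eps
  positivity

/-- the states where `C` is not good for `U` -/
def bad (r : ℕ) (m1 : WithTop L) (U C : Set (∀ l, T l)) : Set (∀ l, T l) :=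
  {z | 2 * eps r < nu (r + 1) m1 (fib m1 z U ∩ C)}

theorem cl_bad (r : ℕ) {m m1 : WithTop L} {S : Set L} {n : WithTop L} {U : Set (∀ l, T l)}
    (h : Cl (S ∩ Iv m n) U) (C : Set (∀ l, T l)) : Cl (Iv m m1) (bad r m1 U C) := by
  refine (Cl.pred h m1 fun X => 2 * eps r < nu (r + 1) m1 (X ∩ C)).mono ?_
  rintro l ⟨⟨-, h1⟩, h2⟩
  exact ⟨h1.1, h2⟩

/-- all of the first sets are bad -/
def Gs (r : ℕ) (m1 : WithTop L) (U : Set (∀ l, T l)) (Cc : ℕ → Set (∀ l, T l)) (a : ℕ) :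
    Set (∀ l, T l) := ⋂ a' ∈ Finset.range (a + 1), bad r m1 U (Cc a')

/-- `Cc a` is the first good set -/
def frs (r : ℕ) (m1 : WithTop L) (U : Set (∀ l, T l)) (Cc : ℕ → Set (∀ l, T l)) (a : ℕ) :
    Set (∀ l, T l) := (bad r m1 U (Cc a))ᶜ ∩ ⋂ a' ∈ Finset.range a, bad r m1 U (Cc a')

theorem mem_Gs {r : ℕ} {m1 : WithTop L} {U : Set (∀ l, T l)} {Cc : ℕ → Set (∀ l, T l)} {a : ℕ}
    {z : ∀ l, T l} : z ∈ Gs r m1 U Cc a ↔ ∀ a' ≤ a, z ∈ bad r m1 U (Cc a') := by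
  unfold Gs
  simp

theorem mem_frs {r : ℕ} {m1 : WithTop L} {U : Set (∀ l, T l)} {Cc : ℕ → Set (∀ l, T l)} {a : ℕ}
    {z : ∀ l, T l} : z ∈ frs r m1 U Cc a ↔
      z ∉ bad r m1 U (Cc a) ∧ ∀ a' < a, z ∈ bad r m1 U (Cc a') := by
  unfold frs
  simp

theorem exists_frs {r : ℕ} {m1 : WithTop L} {U : Set (∀ l, T l)} {Cc : ℕ → Set (∀ l, T l)}
    {a : ℕ} {z : ∀ l, T l} (h : z ∉ Gs r m1 U Cc a) : ∃ a' ≤ a, z ∈ frs r m1 U Cc a' := by
  rw [mem_Gs] at h
  push Not at h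
  obtain ⟨a0, h0, h1⟩ := h
  have hex : ∃ a', z ∉ bad r m1 U (Cc a') := ⟨a0, h1⟩
  refine ⟨Nat.find hex, (Nat.find_min' hex h1).trans h0, mem_frs.2 ⟨Nat.find_spec hex, ?_⟩⟩
  intro a' ha'
  exact not_not.1 (Nat.find_min hex ha')

theorem frs_unique {r : ℕ} {m1 : WithTop L} {U : Set (∀ l, T l)} {Cc : ℕ → Set (∀ l, T l)}
    {a a' : ℕ} {z : ∀ l, T l} (h : z ∈ frs r m1 U Cc a) (h' : z ∈ frs r m1 U Cc a') :
    a = a' := by
  rw [mem_frs] at h h'
  rcases lt_trichotomy a a' with h1 | h1 | h1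
  · exact absurd (h'.2 a h1) h.1
  · exact h1
  · exact absurd (h.2 a' h1) h'.1

theorem cl_Gs (r : ℕ) {m m1 : WithTop L} {S : Set L} {n : WithTop L} {U : Set (∀ l, T l)}
    (h : Cl (S ∩ Iv m n) U) (Cc : ℕ → Set (∀ l, T l)) (a : ℕ) :
    Cl (Iv m m1) (Gs r m1 U Cc a) := Cl.biInter _ fun a' _ => cl_bad r h (Cc a')

theorem cl_frs (r : ℕ) {m m1 : WithTop L} {S : Set L} {n : WithTop L} {U : Set (∀ l, T l)}
    (h : Cl (S ∩ Iv m n) U) (Cc : ℕ → Set (∀ l, T l)) (a : ℕ) :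
    Cl (Iv m m1) (frs r m1 U Cc a) :=
  (cl_bad r h (Cc a)).compl.inter (Cl.biInter _ fun a' _ => cl_bad r h (Cc a'))

/-- the set `W` -/
def WW (r : ℕ) (m1 : WithTop L) (U : Set (∀ l, T l)) (Cc : ℕ → Set (∀ l, T l)) (a : ℕ) :
    Set (∀ l, T l) :=
  Gs r m1 U Cc a ∪ ⋃ a' ∈ Finset.range (a + 1), (frs r m1 U Cc a' ∩ Cc a')

theorem mem_WW {r : ℕ} {m1 : WithTop L} {U : Set (∀ l, T l)} {Cc : ℕ → Set (∀ l, T l)} {a : ℕ}
    {z : ∀ l, T l} : z ∈ WW r m1 U Cc a ↔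
      z ∈ Gs r m1 U Cc a ∨ ∃ a' ≤ a, z ∈ frs r m1 U Cc a' ∧ z ∈ Cc a' := by
  unfold WW
  simp only [Set.mem_union, Set.mem_iUnion, Finset.mem_range, Nat.lt_succ_iff, exists_prop]
  rfl

end GAT_

open GAT_ in
theorem p_GAT (h_KEY : T_KEY) (h_CNT : T_CNT) (h_PFI : T_PFI) (h_NF1 : T_NF1) (h_NUB : T_NUB) :
    T_GAT := by
  intro L _ T _ _ r m m1 m1' l b S E hS hm1 hm1' hl hb hb0 hbl hE hdis hex1 hex2
  have hE' : ∀ i, Cl (S ∩ Iv m (b (i + 1))) (E i) := fun i => hE (i + 1) i (Nat.lt_succ_self i)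
  obtain ⟨hn0, hn1, hn2, hn3, -, hn8⟩ := h_NUB L T (r + 1) m
  obtain ⟨hm0', hm1'', hm2', -, -, hm8⟩ := h_NUB L T (r + 1) m1
  have hep := eps_pos r
  -- the key lemma at every state
  have key : ∀ z : ∀ l, T l, ∃ (N : ℕ) (C : Set (∀ l, T l)), Cl (S ∩ Iv m1 (b N)) C ∧
      1 < nu (r + 1) m1 C ∧
      ∃ i0, ∀ i, i0 ≤ i → nu (r + 1) m1 (fib m1 z (E i) ∩ C) ≤ 2 * eps r := by
    intro z
    refine h_KEY L T r m1 b S (fun i => fib m1 z (E i)) hb hb0 ?_ ?_ hex2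
    · intro N i hi
      refine ((hE N i hi).fib m1 z).mono ?_
      rintro x ⟨⟨h1, h2⟩, h3⟩
      exact ⟨h1, h3, h2.2⟩
    · intro i j hij
      rw [Set.disjoint_left]
      intro y hy hy'
      exact Set.disjoint_left.1 (hdis i j hij) hy hy'
  -- enumeration of the pairs
  let PP : Set (ℕ × Set (∀ l, T l)) :=
    {x | Cl (S ∩ Iv m1 (b x.1)) x.2 ∧ 1 < nu (r + 1) m1 x.2}
  have hPPc : PP.Countable := by
    have h1 : PP ⊆ ⋃ N : ℕ, (fun C => (N, C)) '' {X : Set (∀ l, T l) | Cl (S ∩ Iv m1 (b N)) X} := by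
      rintro ⟨N, C⟩ h
      rw [Set.mem_iUnion]
      exact ⟨N, C, h.1, rfl⟩
    refine Set.Countable.mono h1 (Set.countable_iUnion fun N => ?_)
    exact (h_CNT L T _ (hS.mono Set.inter_subset_left)).image _
  have hPPn : PP.Nonempty := by
    obtain ⟨N, C, h1, h2, -⟩ := key (fun l => Classical.arbitrary (T l))
    exact ⟨(N, C), h1, h2⟩
  obtain ⟨f, hf⟩ := hPPc.exists_eq_range hPPn
  have hfa : ∀ a, Cl (S ∩ Iv m1 (b (f a).1)) (f a).2 ∧ 1 < nu (r + 1) m1 (f a).2 := by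
    intro a
    have : f a ∈ PP := by
      rw [hf]
      exact ⟨a, rfl⟩
    exact this
  let Cc : ℕ → Set (∀ l, T l) := fun a => (f a).2
  have key2 : ∀ z : ∀ l, T l, ∃ a i0, ∀ i, i0 ≤ i → z ∉ bad r m1 (E i) (Cc a) := by
    intro z
    obtain ⟨N, C, h1, h2, i0, h3⟩ := key z
    have h4 : (N, C) ∈ PP := ⟨h1, h2⟩
    rw [hf] at h4
    obtain ⟨a, ha⟩ := h4
    refine ⟨a, i0, fun i hi hz => ?_⟩
    have h5 : Cc a = C := congrArg Prod.snd ha
    rw [h5] at hz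
    exact absurd (h3 i hi) (not_le.2 hz)
  -- the sets of the states which are bad for a long time are small
  have step : ∃ a i0, ∀ i, i0 ≤ i → nu (r + 1) m (Gs r m1 (E i) Cc a) ≤ eps r := by
    by_contra hcon
    push Not at hcon
    have hfr : ∀ a, ∃ᶠ i in atTop, eps r < nu (r + 1) m (Gs r m1 (E i) Cc a) := by
      intro a
      rw [frequently_atTop]
      intro i0
      obtain ⟨i, hi, h⟩ := hcon a i0
      exact ⟨i, hi, h⟩
    obtain ⟨φ, hφ, hφ2⟩ := extraction_forall_of_frequently hfr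
    obtain ⟨N, hN⟩ := h_PFI L T (nu (r + 1) m) (Iv m m1) hex1 hn1 hn2 hn3
      (fun a => Gs r m1 (E (φ a)) Cc a) (fun a => cl_Gs r (hE' (φ a)) Cc a) (by
        intro z
        obtain ⟨a0, i0, h⟩ := key2 z
        refine (Set.finite_lt_nat (max a0 i0)).subset ?_
        intro a ha
        show a < max a0 i0
        by_contra hlt
        have h1 : max a0 i0 ≤ a := not_lt.1 hlt
        have h2 : a ≤ φ a := hφ.id_le a
        exact h (φ a) (((le_max_right _ _).trans h1).trans h2)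
          (mem_Gs.1 ha a0 ((le_max_left _ _).trans h1))) (eps r) hep
    exact absurd (hN N le_rfl) (not_lt.2 (hφ2 N).le)
  obtain ⟨a, i0, hai⟩ := step
  let M : ℕ := (Finset.range (a + 1)).sup fun a' => (f a').1
  have hM : ∀ a' ≤ a, (f a').1 ≤ M := fun a' ha' =>
    Finset.le_sup (f := fun a' => (f a').1) (Finset.mem_range.2 (Nat.lt_succ_of_le ha'))
  refine ⟨max m1' (b M), lt_max_of_lt_left hm1', max_lt hl (hbl M), i0, fun i hi => ?_⟩
  have hG : DLt m1 (Gs r m1 (E i) Cc a) := (cl_Gs r (hE' i) Cc a).dLt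
  have hF : ∀ a', DLt m1 (frs r m1 (E i) Cc a') := fun a' => (cl_frs r (hE' i) Cc a').dLt
  have hCge : ∀ a', Dp {x : L | m1 ≤ (x : WithTop L)} (Cc a') := fun a' =>
    (hfa a').1.dp.mono fun x hx => hx.2.1
  have hW : Cl (Iv m (max m1' (b M))) (WW r m1 (E i) Cc a) := by
    refine Cl.union ((cl_Gs r (hE' i) Cc a).mono
      (Iv_mono le_rfl (hm1'.le.trans (le_max_left _ _)))) (Cl.biUnion _ fun a' ha' => ?_)
    refine Cl.inter ((cl_frs r (hE' i) Cc a').mono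
      (Iv_mono le_rfl (hm1'.le.trans (le_max_left _ _)))) ((hfa a').1.mono ?_)
    rintro x ⟨-, h1, h2⟩
    refine ⟨hm1.trans h1, h2.trans_le ((hb (hM a' ?_)).trans (le_max_right _ _))⟩
    exact Nat.lt_succ_iff.1 (Finset.mem_range.1 ha')
  refine ⟨WW r m1 (E i) Cc a, hW, ?_, ?_⟩
  · intro z
    by_cases hz : z ∈ Gs r m1 (E i) Cc a
    · have h1 : (Set.univ : Set (∀ l, T l)) ⊆ fib m1 z (WW r m1 (E i) Cc a) := by
        rw [← fib_of_mem hG hz]
        exact fib_mono m1 z Set.subset_union_left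
      have h2 := hm2' _ _ h1
      linarith
    · obtain ⟨a', ha', hfr⟩ := exists_frs hz
      have h1 : Cc a' ⊆ fib m1 z (WW r m1 (E i) Cc a) := by
        intro y hy
        rw [mem_fib, mem_WW]
        right
        refine ⟨a', ha', ((hF a').iff (agr_glue m1 z y)).1 hfr, ?_⟩
        have h3 : fib m1 z (Cc a') = Cc a' := fib_of_dGe (hCge a') z
        rw [← mem_fib, h3]
        exact hy
      exact (hfa a').2.trans_le (hm2' _ _ h1)
  · have hY : nu (r + 1) m ((E i ∩ WW r m1 (E i) Cc a) \ Gs r m1 (E i) Cc a) ≤ 2 * eps r := by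
      refine h_NF1 L T (r + 1) m _ 1 (fun _ => m1) (fun _ => Set.univ) (2 * eps r) (by linarith)
        ?_ (fun _ _ => ⟨hm1, dLt_univ _⟩) (fun j hj k hk hjk => absurd (by omega) hjk)
        (fun z _ => ⟨0, by omega, trivial⟩) ?_
      · exact (((hE' i).toUniv.inter hW.toUniv).diff (cl_Gs (m1 := m1) r (hE' i) Cc a).toUniv)
      · intro j _ z _
        by_cases hz : z ∈ Gs r m1 (E i) Cc a
        · have h1 : fib m1 z ((E i ∩ WW r m1 (E i) Cc a) \ Gs r m1 (E i) Cc a) = ∅ := by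
            rw [fib_diff, fib_of_mem hG hz, Set.sdiff_univ]
          rw [h1, hm1'']
          linarith
        · obtain ⟨a', ha', hfr⟩ := exists_frs hz
          have h1 : fib m1 z ((E i ∩ WW r m1 (E i) Cc a) \ Gs r m1 (E i) Cc a) ⊆
              fib m1 z (E i) ∩ Cc a' := by
            rintro y ⟨⟨hy1, hy2⟩, hy3⟩
            refine ⟨hy1, ?_⟩
            rcases mem_WW.1 hy2 with h | ⟨a'', ha'', h2, h3⟩
            · exact absurd h hy3
            · have h4 : z ∈ frs r m1 (E i) Cc a'' := ((hF a'').iff (agr_glue m1 z y)).2 h2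
              have h5 := frs_unique hfr h4
              subst h5
              have h6 : fib m1 z (Cc a') = Cc a' := fib_of_dGe (hCge a') z
              rw [← h6]
              exact h3
          refine (hm2' _ _ h1).trans ?_
          exact not_lt.1 (mem_frs.1 hfr).1
    have h1 : E i ∩ WW r m1 (E i) Cc a ⊆
        Gs r m1 (E i) Cc a ∪ ((E i ∩ WW r m1 (E i) Cc a) \ Gs r m1 (E i) Cc a) := by
      intro z hz
      by_cases h : z ∈ Gs r m1 (E i) Cc a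
      · exact Or.inl h
      · exact Or.inr ⟨hz, h⟩
    have h2 := hn2 _ _ h1
    have h3 := hn3 (Gs r m1 (E i) Cc a) ((E i ∩ WW r m1 (E i) Cc a) \ Gs r m1 (E i) Cc a)
    have h4 := hai i hi
    linarith

end SNB
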