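import Pool.Agent.SNB.Targets1

/-!
# SNB-GC1: case 1 of the finite form of the density lemma (helper51)
-/

set_option autoImplicit false

namespace SNB

open Classical

private theorem GC1_sum {L : Type} [LinearOrder L] {T : L → Type} (P : List (Pur T)) (b : ℝ)
    (hb : 0 ≤ b) (z : ∀ l, T l) (cond : Pur T → Prop) (R : Pur T → Prop) :
    (P.map fun q => if cond q ∧ z ∈ q.Q ∧ R q then b * price q.lev q.J.card else 0).sum ≤
      b * cost P z := by
  induction P with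
  | nil => simp [cost]
  | cons q P ih =>
    simp only [List.map_cons, List.sum_cons, cost] at ih ⊢
    rw [mul_add]
    refine add_le_add ?_ ih
    unfold con
    split_ifs with h1 h2 h2
    · exact le_rfl
    · exact absurd h1.2.1 h2
    · exact mul_nonneg hb (price_nonneg _ _)
    · simp

private theorem GC1_par (r : ℕ) : (1 + 7 / (parA (r + 1) : ℝ)) * 4 ≤ 8 := by
  have h1 : 7 ≤ parA (r + 1) := by
    simp only [parA]
    have h2 : 3 ≤ r + 9 + (2 * r + 30 + 2 ^ (r + 4) * parA r) := by omega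
    calc 7 ≤ 2 ^ 3 := by norm_num
      _ ≤ 2 ^ (r + 9 + (2 * r + 30 + 2 ^ (r + 4) * parA r)) :=
        Nat.pow_le_pow_right (by norm_num) h2
  have h2 : (7 : ℝ) ≤ (parA (r + 1) : ℝ) := by exact_mod_cast h1
  have h3 : 7 / (parA (r + 1) : ℝ) ≤ 1 := by
    rw [div_le_one (by linarith)]
    exact h2
  linarith

theorem p_GC1 (hDPL : T_DPL) (hGCT : T_GCT) : T_GC1 := by
  intro L _ T p r m n P z1 hP hLB hcost hmn hF
  have hcost' : ∀ z, cost P z < 16 := fun z => (hcost z).trans (by norm_num)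
  obtain ⟨W, hW, hWc, hWn⟩ := hDPL L T p (r + 1) (r + 1) 7 m n z1 P
    (fun q => q.Q.Nonempty ∧ tq 7 q.J.card ≤ cnt q.J n ⊤) (fun _ => ⊤)
    (fun _ => Set.univ) hP
    (by
      rintro q hq ⟨⟨z, hz⟩, h3⟩
      exact ⟨((hP q hq).2 z hz).1.1, h3⟩)
    (fun q _ => dLt_univ _)
  have hb0 : (0 : ℝ) ≤ 1 + ((7 : ℕ) : ℝ) / (parA (r + 1) : ℝ) := by positivity
  have hcW : ∀ z, cost W z < cc (r + 1) := by
    intro y
    have h1 := (hWc y).trans (GC1_sum P _ hb0 (glue n z1 y)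
      (fun q => q.Q.Nonempty ∧ tq 7 q.J.card ≤ cnt q.J n ⊤) (fun _ => y ∈ Set.univ))
    have h2 := GC1_par r
    have h3 : (1 + ((7 : ℕ) : ℝ) / (parA (r + 1) : ℝ)) * cost P (glue n z1 y) ≤
        (1 + ((7 : ℕ) : ℝ) / (parA (r + 1) : ℝ)) * 4 :=
      mul_le_mul_of_nonneg_left (hcost _).le hb0
    have h4 : (8 : ℝ) < cc (r + 1) := by
      unfold cc
      have : ((1 : ℝ) / 2) ^ (r + 1) ≤ 1 / 2 := by
        rw [pow_succ]
        have : ((1 : ℝ) / 2) ^ r ≤ 1 := pow_le_one₀ (by norm_num) (by norm_num)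
        linarith
      linarith
    have h5 : (1 + ((7 : ℕ) : ℝ) / (parA (r + 1) : ℝ)) * 4 ≤ 8 := by
      simpa using h2
    linarith
  obtain ⟨y, hy⟩ := hLB n W hW hcW
  refine ⟨y, ?_⟩
  rintro ⟨q, hq, hQ, hX⟩
  by_cases hE : Early m n q
  · have h3 := (hGCT L T p r m n n P q (glue n z1 y) hP hcost' hq hQ hmn le_rfl).2.1 hE
    have hagr : agr n z1 (glue n z1 y) := agr_glue n z1 y
    have hz1 : z1 ∈ q.Q := ((hP q hq).1.iff (agr_mono h3.le hagr)).2 hQ
    obtain ⟨e, hen, _, _, hne⟩ := hF q hq hE hz1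
    exact esc_of_hull hen hne y hX
  · have h3 := (hGCT L T p r m n n P q (glue n z1 y) hP hcost' hq hQ hmn le_rfl).1 hE
    exact hWn y hy q hq ⟨⟨_, hQ⟩, h3⟩ hQ (Set.mem_univ _) (subset_hull ⊤ q.X hX)

end SNB
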