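import Pool.Agent.SNB.Targets1

/-!
Problem MP_3e8648_lc. Target `SNB.T_GCT`: counting of the gates of a purchase of a plan.
-/

namespace SNB

open Classical

/-- a positive number of gates inside `[m,s)` gives `t < s` if all gates start at `t` or later -/
private theorem gct_lt {L : Type} [LinearOrder L] {J : Finset (WithTop L × WithTop L)}
    {m s t : WithTop L} (h : ∀ g ∈ J, t ≤ g.1 ∧ g.1 < g.2) (hc : 0 < cnt J m s) : t < s := by
  unfold cnt at hc
  obtain ⟨g, hg⟩ := Finset.card_pos.1 hc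
  rw [mem_ins] at hg
  obtain ⟨h1, h2⟩ := h g hg.1
  exact (h1.trans_lt h2).trans_le hg.2.2

/-- gates inside `[m,n)` start before `s` or are inside `[s,n)` -/
private theorem gct_split {L : Type} [LinearOrder L] (J : Finset (WithTop L × WithTop L))
    (m n s : WithTop L) : cnt J m n ≤ stt J m s + cnt J s n := by
  unfold cnt stt
  refine le_trans (Finset.card_le_card ?_) (Finset.card_union_le _ _)
  intro g hg
  rw [mem_ins] at hg
  rw [Finset.mem_union, Finset.mem_filter, mem_ins]
  rcases lt_or_ge g.1 s with h | h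
  · exact Or.inl ⟨hg.1, hg.2.1, h⟩
  · exact Or.inr ⟨hg.1, h, hg.2.2⟩

theorem p_GCT (h_PB : T_PB) (h_STC : T_STC) : T_GCT := by
  intro L _ T p r m n s P q z hP hc hq hz hms hsn
  obtain ⟨-, h2⟩ := hP q hq
  obtain ⟨-, hm, -, hst, hdis, -⟩ := h2 z hz
  have hG : Gts q.J := ⟨fun g hg => (hst g hg).2, hdis⟩
  have hN : 2 ^ (2 * q.lev + 30) ≤ q.J.card := h_PB _ _ (price_lt hq hz (hc z))
  have hN2 : 2 ^ 30 ≤ q.J.card := le_trans (Nat.pow_le_pow_right (by norm_num) (by omega)) hN
  have h4 : 4 * tq 7 q.J.card ≤ q.J.card := by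
    unfold tq
    omega
  have h1 : 1 ≤ tq 7 q.J.card := tq_pos _ _
  have hb : bef q.J m = 0 := bef_zero fun g hg => hm.trans (hst g hg).1
  have hmn : m ≤ n := hms.trans hsn
  have e1 := bef_add_stt q.J hmn
  have e2 := card_eq_bef_add_cnt q.J n
  have e3 := h_STC L q.J m n hG
  have e4 := bef_add_stt q.J hms
  have e5 := card_eq_bef_add_cnt q.J s
  have e6 := h_STC L q.J m s hG
  have e7 := gct_split q.J m n s
  refine ⟨fun hE => ?_, fun hE => ?_, fun hE hs => ?_, fun hs => ?_⟩
  · unfold Early at hE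
    omega
  · unfold Early at hE
    have h6 : 0 < cnt q.J m n := by omega
    exact gct_lt hst h6
  · unfold Early at hE
    have h5 : tq 7 q.J.card ≤ cnt q.J m s := by omega
    have h6 : 0 < cnt q.J m s := by omega
    exact ⟨gct_lt hst h6, h5⟩
  · have h5 : 3 * tq 7 q.J.card ≤ cnt q.J m s := by omega
    have h6 : 0 < cnt q.J m s := by omega
    exact ⟨gct_lt hst h6, h5⟩

end SNB
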