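import Pool.Agent.SNB.Targets1

/-!
# SNB-GD1: case 2, (i) of the finite form of the density lemma (helper46)
-/

set_option autoImplicit false

namespace SNB

open Classical

private theorem GD1_sum {L : Type} [LinearOrder L] {T : L → Type} (P : List (Pur T)) (b : ℝ)
    (hb : 0 ≤ b) (z : ∀ l, T l) (cond : Pur T → Prop) (R : Pur T → Prop) :
    (P.map fun q => if cond q ∧ z ∈ q.Q ∧ R q then b * price q.lev q.J.card else 0).sum ≤
      b * cost P z := by
  induction P with
  | nil => simp [cost]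
  | cons q P ih =>
    simp only [List.map_cons, List.sum_cons, cost] at ih ⊢
    rw [mul_add]
    refine add_le_add ?_ ih
    unfold con
    split_ifs with h1 h2 h2
    · exact le_rfl
    · exact absurd h1.2.1 h2
    · exact mul_nonneg hb (price_nonneg _ _)
    · simp

theorem p_GD1 (hDPL : T_DPL) (hGCT : T_GCT) : T_GD1 := by
  intro L _ T p r m n s P z1 c hP hcost hc hms hsn hF
  have hcost' : ∀ z, cost P z < 16 := fun z => (hcost z).trans_le hc
  obtain ⟨W, hW, hWc, hWn⟩ := hDPL L T p (r + 1) (r + 1) 7 m s z1 P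
    (fun q => q.Q.Nonempty ∧ Early m n q ∧ tq 7 q.J.card ≤ cnt q.J s n) (fun _ => n)
    (fun _ => Set.univ) hP
    (by
      rintro q hq ⟨⟨z, hz⟩, _, h3⟩
      exact ⟨((hP q hq).2 z hz).1.1, h3⟩)
    (fun q _ => dLt_univ _)
  have hb : 1 + ((7 : ℕ) : ℝ) / (parA (r + 1) : ℝ) = 1 + bet r := by
    unfold bet
    norm_num
  have hb0 : 0 ≤ 1 + bet r := by
    unfold bet
    positivity
  refine ⟨W, hW, fun y => ?_, ?_⟩
  · refine (hWc y).trans ?_
    rw [hb]
    refine (GD1_sum P (1 + bet r) hb0 (glue s z1 y)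
      (fun q => q.Q.Nonempty ∧ Early m n q ∧ tq 7 q.J.card ≤ cnt q.J s n)
      (fun _ => y ∈ Set.univ)).trans ?_
    exact mul_le_mul_of_nonneg_left (hcost _).le hb0
  · intro y hy q hq hE hz'
    by_cases hcnd : tq 7 q.J.card ≤ cnt q.J s n
    · exact hWn y hy q hq ⟨⟨_, hz'⟩, hE, hcnd⟩ hz' (Set.mem_univ _)
    · have h3 := (hGCT L T p r m n s P q (glue s z1 y) hP hcost' hq hz' hms hsn).2.2.1 hE
        (not_le.1 hcnd)
      have hagr : agr s z1 (glue s z1 y) := agr_glue s z1 y
      have hz1 : z1 ∈ q.Q := ((hP q hq).1.iff (agr_mono h3.1.le hagr)).2 hz'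
      obtain ⟨e, hen, hlt, _, hne⟩ := hF q hq hE hz1 h3.1
      have hes : e ≤ s := by
        by_contra h
        exact absurd h3.2 (not_le.2 (hlt s (not_le.1 h)))
      have h4 : glue s z1 y ∉ hull e q.X := fun h =>
        hne (((dLt_hull e q.X).iff (agr_mono hes hagr)).2 h)
      rintro ⟨w, hw⟩
      apply h4
      refine ⟨glue n (glue s z1 y) w, ?_⟩
      rw [glue_glue hen, glue_self]
      exact hw

end SNB
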