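import Pool.Agent.SNB.Targets1

/-! # SNB-GD2: case 2 (ii) of the finite form of the density lemma -/

set_option autoImplicit false

namespace SNB

open Classical

namespace GD2_

theorem sum_bound {α : Type*} (P : List α) (f a b : α → ℝ) (K : ℝ)
    (h : ∀ q ∈ P, f q ≤ K * (a q - b q)) :
    (P.map f).sum ≤ K * ((P.map a).sum - (P.map b).sum) := by
  induction P with
  | nil => simp
  | cons x P ih =>
    simp only [List.map_cons, List.sum_cons]
    have h1 := h x List.mem_cons_self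
    have h2 := ih fun q hq => h q (List.mem_cons_of_mem _ hq)
    have e : K * (a x + (P.map a).sum - (b x + (P.map b).sum)) =
        K * (a x - b x) + K * ((P.map a).sum - (P.map b).sum) := by ring
    rw [e]
    exact add_le_add h1 h2

end GD2_

theorem p_GD2 (hDPL : T_DPL) (hGCT : T_GCT) : T_GD2 := by
  intro L _ T p r m n s P z' c lam hP hc hc16 hms hsn hlam hE
  have hmn : m ≤ n := hms.trans hsn
  have hc' : ∀ z, cost P z < 16 := fun z => (hc z).trans_le hc16
  have hbet : (0 : ℝ) ≤ 1 + bet r := by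
    unfold bet
    have : (0 : ℝ) ≤ 7 / (parA (r + 1) : ℝ) := by positivity
    linarith
  obtain ⟨cond, hcond⟩ : ∃ cond : Pur T → Prop, ∀ q, cond q ↔
      (¬ Early m n q ∧ tq 7 q.J.card ≤ cnt q.J n ⊤ ∧ q.Q.Nonempty) := ⟨_, fun _ => Iff.rfl⟩
  obtain ⟨R, hR⟩ : ∃ R : Pur T → Set (∀ l, T l), ∀ q, R q = Set.univ := ⟨_, fun _ => rfl⟩
  obtain ⟨W, hW1, hW2, hW3⟩ := hDPL L T p (r + 1) (r + 1) 7 m n z' P cond
    (fun _ => ⊤) R hP
    (by
      intro q hq hcq
      obtain ⟨h1, h2, ⟨x, hx⟩⟩ := (hcond q).1 hcq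
      exact ⟨((hP q hq).2 x hx).1.1, h2⟩)
    (fun q _ => by rw [hR q]; exact dLt_univ _)
  refine ⟨W, hW1, ?_, ?_⟩
  · intro w
    refine (hW2 w).trans ?_
    have hterm : ∀ q ∈ P, (if cond q ∧
        glue n z' w ∈ q.Q ∧ w ∈ R q then
        (1 + ((7 : ℕ) : ℝ) / (parA (r + 1) : ℝ)) * price q.lev q.J.card else 0) ≤
        (1 + bet r) * (con q (glue n z' w) -
          (if Early m n q ∧ q.tm ≤ s ∧ z' ∈ q.Q then price q.lev q.J.card else 0)) := by
      intro q hq
      by_cases h1 : Early m n q ∧ q.tm ≤ s ∧ z' ∈ q.Q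
      · have h2 : glue n z' w ∈ q.Q :=
          ((hP q hq).1.iff (agr_mono (h1.2.1.trans hsn) (agr_glue n z' w))).1 h1.2.2
        rw [if_neg (fun h => ((hcond q).1 h.1).1 h1.1), if_pos h1]
        unfold con
        rw [if_pos h2]
        simp
      · rw [if_neg h1, sub_zero]
        by_cases h2 : cond q ∧
          glue n z' w ∈ q.Q ∧ w ∈ R q
        · rw [if_pos h2]
          unfold con bet
          rw [if_pos h2.2.1]
          norm_num
        · rw [if_neg h2]
          exact mul_nonneg hbet (con_nonneg _ _)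
    refine (GD2_.sum_bound P _ _ _ _ hterm).trans ?_
    apply mul_le_mul_of_nonneg_left _ hbet
    have h3 : (P.map fun q => con q (glue n z' w)).sum < c := hc (glue n z' w)
    have h4 : lam < (P.map fun q => if Early m n q ∧ q.tm ≤ s ∧ z' ∈ q.Q then
        price q.lev q.J.card else 0).sum := hlam
    linarith
  · intro w hw
    by_contra hcov
    obtain ⟨q, hq, hgQ, hgX⟩ := hw
    obtain ⟨g1, g2, -, -⟩ := hGCT L T p r m n s P q (glue n z' w) hP hc' hq hgQ hms hsn
    have hne : ¬ Early m n q := by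
      intro he
      have hz : z' ∈ q.Q :=
        ((hP q hq).1.iff (agr_mono (g2 he).le (agr_glue n z' w))).2 hgQ
      exact hE q hq he hz ⟨w, hgX⟩
    exact hW3 w hcov q hq ((hcond q).2 ⟨hne, g1 hne, ⟨_, hgQ⟩⟩) hgQ
      (by rw [hR q]; exact Set.mem_univ _) (subset_hull _ _ hgX)

end SNB
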