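import Pool.Agent.SNB.Targets1

/-! # MP_3e8648_lc, SNB-GD3 (helper85) -/

set_option autoImplicit false

namespace SNB

open Classical

private theorem GD3_sum_le {α : Type} (l : List α) (f g : α → ℝ) (h : ∀ x ∈ l, f x ≤ g x) :
    (l.map f).sum ≤ (l.map g).sum := List.sum_le_sum h

theorem p_GD3 (hD : T_DPL) (hG : T_GCT) : T_GD3 := by
  intro L _ T p r m n s P z1 c hP hcost hc hms hsn hF
  obtain ⟨W, hW, hWc, hWcov⟩ := hD L T p (r + 1) (r + 1) 7 m s z1 P
    (fun q => q.Q.Nonempty ∧ tq 7 q.J.card ≤ cnt q.J s ⊤) (fun _ => ⊤) (fun _ => Set.univ) hP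
    (fun q hq h => by
      obtain ⟨⟨z, hz⟩, h2⟩ := h
      exact ⟨((hP q hq).2 z hz).1.1, h2⟩)
    (fun q _ => dLt_univ _)
  refine ⟨W, hW, fun y => ?_, fun y hy => ?_⟩
  · have hb : (0 : ℝ) ≤ bet r := by unfold bet; positivity
    refine (hWc y).trans ((GD3_sum_le P _ (fun q => (1 + bet r) * con q (glue s z1 y)) ?_).trans ?_)
    · intro q _
      have he : (1 + ((7 : ℕ) : ℝ) / (parA (r + 1) : ℝ)) = 1 + bet r := by
        unfold bet
        norm_num
      rw [he]
      by_cases hq : glue s z1 y ∈ q.Q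
      · unfold con
        rw [if_pos hq]
        split_ifs
        · exact le_rfl
        · exact mul_nonneg (by linarith) (price_nonneg _ _)
      · unfold con
        rw [if_neg hq, if_neg (fun h => hq h.2.1)]
        simp
    · rw [List.sum_map_mul_left]
      have h2 : (P.map fun q => con q (glue s z1 y)).sum = cost P (glue s z1 y) := rfl
      rw [h2]
      exact mul_le_mul_of_nonneg_left (hcost _).le (by linarith)
  · by_contra hyW
    obtain ⟨q, hq, hqQ, hqX⟩ := hy
    by_cases hcd : tq 7 q.J.card ≤ cnt q.J s ⊤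
    · exact hWcov y hyW q hq ⟨⟨_, hqQ⟩, hcd⟩ hqQ (Set.mem_univ _) (subset_hull ⊤ q.X hqX)
    · obtain ⟨-, -, -, h4⟩ := hG L T p r m n s P q (glue s z1 y) hP
        (fun z => (hcost z).trans_le hc) hq hqQ hms hsn
      obtain ⟨h5, h6⟩ := h4 (not_le.1 hcd)
      have hE : Early m n q := h6.trans (cnt_mono le_rfl hsn)
      have hz1 : z1 ∈ q.Q :=
        ((hP q hq).1.iff (agr_mono h5.le (agr_glue s z1 y))).2 hqQ
      obtain ⟨e, hen, he1, he2, he3⟩ := hF q hq hE hz1 h5
      have hes : e ≤ s := by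
        by_contra hlt
        have h7 := he1 s (not_le.1 hlt)
        have := tq_pos 7 q.J.card
        omega
      exact esc_of_hull hes he3 y hqX

end SNB
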