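import Pool.Agent.SNB.Targets1

/-!
# SNB-GF: finite form of the density lemma (helper37)
-/

set_option autoImplicit false

namespace SNB

open Classical

theorem p_GF (hGP1 : T_GP1) (hGC1 : T_GC1) (hGC2 : T_GC2) (hGCT : T_GCT) (hLB : T_LB)
    (hPHP : T_PHP) : T_GF := by
  intro L _ T _ p r m n P A A' b δ hP hδ hδ' hb hb' hcost hmn hDA hAA' hA'P hphi
  have hbet : 0 ≤ bet r := by unfold bet; positivity
  have hlam : 0 ≤ 4 * δ + 5 * bet r := by positivity
  obtain ⟨P1, hP1, hc1, hF1⟩ := hGP1 L T p r m n P (4 * δ + 5 * bet r) hP hlam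
  have hLBH : LBH T p (r + 1) := hLB L T p (r + 1)
  refine (hPHP L T p (r + 1) m A ((1 + bet r) * (4 * δ + 5 * bet r))).1 P1 (by positivity)
    hP1 hc1 ?_
  intro z1 hz1A
  by_contra hz1
  by_cases hcase : ∃ q ∈ P, Early m n q ∧ z1 ∈ q.Q ∧ 4 * δ + 5 * bet r < Cum P m n q.tm z1
  · -- the least time
    have hne : (P.toFinset.filter fun q => Early m n q ∧ z1 ∈ q.Q ∧
        4 * δ + 5 * bet r < Cum P m n q.tm z1).Nonempty := by
      obtain ⟨q, hq, h⟩ := hcase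
      exact ⟨q, Finset.mem_filter.2 ⟨List.mem_toFinset.2 hq, h⟩⟩
    obtain ⟨q0, hq0, hmin⟩ := Finset.exists_min_image _ (fun q : Pur T => q.tm) hne
    rw [Finset.mem_filter, List.mem_toFinset] at hq0
    obtain ⟨hq0P, hq0E, hq0Q, hq0C⟩ := hq0
    have hms : m ≤ q0.tm := ((hP q0 hq0P).2 z1 hq0Q).2.1
    have hc16 : ∀ z, cost P z < 16 := fun z => by
      have := hcost z
      linarith
    have hsn : q0.tm < n :=
      (hGCT L T p r m n m P q0 z1 hP hc16 hq0P hq0Q le_rfl hmn).2.1 hq0E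
    refine hGC2 L T p r m n q0.tm P A A' z1 b δ hP hLBH hδ hδ' hb hb' hcost hms hsn.le hAA'
      hA'P hphi ?_ hq0C
    intro q hq hqE hqQ hqt
    refine hF1 z1 hz1 q hq hqE hqQ ?_
    by_contra hC
    have h1 := hmin q (Finset.mem_filter.2 ⟨List.mem_toFinset.2 hq, hqE, hqQ, not_le.1 hC⟩)
    exact absurd hqt (not_lt.2 h1)
  · have hc4 : ∀ z, cost P z < 4 := fun z => by
      have := hcost z
      linarith
    obtain ⟨y, hy⟩ := hGC1 L T p r m n P z1 hP hLBH hc4 hmn (by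
      intro q hq hqE hqQ
      refine hF1 z1 hz1 q hq hqE hqQ ?_
      by_contra hC
      exact hcase ⟨q, hq, hqE, hqQ, not_le.1 hC⟩)
    exact hy (hA'P (hAA' ((hDA.iff (agr_glue n z1 y)).1 hz1A)))

end SNB
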