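import Pool.Agent.SNB.Targets1

/-!
# SNB: simple properties of `phi` (target `T_PHB`)
-/

set_option autoImplicit false

namespace SNB

open Classical

namespace PHB_

section

variable {L : Type} [LinearOrder L] {T : L → Type}

/-- the set whose infimum is `phi` -/
def PS (p k : ℕ) (m : WithTop L) (Y : Set (∀ l, T l)) : Set ℝ :=
  {s | 0 ≤ s ∧ ∃ P : List (Pur T), Plan m k p P ∧ (∀ z, cost P z ≤ s) ∧ Y ⊆ cov P} ∪ {16}

theorem phi_def (p k : ℕ) (m : WithTop L) (Y : Set (∀ l, T l)) :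
    phi p k m Y = sInf (PS p k m Y) := rfl

theorem nonneg_of_mem {p k : ℕ} {m : WithTop L} {Y : Set (∀ l, T l)} {s : ℝ}
    (h : s ∈ PS p k m Y) : 0 ≤ s := by
  rcases h with h | h
  · exact h.1
  · rw [Set.mem_singleton_iff] at h
    rw [h]
    norm_num

theorem bdd (p k : ℕ) (m : WithTop L) (Y : Set (∀ l, T l)) : BddBelow (PS p k m Y) :=
  ⟨0, fun _ h => nonneg_of_mem h⟩

theorem mem16 (p k : ℕ) (m : WithTop L) (Y : Set (∀ l, T l)) : (16 : ℝ) ∈ PS p k m Y :=
  Or.inr rfl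

theorem ne (p k : ℕ) (m : WithTop L) (Y : Set (∀ l, T l)) : (PS p k m Y).Nonempty :=
  ⟨16, mem16 p k m Y⟩

theorem phi_nonneg (p k : ℕ) (m : WithTop L) (Y : Set (∀ l, T l)) : 0 ≤ phi p k m Y := by
  rw [phi_def]
  exact le_csInf (ne p k m Y) fun s hs => nonneg_of_mem hs

theorem phi_le (p k : ℕ) (m : WithTop L) (Y : Set (∀ l, T l)) : phi p k m Y ≤ 16 := by
  rw [phi_def]
  exact csInf_le (bdd p k m Y) (mem16 p k m Y)

theorem phi_le_of_mem {p k : ℕ} {m : WithTop L} {Y : Set (∀ l, T l)} {s : ℝ}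
    (h : s ∈ PS p k m Y) : phi p k m Y ≤ s := by
  rw [phi_def]
  exact csInf_le (bdd p k m Y) h

theorem add_mem {p k : ℕ} {m : WithTop L} {Y Y' : Set (∀ l, T l)} {s s' : ℝ}
    (h : s ∈ PS p k m Y) (h' : s' ∈ PS p k m Y') : phi p k m (Y ∪ Y') ≤ s + s' := by
  have h0 := nonneg_of_mem h
  have h0' := nonneg_of_mem h'
  rcases h with h | h
  · rcases h' with h' | h'
    · obtain ⟨-, P, hP, hc, hY⟩ := h
      obtain ⟨-, P', hP', hc', hY'⟩ := h'
      apply phi_le_of_mem
      refine Or.inl ⟨add_nonneg h0 h0', P ++ P', hP.append hP', fun z => ?_, ?_⟩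
      · rw [cost_append]
        exact add_le_add (hc z) (hc' z)
      · rw [cov_append]
        exact Set.union_subset_union hY hY'
    · rw [Set.mem_singleton_iff] at h'
      have := phi_le p k m (Y ∪ Y')
      linarith
  · rw [Set.mem_singleton_iff] at h
    have := phi_le p k m (Y ∪ Y')
    linarith

end

end PHB_

theorem p_PHB : T_PHB := by
  intro L _ T p k m
  refine ⟨fun Y => ⟨PHB_.phi_nonneg p k m Y, PHB_.phi_le p k m Y⟩, ?_, ?_, ?_⟩
  · refine le_antisymm ?_ (PHB_.phi_nonneg p k m _)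
    apply PHB_.phi_le_of_mem
    refine Or.inl ⟨le_rfl, [], ?_, ?_, Set.empty_subset _⟩
    · intro q hq
      exact absurd hq (List.not_mem_nil)
    · intro z
      rw [cost_nil]
  · intro Y Y' h
    rw [PHB_.phi_def, PHB_.phi_def]
    refine csInf_le_csInf (PHB_.bdd p k m Y) (PHB_.ne p k m Y') ?_
    rintro s (⟨h0, P, hP, hc, hY⟩ | hs)
    · exact Or.inl ⟨h0, P, hP, hc, h.trans hY⟩
    · exact Or.inr hs
  · intro Y Y'
    have h1 : ∀ s ∈ PHB_.PS p k m Y, phi p k m (Y ∪ Y') - s ≤ phi p k m Y' := by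
      intro s hs
      rw [PHB_.phi_def p k m Y']
      refine le_csInf (PHB_.ne p k m Y') fun s' hs' => ?_
      have := PHB_.add_mem hs hs'
      linarith
    have h2 : phi p k m (Y ∪ Y') - phi p k m Y' ≤ phi p k m Y := by
      rw [PHB_.phi_def p k m Y]
      refine le_csInf (PHB_.ne p k m Y) fun s hs => ?_
      have := h1 s hs
      linarith
    linarith

end SNB
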