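import Pool.Agent.SNB.Targets1

/-!
# MP_3e8648_lc, case x = b: target PHP (`phi` and plans)
-/

set_option autoImplicit false

namespace SNB

open Classical

namespace PHP_

variable {L : Type} [LinearOrder L] {T : L → Type}

theorem nonneg (p k : ℕ) (m : WithTop L) (Y : Set (∀ l, T l)) :
    ∀ a ∈ ({s | 0 ≤ s ∧ ∃ P : List (Pur T), Plan m k p P ∧ (∀ z, cost P z ≤ s) ∧ Y ⊆ cov P} ∪
      {16} : Set ℝ), 0 ≤ a := by
  rintro a (h | h)
  · exact h.1
  · rw [Set.mem_singleton_iff.1 h]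
    norm_num

end PHP_

/-- `phi` and plans. -/
theorem p_PHP : T_PHP := by
  intro L _ T p k m Y s
  constructor
  · intro P hs hP hc hY
    exact csInf_le ⟨0, PHP_.nonneg p k m Y⟩ (Or.inl ⟨hs, P, hP, hc, hY⟩)
  · intro h hs
    unfold phi at h
    obtain ⟨a, ha, has⟩ := exists_lt_of_csInf_lt ⟨(16 : ℝ), Or.inr (Set.mem_singleton _)⟩ h
    rcases ha with ha | ha
    · obtain ⟨h0, P, h1, h2, h3⟩ := ha
      exact ⟨P, a, h0, has, h1, h2, h3⟩
    · rw [Set.mem_singleton_iff.1 ha] at has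
      exact absurd hs (not_le.2 has)

end SNB
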