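import Pool.Agent.SNB.Targets2
import Pool.Agent.SNB.P_PHP
import Pool.Agent.SNB.P_PHB
import Pool.Agent.SNB.P_FIN

/-!
# SNB: one step of the density lemma (G)
-/

set_option autoImplicit false
set_option linter.unusedSectionVars false

namespace SNB

open Classical Filter Topology

namespace GM_

theorem nu_mono (hNUT : T_NUT) {L : Type} [LinearOrder L] {T : L → Type} (k : ℕ)
    (m : WithTop L) {Y Y' : Set (∀ l, T l)} (h : Y ⊆ Y') : nu k m Y ≤ nu k m Y' :=
  le_of_tendsto_of_tendsto' (hNUT L T k m Y) (hNUT L T k m Y')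
    fun p => (p_PHB L T p k m).2.2.1 Y Y' h

/-- some stage is good for all points outside of `A s1` -/
theorem exists_stage (hNUT : T_NUT) (hCPT : T_CPT) {L : Type} [LinearOrder L] {T : L → Type}
    [∀ l, Finite (T l)] (k : ℕ) (ν : WithTop L) (A : ℕ → Set (∀ l, T l)) (B : Set (∀ l, T l))
    (c : ℝ) (s1 : ℕ) (hA : Monotone A) (hcl : ∀ t, Cl Set.univ (A t)) (hB : Cl Set.univ B)
    (h : ∀ z, z ∉ B → ∃ t, c < nu k ν (fib ν z (A t))) :
    ∃ t, s1 ≤ t ∧ ∀ z, z ∉ B → c < nu k ν (fib ν z (A t)) := by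
  by_contra hne
  push Not at hne
  let X : ℕ → Set (∀ l, T l) := fun t =>
    ({z | c < nu k ν (fib ν z (A (s1 + t)))} ∪ B)ᶜ
  have h1 : ∀ t, Cl Set.univ (X t) := fun t =>
    ((((hcl (s1 + t)).pred ν fun D => c < nu k ν D).mono (Set.subset_univ _)).union hB).compl
  have h2 : ∀ t, X (t + 1) ⊆ X t := by
    intro t
    refine Set.compl_subset_compl.2 (Set.union_subset_union_left _ ?_)
    intro z hz
    exact lt_of_lt_of_le hz (nu_mono hNUT k ν (fib_mono ν z (hA (by omega))))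
  have h3 : ∀ t, (X t).Nonempty := by
    intro t
    obtain ⟨z, hz, hz'⟩ := hne (s1 + t) (Nat.le_add_right _ _)
    refine ⟨z, ?_⟩
    rintro (h4 | h4)
    · exact absurd h4 (not_lt.2 hz')
    · exact hz h4
  obtain ⟨z, hz⟩ := hCPT L T X h1 h2 h3
  have hzB : z ∉ B := fun h4 => hz 0 (Or.inr h4)
  obtain ⟨t, ht⟩ := h z hzB
  refine hz t (Or.inl ?_)
  exact lt_of_lt_of_le ht (nu_mono hNUT k ν (fib_mono ν z (hA (by omega))))

end GM_

/-- `T_GM` -/
theorem p_GM (hGF : T_GF) (hNUT : T_NUT) (hCPT : T_CPT) : T_GM := by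
  intro L _ T _ _ r m n A b δ s0 z0 hn hA hcl hm hδ hδ' hb hb' hlow hup s1 hs
  have hclu : ∀ t, Cl Set.univ (A t) := fun t => (hcl t).toUniv
  obtain ⟨t', ht', hO⟩ := GM_.exists_stage hNUT hCPT (r + 1) (n s1) A (A s1) (b - δ) s1 hA hclu
    (hclu s1) fun z hz => hlow s1 z hz (b - δ) (by linarith)
  -- the fibres at the time `n s1`
  have hev1 : ∀ᶠ p in (hyperfilter ℕ : Filter ℕ), ∀ z, z ∉ A s1 →
      b - 2 * δ < phi p (r + 1) (n s1) (fib (n s1) z (A t')) := by
    have hfin := p_FIN L T (n s1) (A t') (hclu t')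
    have h1 : ∀ᶠ p in (hyperfilter ℕ : Filter ℕ), ∀ D ∈ Set.range fun z => fib (n s1) z (A t'),
        b - δ < nu (r + 1) (n s1) D → b - 2 * δ < phi p (r + 1) (n s1) D := by
      rw [Filter.eventually_all_finite hfin]
      intro D _
      by_cases hD : b - δ < nu (r + 1) (n s1) D
      · have h2 := (hNUT L T (r + 1) (n s1) D).eventually
          (lt_mem_nhds (show b - 2 * δ < nu (r + 1) (n s1) D by linarith))
        exact h2.mono fun p hp _ => hp
      · exact Filter.Eventually.of_forall fun p hp => absurd hp hD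
    refine h1.mono fun p hp z hz => ?_
    exact hp _ ⟨z, rfl⟩ (hO z hz)
  have hev2 : ∀ᶠ p in (hyperfilter ℕ : Filter ℕ),
      phi p (r + 1) (n s0) (fib (n s0) z0 (A t')) < b + 2 * δ :=
    (hNUT L T (r + 1) (n s0) (fib (n s0) z0 (A t'))).eventually
      (gt_mem_nhds (lt_of_le_of_lt (hup t') (by linarith)))
  have key : ∀ᶠ p in (hyperfilter ℕ : Filter ℕ),
      phi p (r + 1) (n s0) (fib (n s0) z0 (A s1)) ≤ (1 + bet r) * (4 * δ + 5 * bet r) := by
    refine (hev1.and hev2).mono ?_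
    rintro p ⟨h1, h2⟩
    obtain ⟨P, s', hs0, hs', hP, hc, hcov⟩ :=
      (p_PHP L T p (r + 1) (n s0) (fib (n s0) z0 (A t')) (b + 2 * δ)).2 h2 (by linarith)
    have hn01 : n s0 ≤ n s1 := hn hs
    refine hGF L T p r (n s0) (n s1) P (fib (n s0) z0 (A s1)) (fib (n s0) z0 (A t')) b δ hP hδ hδ'
      hb hb' (fun z => (hc z).trans_lt hs') hn01 ?_ (fib_mono _ _ (hA ht')) hcov ?_
    · refine (((hcl s1).dp).fib (n s0) z0).mono ?_
      rintro l ⟨hl, -⟩
      exact hl.2
    · intro z hz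
      rw [fib_fib hn01]
      exact h1 _ hz
  have hlim := le_of_tendsto (hNUT L T (r + 1) (n s0) (fib (n s0) z0 (A s1))) key
  refine hlim.trans ?_
  have hbet : 0 ≤ bet r := by
    unfold bet
    positivity
  nlinarith [mul_nonneg hbet hδ.le]

end SNB
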