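import Pool.Agent.SNB.Targets1

/-!
# MP_3e8648_lc, project SNB, target GP1: the plan `P_1` (helper33)
-/

set_option autoImplicit false

namespace SNB

open Classical

namespace GP1_

variable {L : Type} [LinearOrder L] {T : L → Type}

/-- the end of the first `t` gates -/
def Pe (m n : WithTop L) (q : Pur T) (e : WithTop L) : Prop :=
  e ≤ n ∧ cnt q.J m e = tq 7 q.J.card ∧ ∀ x < e, cnt q.J m x < tq 7 q.J.card

theorem gts {m : WithTop L} {k p : ℕ} {q : Pur T} (h : OK m k p q) {z : ∀ l, T l}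
    (hz : z ∈ q.Q) : Gts q.J := by
  obtain ⟨-, h2⟩ := h
  obtain ⟨-, -, -, h3, h4, -⟩ := h2 z hz
  exact ⟨fun g hg => (h3 g hg).2, h4⟩

theorem dLt_R {m : WithTop L} {k p : ℕ} {P : List (Pur T)} (hP : Plan m k p P)
    (n t : WithTop L) (lam : ℝ) : DLt t {z : ∀ l, T l | Cum P m n t z ≤ lam} := by
  intro z y h
  have h' : agr t z y := fun l hl => h l hl
  have e : Cum P m n t z = Cum P m n t y := by
    unfold Cum
    congr 1
    refine List.map_congr_left fun q hq => ?_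
    have hd : DLt q.tm q.Q := (hP q hq).1
    by_cases h1 : Early m n q ∧ q.tm ≤ t
    · have h2 : z ∈ q.Q ↔ y ∈ q.Q := hd.iff (agr_mono h1.2 h')
      simp only [h1.1, h1.2, true_and, h2]
    · rw [if_neg (fun h3 => h1 ⟨h3.1, h3.2.1⟩), if_neg (fun h3 => h1 ⟨h3.1, h3.2.1⟩)]
  simp only [Set.mem_setOf_eq]
  rw [e]

theorem sum_le {P : List (Pur T)} {m n : WithTop L} {lam c : ℝ} (hlam : 0 ≤ lam) (hc : 0 ≤ c)
    (cond : Pur T → Prop) (hcond : ∀ q, cond q → Early m n q) (y : ∀ l, T l) :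
    (P.map fun q => if cond q ∧ y ∈ q.Q ∧ Cum P m n q.tm y ≤ lam then
      c * price q.lev q.J.card else 0).sum ≤ c * lam := by
  by_cases hex : ∃ q ∈ P, cond q ∧ y ∈ q.Q ∧ Cum P m n q.tm y ≤ lam
  · obtain ⟨q0, hq0, hmax⟩ : ∃ q0 ∈ P, (cond q0 ∧ y ∈ q0.Q ∧ Cum P m n q0.tm y ≤ lam) ∧
        ∀ q ∈ P, (cond q ∧ y ∈ q.Q ∧ Cum P m n q.tm y ≤ lam) → q.tm ≤ q0.tm := by
      let F : List (Pur T) := P.filter fun q => cond q ∧ y ∈ q.Q ∧ Cum P m n q.tm y ≤ lam
      have hF : ∀ q, q ∈ F ↔ q ∈ P ∧ (cond q ∧ y ∈ q.Q ∧ Cum P m n q.tm y ≤ lam) := by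
        intro q
        simp [F, List.mem_filter]
      obtain ⟨q, hq, hq2⟩ := hex
      have hne : F.toFinset.Nonempty := ⟨q, List.mem_toFinset.2 ((hF q).2 ⟨hq, hq2⟩)⟩
      obtain ⟨q0, h0, h1⟩ := F.toFinset.exists_max_image (fun q => q.tm) hne
      have h0' := (hF q0).1 (List.mem_toFinset.1 h0)
      refine ⟨q0, h0'.1, h0'.2, fun q hq hq2 => ?_⟩
      exact h1 q (List.mem_toFinset.2 ((hF q).2 ⟨hq, hq2⟩))
    have h1 : (P.map fun q => if cond q ∧ y ∈ q.Q ∧ Cum P m n q.tm y ≤ lam then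
        c * price q.lev q.J.card else 0).sum ≤ (P.map fun q =>
        c * (if Early m n q ∧ q.tm ≤ q0.tm ∧ y ∈ q.Q then price q.lev q.J.card else 0)).sum := by
      apply List.sum_le_sum
      intro q hq
      by_cases h2 : cond q ∧ y ∈ q.Q ∧ Cum P m n q.tm y ≤ lam
      · rw [if_pos h2, if_pos ⟨hcond q h2.1, hmax.2 q hq h2, h2.2.1⟩]
      · rw [if_neg h2]
        apply mul_nonneg hc
        split_ifs
        · exact price_nonneg _ _
        · exact le_rfl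
    rw [List.sum_map_mul_left] at h1
    refine h1.trans (mul_le_mul_of_nonneg_left ?_ hc)
    exact hmax.1.2.2
  · have h1 : (P.map fun q => if cond q ∧ y ∈ q.Q ∧ Cum P m n q.tm y ≤ lam then
        c * price q.lev q.J.card else 0).sum = 0 := by
      apply List.sum_eq_zero
      intro x hx
      obtain ⟨q, hq, rfl⟩ := List.mem_map.1 hx
      rw [if_neg fun h2 => hex ⟨q, hq, h2⟩]
    rw [h1]
    positivity

end GP1_

theorem p_GP1 (h_DPN : T_DPN) (h_EE : T_EE) : T_GP1 := by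
  intro L _ T p r m n P lam hP hlam
  have hex : ∀ q : Pur T, ∃ e : WithTop L, (∃ e, GP1_.Pe m n q e) → GP1_.Pe m n q e := by
    intro q
    by_cases h : ∃ e, GP1_.Pe m n q e
    · obtain ⟨e, he⟩ := h
      exact ⟨e, fun _ => he⟩
    · exact ⟨n, fun h' => absurd h' h⟩
  choose en hen using hex
  have hbet : 0 ≤ bet r := by
    unfold bet
    positivity
  obtain ⟨W, hW1, hW2, hW3⟩ := h_DPN L T p (r + 1) 7 m P
    (fun q => Early m n q ∧ ∃ e, GP1_.Pe m n q e) en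
    (fun q => {z | Cum P m n q.tm z ≤ lam}) hP
    (fun q _ hq => (hen q hq.2).2.1.ge) (fun q _ => GP1_.dLt_R hP n q.tm lam)
  refine ⟨W, hW1, fun z => ?_, fun z hz q hq hE hzq hC => ?_⟩
  · refine (hW2 z).trans ?_
    have e : (1 + ((7 : ℕ) : ℝ) / (parA (r + 1) : ℝ)) = 1 + bet r := by
      unfold bet
      norm_num
    rw [e]
    exact GP1_.sum_le hlam (by linarith) (fun q => Early m n q ∧ ∃ e, GP1_.Pe m n q e)
      (fun q hq => hq.1) z
  · have hG := GP1_.gts (hP q hq) hzq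
    have h3 : tq 7 q.J.card ≤ cnt q.J m n := by
      unfold Early at hE
      omega
    obtain ⟨e, -, h4, h5, h6⟩ := h_EE L q.J m n (tq 7 q.J.card) hG (tq_pos _ _) h3
    have hPe : ∃ e, GP1_.Pe m n q e := ⟨e, h4, h5, h6⟩
    have h7 := hen q hPe
    exact ⟨en q, h7.1, h7.2.2, h7.2.1.ge, hW3 z hz q hq ⟨hE, hPe⟩ hzq hC⟩

end SNB
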