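import Pool.Agent.SNB.Targets2

/-!
# MP_3e8648_lc, case x = b: target HIT (hitting property of `nu`)
-/

set_option autoImplicit false

namespace SNB

open Classical Filter Topology

namespace HIT_

/-- the least time above `i` -/
noncomputable def nxt {L : Type} [LinearOrder L] [WellFoundedLT L] (i : L) : WithTop L :=
  (wellFounded_lt : WellFounded ((· < ·) : WithTop L → WithTop L → Prop)).min
    {x | (i : WithTop L) < x} ⟨⊤, WithTop.coe_lt_top i⟩

theorem lt_nxt {L : Type} [LinearOrder L] [WellFoundedLT L] (i : L) :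
    (i : WithTop L) < nxt i :=
  (wellFounded_lt : WellFounded ((· < ·) : WithTop L → WithTop L → Prop)).min_mem
    {x | (i : WithTop L) < x} ⟨⊤, WithTop.coe_lt_top i⟩

theorem nxt_le {L : Type} [LinearOrder L] [WellFoundedLT L] {i : L} {x : WithTop L}
    (h : (i : WithTop L) < x) : nxt i ≤ x :=
  not_lt.1 ((wellFounded_lt : WellFounded ((· < ·) : WithTop L → WithTop L → Prop)).not_lt_min
    {x | (i : WithTop L) < x} h)

theorem single_nxt {L : Type} [LinearOrder L] [WellFoundedLT L] (i : L) :
    Single (i : WithTop L) (nxt i) := by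
  refine ⟨i, rfl, lt_nxt i, fun x h1 h2 => ?_⟩
  by_contra hne
  have h3 : (i : WithTop L) < (x : WithTop L) :=
    lt_of_le_of_ne h1 fun h => hne (WithTop.coe_injective h).symm
  exact absurd (nxt_le h3) (not_le.2 h2)

end HIT_

/-- Hitting. -/
theorem p_HIT (hPU : T_PU) (hNUT : T_NUT) : T_HIT := by
  intro L _ _ T _ k m I τ hI hm hτ
  set X : Set (∀ l, T l) := {z | ∀ i ∈ I, z i ≠ τ i z} with hX
  have hinj : Function.Injective fun i : L => ((i : WithTop L), HIT_.nxt i) := by
    intro i j h
    exact WithTop.coe_injective (Prod.ext_iff.1 h).1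
  have key : ∀ p, k ≤ p → phi p k m X ≤ (1 / 2) ^ k := by
    intro p hp
    apply hPU L T p k m (I.image fun i : L => ((i : WithTop L), HIT_.nxt i)) X hp
    · constructor
      · intro g hg
        obtain ⟨i, _, rfl⟩ := Finset.mem_image.1 hg
        exact HIT_.lt_nxt i
      · intro g hg h hh hne
        obtain ⟨i, _, rfl⟩ := Finset.mem_image.1 hg
        obtain ⟨j, _, rfl⟩ := Finset.mem_image.1 hh
        have hij : i ≠ j := fun h => hne (by rw [h])
        rcases lt_or_gt_of_ne hij with h1 | h1
        · exact Or.inl (HIT_.nxt_le (WithTop.coe_lt_coe.2 h1))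
        · exact Or.inr (HIT_.nxt_le (WithTop.coe_lt_coe.2 h1))
    · intro g hg
      obtain ⟨i, hi, rfl⟩ := Finset.mem_image.1 hg
      exact hm i hi
    · rw [Finset.card_image_of_injective _ hinj]
      exact hI
    · intro g hg z
      obtain ⟨i, hi, rfl⟩ := Finset.mem_image.1 hg
      refine Or.inl ⟨HIT_.single_nxt i, Function.update z i (τ i z), ?_⟩
      intro w hw
      set x := glue (HIT_.nxt i) (glue (i : WithTop L) z (Function.update z i (τ i z))) w with hx
      have e1 : x i = τ i z := by
        rw [hx, glue_lt (HIT_.lt_nxt i), glue_ge le_rfl]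
        simp
      have e2 : τ i z = τ i x := by
        apply hτ i hi
        intro l hl
        rw [hx, glue_lt (hl.trans (HIT_.lt_nxt i)), glue_lt hl]
      exact hw i hi (e1.trans e2)
  refine le_of_tendsto (hNUT L T k m X) ?_
  exact Nat.hyperfilter_le_atTop ((eventually_ge_atTop k).mono key)

end SNB
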