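import Pool.Agent.SNB.Targets2

/-!
# Choice of the blocks (SNB-KEB)
-/

set_option autoImplicit false

namespace SNB

open Classical Filter Topology

theorem p_KEB (hSTB : T_STB) : T_KEB := by
  intro L _ T _ _ r m b E ε hb _ hE hex a δ hδ
  refine hSTB L T (nu (r + 1) m) (Iv m (b a)) (hex a)
    (fun i => {z | ε < nu (r + 1) (b a) (fib (b a) z (E i))}) ?_ a δ hδ
  intro i
  have h1 : Cl (Iv m (b (i + 1))) (E i) := hE (i + 1) i (Nat.lt_succ_self i)
  have h2 := h1.pred (b a) (fun Y => ε < nu (r + 1) (b a) Y)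
  refine h2.mono ?_
  rintro l ⟨hl, hl'⟩
  exact ⟨hl.1, hl'⟩

end SNB
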