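import Pool.Agent.SNB.Targets2

/-!
# SNB-KEY: (EX), the key lemma
-/

set_option autoImplicit false

namespace SNB

open Classical Filter Topology

section KEY

variable {L : Type} [LinearOrder L] {T : L → Type}

/-- the starts of the blocks -/
def KEY_ia (nx : ℕ → ℕ → ℕ) : ℕ → ℕ
  | 0 => 0
  | s + 1 => nx (KEY_ia nx s) s

/-- unions of blocks -/
def KEY_U (E : ℕ → Set (∀ l, T l)) (ia : ℕ → ℕ) : ℕ → Set (∀ l, T l)
  | 0 => ∅
  | s + 1 => ⋃ i ∈ Finset.Ico (ia s) (ia (s + 1)), E i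

/-- the points where the next block is small -/
def KEY_D (r : ℕ) (b : ℕ → WithTop L) (E : ℕ → Set (∀ l, T l)) (ia : ℕ → ℕ) (s : ℕ) :
    Set (∀ l, T l) :=
  {z | nu (r + 1) (b (ia s)) (fib (b (ia s)) z (KEY_U E ia (s + 1))) ≤ eps r}

/-- the union of the first sets -/
def KEY_A (r : ℕ) (b : ℕ → WithTop L) (E : ℕ → Set (∀ l, T l)) (ia : ℕ → ℕ) (t : ℕ) :
    Set (∀ l, T l) := ⋃ s ∈ Finset.range (t + 1), (KEY_D r b E ia s ∪ KEY_U E ia s)

theorem KEY_cl_U {m : WithTop L} {b : ℕ → WithTop L} {S : Set L} {E : ℕ → Set (∀ l, T l)}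
    (hE : ∀ N, ∀ i < N, Cl (S ∩ Iv m (b N)) (E i)) (ia : ℕ → ℕ) (s : ℕ) :
    Cl (S ∩ Iv m (b (ia s))) (KEY_U E ia s) := by
  cases s with
  | zero => exact cl_empty _
  | succ s =>
    refine Cl.biUnion _ fun i hi => hE _ i ?_
    exact (Finset.mem_Ico.1 hi).2

theorem KEY_cl_D {m : WithTop L} {b : ℕ → WithTop L} {S : Set L} {E : ℕ → Set (∀ l, T l)}
    (hE : ∀ N, ∀ i < N, Cl (S ∩ Iv m (b N)) (E i)) (r : ℕ) (ia : ℕ → ℕ) (s : ℕ) :
    Cl (S ∩ Iv m (b (ia s))) (KEY_D r b E ia s) := by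
  have h := (KEY_cl_U hE ia (s + 1)).pred (b (ia s))
    (fun X => nu (r + 1) (b (ia s)) X ≤ eps r)
  refine h.mono ?_
  rintro l ⟨⟨h1, h2⟩, h3⟩
  exact ⟨h1, h2.1, h3⟩

theorem KEY_cl_A {m : WithTop L} {b : ℕ → WithTop L} {S : Set L} {E : ℕ → Set (∀ l, T l)}
    (hb : Monotone b) (hE : ∀ N, ∀ i < N, Cl (S ∩ Iv m (b N)) (E i)) (r : ℕ) (ia : ℕ → ℕ)
    (hia : Monotone ia) (t : ℕ) : Cl (S ∩ Iv m (b (ia t))) (KEY_A r b E ia t) := by
  refine Cl.biUnion _ fun s hs => ?_
  have h1 : s ≤ t := Nat.lt_succ_iff.1 (Finset.mem_range.1 hs)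
  have h2 : (S ∩ Iv m (b (ia s)) : Set L) ⊆ S ∩ Iv m (b (ia t)) :=
    Set.inter_subset_inter_right _ (Iv_mono le_rfl (hb (hia h1)))
  exact ((KEY_cl_D hE r ia s).mono h2).union ((KEY_cl_U hE ia s).mono h2)

theorem KEY_sub_sum [∀ l, Nonempty (T l)] (hN : T_NUB) (k : ℕ) (m : WithTop L)
    (X : ℕ → Set (∀ l, T l)) (t : ℕ) :
    nu k m (⋃ s ∈ Finset.range t, X s) ≤ ∑ s ∈ Finset.range t, nu k m (X s) := by
  obtain ⟨_, h0, _, hadd, _, _⟩ := hN L T k m
  induction t with
  | zero => simp [h0]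
  | succ t ih =>
    rw [Finset.sum_range_succ]
    have h1 : (⋃ s ∈ Finset.range (t + 1), X s) = (⋃ s ∈ Finset.range t, X s) ∪ X t := by
      rw [Finset.range_add_one, Finset.set_biUnion_insert, Set.union_comm]
    rw [h1]
    exact (hadd _ _).trans (add_le_add ih le_rfl)

theorem KEY_geom (ε : ℝ) (t : ℕ) :
    ∑ s ∈ Finset.range t, ε / 2 ^ (s + 2) = ε / 2 * (1 - (1 / 2) ^ t) := by
  induction t with
  | zero => simp
  | succ t ih =>
    rw [Finset.sum_range_succ, ih, pow_add, one_div, inv_pow, inv_pow, pow_succ (2 : ℝ) t]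
    have : (2 : ℝ) ^ t ≠ 0 := by positivity
    field_simp
    ring

theorem KEY_eps_pos (r : ℕ) : 0 < eps r := by
  unfold eps
  positivity

end KEY

theorem p_KEY (hKEB : T_KEB) (hG : T_G) (hNF1 : T_NF1) (hN : T_NUB) (hPD : T_PD) : T_KEY := by
  intro L _ T _ _ r m b S E hb hb0 hE hdis hex
  have hε : 0 < eps r := KEY_eps_pos r
  obtain ⟨hnn, hn0, hmono, hadd, _, _⟩ := hN L T (r + 1) m
  -- the blocks
  have hk : ∀ a s : ℕ, ∃ a', a < a' ∧ ∀ j, a' ≤ j →
      nu (r + 1) m ({z | eps r < nu (r + 1) (b a) (fib (b a) z (E j))} \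
        ⋃ i ∈ Finset.Ico a a', {z | eps r < nu (r + 1) (b a) (fib (b a) z (E i))}) ≤
        eps r / 2 ^ (s + 2) := by
    intro a s
    refine hKEB L T r m b E (eps r) hb hb0 (fun N i hi => (hE N i hi).mono ?_) hex a _ ?_
    · exact Set.inter_subset_right
    · positivity
  choose nx hnx1 hnx2 using hk
  set ia := KEY_ia nx with hia
  have hia0 : ia 0 = 0 := rfl
  have hias : ∀ s, ia (s + 1) = nx (ia s) s := fun s => rfl
  have hlt : ∀ s, ia s < ia (s + 1) := fun s => by rw [hias]; exact hnx1 _ _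
  have hsm : StrictMono ia := strictMono_nat_of_lt_succ hlt
  have hnmono : Monotone fun s => b (ia s) := fun s s' h => hb (hsm.monotone h)
  have hAmono : Monotone (KEY_A r b E ia) := by
    intro t t' h z hz
    unfold KEY_A at hz ⊢
    simp only [Set.mem_iUnion] at hz ⊢
    obtain ⟨s, hs, hz⟩ := hz
    exact ⟨s, Finset.mem_range.2 (lt_of_lt_of_le (Finset.mem_range.1 hs) (Nat.succ_le_succ h)),
      hz⟩
  by_cases hcase : ∀ t, nu (r + 1) m (KEY_A r b E ia t) ≤ 3
  · exfalso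
    obtain ⟨s, z, hz, hz'⟩ := hG L T r m (fun s => b (ia s)) (KEY_A r b E ia) hnmono
      (by show b (ia 0) = m; rw [hia0, hb0]) hAmono
      (fun t => (KEY_cl_A hb hE r ia hsm.monotone t).mono Set.inter_subset_right) hcase
    obtain ⟨_, _, hmono', _, _, _⟩ := hN L T (r + 1) (b (ia s))
    have h1 : z ∉ KEY_D r b E ia s := by
      intro h
      apply hz
      unfold KEY_A
      exact Set.mem_biUnion (Finset.mem_range.2 (Nat.lt_succ_self s)) (Or.inl h)
    have h2 : eps r < nu (r + 1) (b (ia s)) (fib (b (ia s)) z (KEY_U E ia (s + 1))) :=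
      not_le.1 h1
    have h3 : KEY_U E ia (s + 1) ⊆ KEY_A r b E ia (s + 1) := by
      intro w hw
      unfold KEY_A
      exact Set.mem_biUnion (Finset.mem_range.2 (Nat.lt_succ_self (s + 1))) (Or.inr hw)
    have h4 := hmono' _ _ (fib_mono (b (ia s)) z h3)
    have h5 := hz' (s + 1)
    have h6 := (hPD r).1
    linarith
  · obtain ⟨t, ht⟩ := not_forall.1 hcase
    have ht := not_le.1 ht
    refine ⟨ia t, KEY_A r b E ia t, KEY_cl_A hb hE r ia hsm.monotone t, by linarith,
      ia (t + 1), fun i hi => ?_⟩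
    -- the bad sets
    set G : ℕ → Set (∀ l, T l) := fun s =>
      {z | eps r < nu (r + 1) (b (ia s)) (fib (b (ia s)) z (E i))} with hGdef
    have hclE : Cl Set.univ (E i) := (hE (i + 1) i (Nat.lt_succ_self i)).toUniv
    have hclG : ∀ s, DLt (b (ia s)) (G s) ∧ Cl Set.univ (G s) := by
      intro s
      have h := hclE.pred (b (ia s)) (fun X => eps r < nu (r + 1) (b (ia s)) X)
      refine ⟨h.dp.mono ?_, h.toUniv⟩
      rintro l ⟨_, hl⟩
      exact hl
    have hclD : ∀ s, DLt (b (ia s)) (KEY_D r b E ia s) ∧ Cl Set.univ (KEY_D r b E ia s) := by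
      intro s
      have h := KEY_cl_D hE r ia s
      refine ⟨h.dp.mono ?_, h.toUniv⟩
      rintro l ⟨_, hl⟩
      exact hl.2
    have hSs : ∀ s ∈ Finset.range (t + 1),
        nu (r + 1) m (KEY_D r b E ia s ∩ G s) ≤ eps r / 2 ^ (s + 2) := by
      intro s hs
      have hst : s ≤ t := Nat.lt_succ_iff.1 (Finset.mem_range.1 hs)
      have h1 : nx (ia s) s ≤ i := by
        rw [← hias]
        exact (hsm.monotone (Nat.succ_le_succ hst)).trans hi
      refine (hmono _ _ ?_).trans (hnx2 (ia s) s i h1)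
      rintro z ⟨hzD, hzG⟩
      refine ⟨hzG, ?_⟩
      intro hz
      simp only [Set.mem_iUnion] at hz
      obtain ⟨i', hi', hz⟩ := hz
      obtain ⟨_, _, hmono', _, _, _⟩ := hN L T (r + 1) (b (ia s))
      have h2 : E i' ⊆ KEY_U E ia (s + 1) := by
        intro w hw
        show w ∈ ⋃ i ∈ Finset.Ico (ia s) (ia (s + 1)), E i
        exact Set.mem_biUnion hi' hw
      have h3 := hmono' _ _ (fib_mono (b (ia s)) z h2)
      have h4 : eps r < nu (r + 1) (b (ia s)) (fib (b (ia s)) z (E i')) := hz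
      have h5 : nu (r + 1) (b (ia s)) (fib (b (ia s)) z (KEY_U E ia (s + 1))) ≤ eps r := hzD
      linarith
    set Y : Set (∀ l, T l) := (E i ∩ ⋃ s ∈ Finset.range (t + 1), KEY_D r b E ia s) \
      ⋃ s ∈ Finset.range (t + 1), (KEY_D r b E ia s ∩ G s) with hY
    have hYle : nu (r + 1) m Y ≤ eps r := by
      refine hNF1 L T (r + 1) m Y (t + 1) (fun s => b (ia s))
        (fun s => KEY_D r b E ia s \ ⋃ s' ∈ Finset.range s, KEY_D r b E ia s') (eps r)
        hε.le ?_ ?_ ?_ ?_ ?_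
      · refine (hclE.inter (Cl.biUnion _ fun s _ => (hclD s).2)).diff
          (Cl.biUnion _ fun s _ => (hclD s).2.inter (hclG s).2)
      · intro s _
        refine ⟨by rw [← hb0]; exact hb (Nat.zero_le _), ?_⟩
        refine Dp.diff (hclD s).1 ?_
        refine Dp.iUnion fun s' => Dp.iUnion fun hs' => ?_
        exact (hclD s').1.mono (hb (hsm.monotone (Finset.mem_range.1 hs').le))
      · intro s _ s' _ hne
        rw [Set.disjoint_left]
        rintro z ⟨h1, h2⟩ ⟨h3, h4⟩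
        rcases lt_or_gt_of_ne hne with h | h
        · exact h4 (Set.mem_biUnion (Finset.mem_range.2 h) h1)
        · exact h2 (Set.mem_biUnion (Finset.mem_range.2 h) h3)
      · rintro z ⟨⟨_, hz⟩, _⟩
        simp only [Set.mem_iUnion] at hz
        obtain ⟨s, hs, hz⟩ := hz
        have hex' : ∃ s, z ∈ KEY_D r b E ia s := ⟨s, hz⟩
        refine ⟨Nat.find hex', ?_, Nat.find_spec hex', ?_⟩
        · exact lt_of_le_of_lt (Nat.find_min' hex' hz) (Finset.mem_range.1 hs)
        · intro h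
          simp only [Set.mem_iUnion] at h
          obtain ⟨s', hs', h⟩ := h
          exact Nat.find_min hex' (Finset.mem_range.1 hs') h
      · intro s hs z hz
        obtain ⟨_, hn0', hmono', _, _, _⟩ := hN L T (r + 1) (b (ia s))
        by_cases hzG : z ∈ G s
        · have h1 : fib (b (ia s)) z Y = ∅ := by
            rw [Set.eq_empty_iff_forall_notMem]
            rintro y hy
            rw [mem_fib] at hy
            apply hy.2
            refine Set.mem_biUnion (Finset.mem_range.2 hs) ⟨?_, ?_⟩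
            · exact ((hclD s).1.iff (agr_glue _ z y)).1 hz.1
            · exact ((hclG s).1.iff (agr_glue _ z y)).1 hzG
          rw [h1, hn0']
          exact hε.le
        · have h1 : nu (r + 1) (b (ia s)) (fib (b (ia s)) z (E i)) ≤ eps r := not_lt.1 hzG
          refine (hmono' _ _ (fib_mono _ z ?_)).trans h1
          rintro w ⟨⟨hw, _⟩, _⟩
          exact hw
    have hcov : E i ∩ KEY_A r b E ia t ⊆
        Y ∪ ⋃ s ∈ Finset.range (t + 1), (KEY_D r b E ia s ∩ G s) := by
      rintro z ⟨hzE, hzA⟩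
      by_cases hz : z ∈ ⋃ s ∈ Finset.range (t + 1), (KEY_D r b E ia s ∩ G s)
      · exact Or.inr hz
      · refine Or.inl ⟨⟨hzE, ?_⟩, hz⟩
        unfold KEY_A at hzA
        simp only [Set.mem_iUnion] at hzA
        obtain ⟨s, hs, hzs⟩ := hzA
        rcases hzs with hzs | hzs
        · exact Set.mem_biUnion hs hzs
        · exfalso
          cases s with
          | zero => exact hzs
          | succ s =>
            have hzs' : z ∈ ⋃ i ∈ Finset.Ico (ia s) (ia (s + 1)), E i := hzs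
            simp only [Set.mem_iUnion] at hzs'
            obtain ⟨i', hi', hz'⟩ := hzs'
            have h1 : i' < ia (s + 1) := (Finset.mem_Ico.1 hi').2
            have h2 : ia (s + 1) ≤ ia (t + 1) := hsm.monotone (Finset.mem_range.1 hs).le
            have h3 : i' ≠ i := by omega
            exact Set.disjoint_left.1 (hdis i' i h3) hz' hzE
    calc nu (r + 1) m (E i ∩ KEY_A r b E ia t)
        ≤ nu (r + 1) m (Y ∪ ⋃ s ∈ Finset.range (t + 1), (KEY_D r b E ia s ∩ G s)) :=
          hmono _ _ hcov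
      _ ≤ nu (r + 1) m Y + nu (r + 1) m (⋃ s ∈ Finset.range (t + 1), (KEY_D r b E ia s ∩ G s)) :=
          hadd _ _
      _ ≤ eps r + ∑ s ∈ Finset.range (t + 1), eps r / 2 ^ (s + 2) :=
          add_le_add hYle ((KEY_sub_sum hN _ _ _ _).trans (Finset.sum_le_sum hSs))
      _ ≤ 2 * eps r := by
          rw [KEY_geom]
          have h1 : (0 : ℝ) < (1 / 2) ^ (t + 1) := by positivity
          nlinarith

end SNB
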