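import Pool.Agent.SNB.Targets1

/-! SNB-LB: the lower bound, by downward induction from one step. -/

set_option autoImplicit false

namespace SNB

open Classical

theorem p_LB (h : T_LBS) : T_LB := by
  intro L _ T _ p
  have key : ∀ d k : ℕ, p + 1 ≤ k + d → LBH T p k := by
    intro d
    induction d with
    | zero =>
      intro k hk m P hP _
      refine ⟨fun l => Classical.choice inferInstance, ?_⟩
      rw [mem_cov]
      rintro ⟨q, hq, hQ, -⟩
      have h1 := ((hP q hq).2 _ hQ).1
      omega
    | succ d ih =>
      intro k hk
      exact h L T p k (ih (k + 1) (by omega))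
  intro k
  exact key (p + 1) k (by omega)

end SNB
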