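import Pool.Agent.SNB.Targets1

/-!
# SNB-LBS: the lower bound, one step down (iteration of the rounds)
-/

set_option autoImplicit false

namespace SNB

open Classical

section

variable {L : Type} [LinearOrder L] {T : L → Type}

theorem LBS_.spent_le (P : List (Pur T)) (m : WithTop L) (z : ∀ l, T l) :
    Spent P m z ≤ cost P z := by
  unfold Spent cost
  apply List.sum_le_sum
  intro q _
  unfold con
  by_cases h : made m z q
  · rw [if_pos h, if_pos h.2]
  · rw [if_neg h]
    split_ifs
    · exact price_nonneg _ _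
    · exact le_rfl

theorem LBS_.psi_nonneg (P : List (Pur T)) (k : ℕ) (m : WithTop L) (z : ∀ l, T l)
    (h : cost P z < cc k) : 0 ≤ Psi P k m z := by
  unfold Psi
  have h1 : Spent P m z ≤ cost P z := LBS_.spent_le P m z
  have h2 : cc k ≤ 16 := by
    unfold cc
    have : (0 : ℝ) ≤ (1 / 2) ^ k := by positivity
    linarith
  have h3 : 0 ≤ (P.map fun q => if q.lev = k ∧ alive m z q then (1 : ℝ) else 0).sum := by
    apply List.sum_nonneg
    intro x hx
    obtain ⟨q, _, rfl⟩ := List.mem_map.1 hx
    split_ifs <;> norm_num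
  have h4 : (0 : ℝ) ≤ 2 ^ (k + 1) + 3 := by positivity
  have h5 : (0 : ℝ) ≤ 16 - Spent P m z := by linarith
  have := mul_nonneg h4 h5
  linarith

theorem LBS_.psi_le (P : List (Pur T)) (k : ℕ) (m : WithTop L) (z : ∀ l, T l) :
    Psi P k m z ≤ 16 * (2 ^ (k + 1) + 3) := by
  unfold Psi
  have h1 : (P.map fun q => if q.lev = k ∧ alive m z q then (1 : ℝ) else 0).sum ≤
      (P.map fun q => (2 ^ (k + 1) + 3) *
        (if made m z q then price q.lev q.J.card else 0)).sum := by
    apply List.sum_le_sum
    intro q _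
    by_cases h : q.lev = k ∧ alive m z q
    · rw [if_pos h, if_pos h.2.1]
      have h2 := le_price q.lev q.J.card
      rw [h.1] at h2 ⊢
      have h3 : (2 : ℝ) ^ k * (1 / 2) ^ k = 1 := by
        rw [← mul_pow]
        norm_num
      have h4 : (0 : ℝ) < 2 ^ k := by positivity
      have h5 : (1 : ℝ) ≤ 2 ^ k * price k q.J.card := by
        rw [← h3]
        exact mul_le_mul_of_nonneg_left h2 h4.le
      have h6 : (0 : ℝ) ≤ price k q.J.card := price_nonneg _ _
      have h7 : (2 : ℝ) ^ (k + 1) = 2 * 2 ^ k := by ring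
      rw [h7]
      nlinarith
    · rw [if_neg h]
      have h4 : (0 : ℝ) ≤ 2 ^ (k + 1) + 3 := by positivity
      apply mul_nonneg h4
      split_ifs
      · exact price_nonneg _ _
      · exact le_rfl
  rw [List.sum_map_mul_left] at h1
  have h2 : (P.map fun q => if made m z q then price q.lev q.J.card else 0).sum =
      Spent P m z := rfl
  rw [h2] at h1
  linarith

end

/-- `T_LBS` -/
theorem p_LBS (hA : T_RNA) (hB : T_RNB) : T_LBS := by
  intro L _ T _ p k hLB m P hP hcost
  have key : ∀ j i : ℕ, ∀ (m' : WithTop L) (z' : ∀ l, T l), Inv P k i m' z' →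
      Psi P k m' z' < j → i + 2 * j ≤ 2 ^ (k + 8) → ∃ z'' : ∀ l, T l, z'' ∉ cov P := by
    intro j
    induction j with
    | zero =>
      intro i m' z' _ hpsi _
      have := LBS_.psi_nonneg P k m' z' (hcost z')
      simp only [Nat.cast_zero] at hpsi
      linarith
    | succ j ih =>
      intro i m' z' hinv hpsi hij
      have hpsi' : Psi P k m' z' < (j : ℝ) + 1 := by
        have := hpsi
        push_cast at this
        exact this
      by_cases hal : ∃ q ∈ P, q.lev = k ∧ alive m' z' q
      · obtain ⟨m'', z'', -, -, hinv', hps⟩ :=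
          hB L T p k i m m' z' P hLB hP hcost hinv (by omega) hal
        exact ih (i + 2) m'' z'' hinv' (by linarith) (by omega)
      · push Not at hal
        rcases hA L T p k i m m' z' P hLB hP hcost hinv (by omega) hal with
          ⟨z'', -, h⟩ | ⟨m'', z'', -, -, hinv', hps⟩
        · exact ⟨z'', h⟩
        · exact ih (i + 2) m'' z'' hinv' (by linarith) (by omega)
  set z : ∀ l, T l := fun l => Classical.arbitrary (T l) with hz
  have hbef : ∀ q ∈ P, alive m z q → bef q.J m = 0 := by
    intro q hq hal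
    obtain ⟨-, h2⟩ := hP q hq
    obtain ⟨-, h3, -, h4, -⟩ := h2 z hal.1.2
    exact bef_zero fun g hg => h3.trans (h4 g hg).1
  refine key (16 * (2 ^ (k + 1) + 3) + 1) 0 m z ⟨?_, ?_⟩ ?_ ?_
  · intro q hq _ hal
    rw [hbef q hq hal]
    exact Nat.zero_le _
  · intro q hq _ hal
    rw [hbef q hq hal]
    exact Nat.zero_le _
  · have := LBS_.psi_le P k m z
    push_cast
    linarith
  · have h1 : 2 ^ (k + 1) = 2 * 2 ^ k := by ring
    have h2 : 2 ^ (k + 8) = 256 * 2 ^ k := by ring
    have h3 : 1 ≤ 2 ^ k := Nat.one_le_two_pow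
    rw [h1, h2]
    omega

end SNB
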