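import Pool.Agent.SNB.Targets2

/-!
# SNB: NF1, upper Fubini property of the limits `nu`
-/

set_option autoImplicit false

namespace SNB

open Classical Filter Topology

theorem p_NF1 (hNUT : T_NUT) (hF1 : T_F1) (hFIN : T_FIN) : T_NF1 := by
  intro L _ T _ _ k m Y r n R s hs hY h1 h2 h3 h4
  refine le_of_forall_pos_le_add fun ε hε => ?_
  have hev : ∀ᶠ p in (hyperfilter ℕ : Filter ℕ), ∀ i ∈ Finset.range r, ∀ z ∈ R i,
      phi p k (n i) (fib (n i) z Y) ≤ s + ε := by
    rw [Filter.eventually_all_finset]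
    intro i hi
    have hF : ((fun z : ∀ l, T l => fib (n i) z Y) '' R i).Finite :=
      (hFIN L T (n i) Y hY).subset (Set.image_subset_range _ _)
    have hD : ∀ᶠ p in (hyperfilter ℕ : Filter ℕ),
        ∀ D ∈ (fun z : ∀ l, T l => fib (n i) z Y) '' R i, phi p k (n i) D ≤ s + ε := by
      rw [Filter.eventually_all_finite hF]
      rintro D ⟨z, hz, rfl⟩
      have hlt : nu k (n i) (fib (n i) z Y) < s + ε :=
        lt_of_le_of_lt (h4 i (Finset.mem_range.1 hi) z hz) (by linarith)
      exact ((hNUT L T k (n i) (fib (n i) z Y)).eventually (gt_mem_nhds hlt)).mono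
        fun p hp => le_of_lt hp
    filter_upwards [hD] with p hp z hz
    exact hp _ ⟨z, hz, rfl⟩
  exact le_of_tendsto (hNUT L T k m Y) (hev.mono fun p hp =>
    hF1 L T p k m Y r n R (s + ε) (by linarith) hY h1 h2 h3
      (fun i hi z hz => hp i (Finset.mem_range.2 hi) z hz))

end SNB
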