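import Pool.Agent.SNB.Targets2

/-! SNB-NPU: one purchase with consecutive gates, for `nu` (helper41). -/

set_option autoImplicit false

namespace SNB

open Classical Filter Topology

namespace NPU_

theorem mono_le {L : Type} [LinearOrder L] (t : ℕ → WithTop L) (M : ℕ)
    (h : ∀ j < M, t j < t (j + 1)) {i j : ℕ} (hij : i ≤ j) (hj : j ≤ M) : t i ≤ t j := by
  induction j, hij using Nat.le_induction with
  | base => exact le_rfl
  | succ n hn ih => exact (ih (by omega)).trans (h n (by omega)).le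

theorem mono_lt {L : Type} [LinearOrder L] (t : ℕ → WithTop L) (M : ℕ)
    (h : ∀ j < M, t j < t (j + 1)) {i j : ℕ} (hij : i < j) (hj : j ≤ M) : t i < t j :=
  (h i (by omega)).trans_le (mono_le t M h hij hj)

theorem fib_sub_Esc {L : Type} [LinearOrder L] {T : L → Type} {X W : Set (∀ l, T l)}
    {a b : WithTop L} (hW : DLt b W) (hd : Disjoint X W) (z : ∀ l, T l) :
    fib a z W ⊆ Esc X a b z := by
  intro y hy w hw
  rw [mem_fib] at hy
  have h1 : glue b (glue a z y) w ∈ W := (hW.iff (agr_glue b (glue a z y) w)).1 hy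
  exact Set.disjoint_left.1 hd hw h1

end NPU_

open NPU_ in
theorem p_NPU (hNUT : T_NUT) (hFIN : T_FIN) (hPHK : T_PHK) (hPU : T_PU) : T_NPU := by
  intro L _ T _ _ r m X t W hm0 hW
  have hlt : ∀ j < 2 ^ parD r, t j < t (j + 1) := fun j hj => (hW j hj).1
  -- for ultrafilter-most `p` all fibres have `1 < phi`
  have hev : ∀ᶠ p in (hyperfilter ℕ : Filter ℕ), ∀ j ∈ Finset.range (2 ^ parD r),
      ∀ D ∈ Set.range (fun z : ∀ l, T l => fib (t j) z (W j)), 1 < phi p (r + 1) (t j) D := by
    rw [Filter.eventually_all_finset]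
    intro j hj
    have hj' := Finset.mem_range.1 hj
    rw [Filter.eventually_all_finite (hFIN L T (t j) (W j) (hW j hj').2.1)]
    rintro D ⟨z, rfl⟩
    exact (hNUT L T (r + 1) (t j) (fib (t j) z (W j))).eventually
      (lt_mem_nhds ((hW j hj').2.2.2.2 z))
  have hge : ∀ᶠ p in (hyperfilter ℕ : Filter ℕ), r ≤ p :=
    (Filter.eventually_ge_atTop r).filter_mono Nat.hyperfilter_le_atTop
  refine le_of_tendsto (hNUT L T r m X) ?_
  filter_upwards [hev, hge] with p hp hrp
  have hinj : Set.InjOn (fun j => (t j, t (j + 1))) (Finset.range (2 ^ parD r) : Set ℕ) := by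
    intro i hi j hj hij
    rw [Finset.coe_range, Set.mem_Iio] at hi hj
    have h1 : t i = t j := congrArg Prod.fst hij
    rcases lt_trichotomy i j with h | h | h
    · exact absurd h1 (mono_lt t _ hlt h hj.le).ne
    · exact h
    · exact absurd h1 (mono_lt t _ hlt h hi.le).ne'
  refine hPU L T p r m ((Finset.range (2 ^ parD r)).image fun j => (t j, t (j + 1))) X hrp ?_ ?_
    ?_ ?_
  · refine ⟨?_, ?_⟩
    · intro g hg
      obtain ⟨j, hj, rfl⟩ := Finset.mem_image.1 hg
      exact hlt j (Finset.mem_range.1 hj)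
    · intro g hg h hh hne
      obtain ⟨i, hi, rfl⟩ := Finset.mem_image.1 hg
      obtain ⟨j, hj, rfl⟩ := Finset.mem_image.1 hh
      rw [Finset.mem_range] at hi hj
      rcases lt_trichotomy i j with h1 | h1 | h1
      · exact Or.inl (mono_le t _ hlt h1 hj.le)
      · exact absurd (by rw [h1]) hne
      · exact Or.inr (mono_le t _ hlt h1 hi.le)
  · intro g hg
    obtain ⟨j, hj, rfl⟩ := Finset.mem_image.1 hg
    exact hm0.trans (mono_le t _ hlt (Nat.zero_le j) (Finset.mem_range.1 hj).le)
  · rw [Finset.card_image_of_injOn hinj, Finset.card_range]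
  · intro g hg z
    obtain ⟨j, hj, rfl⟩ := Finset.mem_image.1 hg
    have hj' := Finset.mem_range.1 hj
    obtain ⟨-, -, hD, hdis, -⟩ := hW j hj'
    refine Or.inr (Big_mono (C := fib (t j) z (W j)) ?_ (fib_sub_Esc hD hdis z))
    by_contra hb
    have h1 := (hPHK L T p (r + 1) (t j) (fib (t j) z (W j))).2 hb
    have h2 := hp j hj _ ⟨z, rfl⟩
    exact absurd h1 (not_le.2 h2)

end SNB
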