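import Pool.Agent.SNB.Targets2

set_option autoImplicit false

namespace SNB

open Classical Filter Topology

theorem p_NUB (hN : T_NUT) (hB : T_PHB) (hK : T_PHK) (h8 : T_PH8) : T_NUB := by
  intro L _ T _ k m
  have hN' : ∀ (j : ℕ) (Y : Set (∀ l, T l)),
      Tendsto (fun p => phi p j m Y) (hyperfilter ℕ : Filter ℕ) (𝓝 (nu j m Y)) :=
    fun j Y => hN L T j m Y
  have hmono : ∀ (p j j' : ℕ) (Y : Set (∀ l, T l)), j ≤ j' → phi p j m Y ≤ phi p j' m Y := by
    intro p j j' Y h
    induction j', h using Nat.le_induction with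
    | base => exact le_rfl
    | succ n _ ih => exact ih.trans ((hK L T p n m Y).1)
  refine ⟨fun Y => ⟨?_, ?_⟩, ?_, ?_, ?_, ?_, ?_⟩
  · exact ge_of_tendsto' (hN' k Y) fun p => ((hB L T p k m).1 Y).1
  · exact le_of_tendsto' (hN' k Y) fun p => ((hB L T p k m).1 Y).2
  · have h1 := hN' k (∅ : Set (∀ l, T l))
    have h2 : (fun p => phi p k m (∅ : Set (∀ l, T l))) = fun _ => (0 : ℝ) := by
      funext p
      exact (hB L T p k m).2.1
    rw [h2] at h1
    exact (tendsto_nhds_unique h1 tendsto_const_nhds)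
  · intro Y Y' h
    exact le_of_tendsto_of_tendsto' (hN' k Y) (hN' k Y') fun p => (hB L T p k m).2.2.1 Y Y' h
  · intro Y Y'
    exact le_of_tendsto_of_tendsto' (hN' k (Y ∪ Y')) ((hN' k Y).add (hN' k Y'))
      fun p => (hB L T p k m).2.2.2 Y Y'
  · intro k' Y h
    exact le_of_tendsto_of_tendsto' (hN' k Y) (hN' k' Y) fun p => hmono p k k' Y h
  · exact ge_of_tendsto' (hN' k Set.univ) fun p => h8 L T p k m

end SNB
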