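import Pool.Agent.SNB.Targets2

/-!
# MP_3e8648_lc, case x = b: NUT, `nu` is the limit along the ultrafilter
-/

set_option autoImplicit false

namespace SNB

open Classical Filter Topology

/-- NUT -/
theorem p_NUT (h_PHB : T_PHB) : T_NUT := by
  intro L _ T k m Y
  have hmem : ∀ p, phi p k m Y ∈ Set.Icc (0 : ℝ) 16 := fun p => (h_PHB L T p k m).1 Y
  have hlim : ∃ x, Tendsto (fun p => phi p k m Y) (hyperfilter ℕ : Filter ℕ) (𝓝 x) := by
    obtain ⟨x, -, hx⟩ := (isCompact_Icc (a := (0 : ℝ)) (b := 16)).ultrafilter_le_nhds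
      ((hyperfilter ℕ).map fun p => phi p k m Y) (by
        rw [Ultrafilter.coe_map]
        exact Filter.le_principal_iff.2 (Filter.mem_map.2 (Filter.univ_mem' hmem)))
    exact ⟨x, by rwa [Ultrafilter.coe_map] at hx⟩
  exact tendsto_nhds_limUnder hlim

end SNB
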