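import Pool.Agent.SNB.Targets1
set_option autoImplicit false
namespace SNB

theorem parA_succ (k : ℕ) : parA (k + 1) = 2 ^ (k + 9 + parD k) := rfl

theorem p_PA' : T_PA := by
  refine ⟨monotone_nat_of_le_succ fun k => ?_, fun k => rfl⟩
  rw [parA_succ]
  have h1 : parA k ≤ k + 9 + parD k := by
    unfold parD
    have : parA k ≤ 2 ^ (k + 4) * parA k := Nat.le_mul_of_pos_left _ (by positivity)
    omega
  exact h1.trans (Nat.lt_two_pow_self).le

theorem p_PB' : T_PB := by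
  intro k N h
  have hA : (0 : ℝ) < (parA k : ℝ) := by exact_mod_cast parA_pos k
  have h2 : (0 : ℝ) < (1 / 2 : ℝ) ^ k := by positivity
  have h3 : (parD k - Nat.log 2 N : ℕ) < 2 ^ (k + 4) * parA k := by
    by_contra hc
    rw [not_lt] at hc
    have h4 : ((2 ^ (k + 4) * parA k : ℕ) : ℝ) ≤ ((parD k - Nat.log 2 N : ℕ) : ℝ) := by
      exact_mod_cast hc
    have h5 : (2 : ℝ) ^ (k + 4) ≤ ((parD k - Nat.log 2 N : ℕ) : ℝ) / (parA k : ℝ) := by
      rw [le_div_iff₀ hA]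
      push_cast at h4
      exact h4
    have h6 : (16 : ℝ) ≤ price k N := by
      unfold price
      have h7 : (16 : ℝ) = (1 / 2) ^ k * (2 : ℝ) ^ (k + 4) := by
        rw [pow_add, ← mul_assoc, ← mul_pow]
        norm_num
      rw [h7]
      apply mul_le_mul_of_nonneg_left _ h2.le
      linarith
    linarith
  have h8 : 2 * k + 30 < Nat.log 2 N := by
    have : parD k = 2 * k + 30 + 2 ^ (k + 4) * parA k := rfl
    omega
  have hN : N ≠ 0 := by
    rintro rfl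
    simp at h8
  exact (Nat.pow_le_pow_right (by norm_num) h8.le).trans (Nat.pow_log_le_self 2 hN)

theorem p_PC' : T_PC := by
  intro k
  have hpos : (0 : ℝ) < (1 / 2 : ℝ) ^ k := by positivity
  have hle1 : (1 / 2 : ℝ) ^ k ≤ 1 := pow_le_one₀ (by norm_num) (by norm_num)
  have hA : (2 : ℝ) ^ (3 * k + 39) ≤ (parA (k + 1) : ℝ) := by
    rw [parA_succ]
    push_cast
    apply pow_le_pow_right₀ (by norm_num)
    unfold parD
    omega
  have hApos : (0 : ℝ) < (parA (k + 1) : ℝ) := by exact_mod_cast parA_pos (k + 1)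
  have hk : ((k + 10 : ℕ) : ℝ) ≤ 2 ^ (k + 10) := by
    exact_mod_cast (Nat.lt_two_pow_self).le
  -- (k+10)/A * 16 ≤ 4 (1/2)^k
  have h1 : ((k + 10 : ℕ) : ℝ) / (parA (k + 1) : ℝ) * 16 ≤ 4 * (1 / 2) ^ k := by
    rw [div_mul_eq_mul_div, div_le_iff₀ hApos]
    have h2 : (4 : ℝ) * (1 / 2) ^ k * 2 ^ (3 * k + 39) ≤ 4 * (1 / 2) ^ k * (parA (k + 1) : ℝ) :=
      mul_le_mul_of_nonneg_left hA (by positivity)
    have h3 : (4 : ℝ) * (1 / 2) ^ k * 2 ^ (3 * k + 39) = 2 ^ (2 * k + 41) := by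
      have : (2 : ℝ) ^ (3 * k + 39) = 2 ^ k * 2 ^ (2 * k + 39) := by
        rw [← pow_add]; congr 1; omega
      rw [this]
      have h4 : (1 / 2 : ℝ) ^ k * 2 ^ k = 1 := by rw [← mul_pow]; norm_num
      calc (4 : ℝ) * (1 / 2) ^ k * (2 ^ k * 2 ^ (2 * k + 39))
          = 4 * ((1 / 2) ^ k * 2 ^ k) * 2 ^ (2 * k + 39) := by ring
        _ = 2 ^ (2 * k + 41) := by rw [h4]; ring
    have h5 : ((k + 10 : ℕ) : ℝ) * 16 ≤ 2 ^ (2 * k + 41) := by
      calc ((k + 10 : ℕ) : ℝ) * 16 ≤ 2 ^ (k + 10) * 16 := by gcongr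
        _ = 2 ^ (k + 14) := by ring
        _ ≤ 2 ^ (2 * k + 41) := pow_le_pow_right₀ (by norm_num) (by omega)
    linarith
  have h0 : 0 ≤ ((k + 10 : ℕ) : ℝ) / (parA (k + 1) : ℝ) := by positivity
  constructor
  · unfold cc
    rw [pow_succ]
    nlinarith
  · nlinarith

end SNB
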