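import Pool.Agent.SNB.Targets1

set_option autoImplicit false

namespace SNB

open Classical

theorem PD_.parA_succ (r : ℕ) : (parA (r + 1) : ℝ) = 512 * 2 ^ r * 2 ^ parD r := by
  have h : parA (r + 1) = 2 ^ (r + 9 + parD r) := rfl
  rw [h]
  push_cast
  rw [pow_add, pow_add]
  norm_num
  ring

theorem p_PD : T_PD := by
  intro r
  have hA := PD_.parA_succ r
  have h1 : (1 : ℝ) ≤ 2 ^ r := one_le_pow₀ (by norm_num)
  have hD : 30 ≤ parD r := by unfold parD; omega
  have h2 : (2 : ℝ) ^ 30 ≤ 2 ^ parD r := pow_le_pow_right₀ (by norm_num) hD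
  have hr : (0 : ℝ) < 2 ^ r := by positivity
  have hd : (0 : ℝ) < 2 ^ parD r := by positivity
  have hApos : (0 : ℝ) < (parA (r + 1) : ℝ) := by rw [hA]; positivity
  refine ⟨?_, ?_, ?_⟩
  · unfold bet eps
    rw [hA, one_div_pow, div_div, mul_div_assoc', div_le_div_iff₀ (by positivity) (by positivity)]
    have h3 : (0 : ℝ) < 2 ^ r * 2 ^ parD r := mul_pos hr hd
    nlinarith
  · unfold bet
    positivity
  · unfold bet
    rw [hA, div_le_div_iff₀ (by positivity) (by norm_num)]
    have h3 : (2 : ℝ) ^ 30 ≤ 2 ^ r * 2 ^ parD r := by nlinarith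
    norm_num at h3 ⊢
    nlinarith

end SNB
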