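import Pool.Agent.SNB.Targets2

set_option autoImplicit false

namespace SNB

open Classical Filter Topology

theorem p_PFI (hSTB : T_STB) (hCPT : T_CPT) : T_PFI := by
  intro L _ T _ μ S hexs hμ0 hmono hsub G hG hfin ε hε
  by_contra hcon
  push Not at hcon
  -- a subsequence
  obtain ⟨φ, hφ, hφG⟩ : ∃ φ : ℕ → ℕ, StrictMono φ ∧ ∀ j, ε ≤ μ (G (φ j)) :=
    Nat.exists_strictMono_subsequence (P := fun j => ε ≤ μ (G j)) (fun N => by
      obtain ⟨j, hj, hj'⟩ := hcon (N + 1)
      exact ⟨j, by omega, hj'⟩)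
  -- the blocks
  have hst : ∀ (a s : ℕ), ∃ a', a < a' ∧ ∀ j, a' ≤ j →
      μ (G (φ j) \ ⋃ i ∈ Finset.Ico a a', G (φ i)) ≤ ε / 2 ^ (s + 2) := fun a s =>
    hSTB L T μ S hexs (fun j => G (φ j)) (fun j => hG (φ j)) a (ε / 2 ^ (s + 2)) (by positivity)
  choose nx hnx1 hnx2 using hst
  let A : ℕ → ℕ := fun s => Nat.rec 0 (fun s a => nx a s) s
  have hA : ∀ s, A (s + 1) = nx (A s) s := fun s => rfl
  have hAlt : ∀ s, A s < A (s + 1) := fun s => by
    rw [hA]
    exact hnx1 _ _
  have hAmono : StrictMono A := strictMono_nat_of_lt_succ hAlt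
  let H : ℕ → Set (∀ l, T l) := fun s => ⋃ i ∈ Finset.Ico (A s) (A (s + 1)), G (φ i)
  have hH : ∀ s j, A (s + 1) ≤ j → μ (G (φ j) \ H s) ≤ ε / 2 ^ (s + 2) := fun s j hj =>
    hnx2 (A s) s j hj
  let X : ℕ → Set (∀ l, T l) := fun s => ⋂ r ∈ Finset.range (s + 1), H r
  have hXs : ∀ s, X (s + 1) = X s ∩ H (s + 1) := by
    intro s
    show (⋂ r ∈ Finset.range (s + 1 + 1), H r) = (⋂ r ∈ Finset.range (s + 1), H r) ∩ H (s + 1)
    rw [Finset.range_add_one (n := s + 1), Finset.set_biInter_insert, Set.inter_comm]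
  have hX0 : X 0 = H 0 := by
    show (⋂ r ∈ Finset.range (0 + 1), H r) = H 0
    simp
  have hkey : ∀ s j, A (s + 1) ≤ j → μ (G (φ j) \ X s) ≤ ε / 2 - ε / 2 ^ (s + 2) := by
    intro s
    induction s with
    | zero =>
      intro j hj
      rw [hX0]
      have := hH 0 j hj
      norm_num at this ⊢
      linarith
    | succ s ih =>
      intro j hj
      have h1 := ih j ((hAlt (s + 1)).le.trans hj)
      have h2 := hH (s + 1) j hj
      have h3 : G (φ j) \ X (s + 1) ⊆ (G (φ j) \ X s) ∪ (G (φ j) \ H (s + 1)) := by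
        rw [hXs, Set.diff_inter]
      have h4 := (hmono _ _ h3).trans (hsub _ _)
      have e1 : ε / 2 ^ (s + 2) = 2 * (ε / 2 ^ (s + 1 + 2)) := by
        have e2 : (2 : ℝ) ^ (s + 1 + 2) = 2 ^ (s + 2) * 2 := by
          rw [show s + 1 + 2 = (s + 2) + 1 from rfl, pow_succ]
        rw [e2]
        field_simp
      linarith
  have hne : ∀ s, (X s).Nonempty := by
    intro s
    by_contra hem
    rw [Set.not_nonempty_iff_eq_empty] at hem
    have h1 := hkey s (A (s + 1)) le_rfl
    rw [hem, Set.sdiff_empty] at h1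
    have h2 := hφG (A (s + 1))
    have h3 : 0 < ε / 2 ^ (s + 2) := by positivity
    linarith
  have hcl : ∀ s, Cl Set.univ (X s) := by
    intro s
    apply Cl.toUniv (S := S)
    apply Cl.biInter
    intro r _
    apply Cl.biUnion
    intro i _
    exact hG (φ i)
  obtain ⟨z, hz⟩ := hCPT L T X hcl (fun i => by rw [hXs]; exact Set.inter_subset_left) hne
  have hzH : ∀ s, z ∈ H s := by
    intro s
    have := hz s
    simp only [X, Set.mem_iInter] at this
    exact this s (Finset.mem_range.2 (Nat.lt_succ_self s))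
  have hinf : {i | z ∈ G (φ i)}.Infinite := by
    rw [Set.infinite_iff_exists_gt]
    intro a
    have := hzH (a + 1)
    simp only [H, Set.mem_iUnion] at this
    obtain ⟨i, hi, hzi⟩ := this
    rw [Finset.mem_Ico] at hi
    refine ⟨i, hzi, ?_⟩
    have h2 : a + 1 ≤ A (a + 1) := hAmono.le_apply
    omega
  have hinf2 := hinf.image (f := φ) hφ.injective.injOn
  refine hinf2 ((hfin z).subset ?_)
  rintro _ ⟨i, hi, rfl⟩
  exact hi

end SNB
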