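import Pool.Agent.SNB.Targets1

/-!
# SNB-PH8: the whole space has `8 ≤ phi`
-/

set_option autoImplicit false

namespace SNB

open Classical

theorem p_PH8 (hLB : T_LB) (hPHP : T_PHP) : T_PH8 := by
  intro L _ T _ p k m
  by_contra hlt
  push Not at hlt
  obtain ⟨P, s', _, h1, hP, hc, hcov⟩ := (hPHP L T p k m Set.univ 8).2 hlt (by norm_num)
  obtain ⟨z, hz⟩ := hLB L T p k m P hP (fun z => by
    have h2 := hc z
    have h3 : ((1 : ℝ) / 2) ^ k ≤ 1 := pow_le_one₀ (by norm_num) (by norm_num)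
    unfold cc
    linarith)
  exact hz (hcov (Set.mem_univ z))

end SNB
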