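import Pool.Agent.SNB.Targets1

/-!
# MP_3e8648_lc, case x = b: target PHK
-/

set_option autoImplicit false

namespace SNB

open Classical

theorem PHK_.plan_mono {L : Type} [LinearOrder L] {T : L → Type} {p k : ℕ} {m : WithTop L}
    {P : List (Pur T)} (h : Plan m (k + 1) p P) : Plan m k p P := by
  intro q hq
  obtain ⟨h1, h2⟩ := h q hq
  refine ⟨h1, fun z hz => ?_⟩
  obtain ⟨⟨a1, a2⟩, b, c, d, e, f⟩ := h2 z hz
  exact ⟨⟨by omega, a2⟩, b, c, d, e, f⟩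

theorem PHK_.bdd {L : Type} [LinearOrder L] {T : L → Type} (p k : ℕ) (m : WithTop L)
    (Y : Set (∀ l, T l)) : BddBelow ({s : ℝ | 0 ≤ s ∧ ∃ P : List (Pur T), Plan m k p P ∧
      (∀ z, cost P z ≤ s) ∧ Y ⊆ cov P} ∪ {16}) := by
  refine ⟨0, ?_⟩
  rintro s (hs | hs)
  · exact hs.1
  · rw [Set.mem_singleton_iff] at hs
    rw [hs]; norm_num

theorem p_PHK : T_PHK := by
  intro L _ T p k m Y
  constructor
  · unfold phi
    apply csInf_le_csInf (PHK_.bdd p k m Y) ⟨16, Or.inr rfl⟩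
    rintro s (⟨h0, P, hP, hc, hY⟩ | hs)
    · exact Or.inl ⟨h0, P, PHK_.plan_mono hP, hc, hY⟩
    · exact Or.inr hs
  · intro hB
    rw [Big_iff, not_not] at hB
    obtain ⟨P, hP, hc, hY⟩ := hB
    unfold phi
    exact csInf_le (PHK_.bdd p k m Y) (Or.inl ⟨by norm_num, P, hP, fun z => (hc z).le, hY⟩)

end SNB
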