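import Pool.Agent.SNB.Targets1

/-!
# MP_3e8648_lc, case x = b: PSI, the potential drops
-/

set_option autoImplicit false

namespace SNB

open Classical

namespace PSI_

variable {L : Type} [LinearOrder L] {T : L → Type}

/-- the factor in the potential -/
noncomputable def KK (k : ℕ) : ℝ := 2 ^ (k + 1) + 3

/-- the first part of the potential -/
noncomputable def fa (k : ℕ) (m : WithTop L) (z : ∀ l, T l) (q : Pur T) : ℝ :=
  if q.lev = k ∧ alive m z q then (1 : ℝ) else 0

/-- the price, if made -/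
noncomputable def fs (m : WithTop L) (z : ∀ l, T l) (q : Pur T) : ℝ :=
  if made m z q then price q.lev q.J.card else 0

/-- the drop of the potential due to `q` -/
noncomputable def gn (k : ℕ) (m m'' : WithTop L) (z z'' : ∀ l, T l) (q : Pur T) : ℝ :=
  fa k m z q - fa k m'' z'' q + KK k * (fs m'' z'' q - fs m z q)

theorem sum_gn (P : List (Pur T)) (k : ℕ) (m m'' : WithTop L) (z z'' : ∀ l, T l) :
    (P.map (gn k m m'' z z'')).sum = Psi P k m z - Psi P k m'' z'' := by
  have h : ∀ P : List (Pur T), (P.map (gn k m m'' z z'')).sum =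
      (P.map (fa k m z)).sum - (P.map (fa k m'' z'')).sum +
        KK k * ((P.map (fs m'' z'')).sum - (P.map (fs m z)).sum) := by
    intro P
    induction P with
    | nil => simp
    | cons q P ih =>
      simp only [List.map_cons, List.sum_cons]
      rw [ih]
      unfold gn
      ring
  rw [h]
  have e1 : Psi P k m z = (P.map (fa k m z)).sum + KK k * (16 - (P.map (fs m z)).sum) := rfl
  have e2 : Psi P k m'' z'' = (P.map (fa k m'' z'')).sum +
    KK k * (16 - (P.map (fs m'' z'')).sum) := rfl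
  rw [e1, e2]
  ring

theorem fa_le (k : ℕ) (m : WithTop L) (z : ∀ l, T l) (q : Pur T) : fa k m z q ≤ 1 := by
  unfold fa
  split_ifs <;> norm_num

theorem fa_zero {k : ℕ} {m : WithTop L} {z : ∀ l, T l} {q : Pur T} (h : ¬ alive m z q) :
    fa k m z q = 0 := by
  unfold fa
  rw [if_neg fun h1 => h h1.2]

theorem fa_zero' {k : ℕ} {m : WithTop L} {z : ∀ l, T l} {q : Pur T} (h : q.lev ≠ k) :
    fa k m z q = 0 := by
  unfold fa
  rw [if_neg fun h1 => h h1.1]

theorem KK_pos (k : ℕ) : 3 ≤ KK k := by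
  unfold KK
  have : (0 : ℝ) ≤ 2 ^ (k + 1) := by positivity
  linarith

theorem KK_mul (k N : ℕ) : 2 ≤ KK k * price k N := by
  have h1 := le_price k N
  have h2 : KK k * (1 / 2) ^ k ≤ KK k * price k N :=
    mul_le_mul_of_nonneg_left h1 (by have := KK_pos k; linarith)
  have h3 : KK k * (1 / 2) ^ k = 2 + 3 * (1 / 2) ^ k := by
    unfold KK
    rw [add_mul, pow_succ, mul_comm ((2 : ℝ) ^ k) 2, mul_assoc, ← mul_pow]
    norm_num
  have h4 : (0 : ℝ) ≤ (1 / 2) ^ k := by positivity
  linarith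

section pt

variable {k : ℕ} {m m'' : WithTop L} {z z'' : ∀ l, T l} {q : Pur T}

/-- purchases made at the first state -/
theorem made_gn (hq : DLt q.tm q.Q) (hm : m ≤ m'') (ha : agr m z z'') (h : made m z q) :
    gn k m m'' z z'' q = fa k m z q - fa k m'' z'' q ∧ fa k m'' z'' q ≤ fa k m z q := by
  have h1 : made m'' z'' q := made_mono hm hq ha h
  constructor
  · unfold gn fs
    rw [if_pos h, if_pos h1, sub_self, mul_zero, add_zero]
  · unfold fa
    by_cases h2 : q.lev = k ∧ alive m'' z'' q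
    · rw [if_pos h2, if_pos ⟨h2.1, h, fun h3 => h2.2.2 (esc_mono hm ha h3)⟩]
    · rw [if_neg h2]
      split_ifs <;> norm_num

/-- purchases made at the second state only -/
theorem new_gn (h : ¬ made m z q) (h1 : made m'' z'' q) :
    gn k m m'' z z'' q = KK k * price q.lev q.J.card - fa k m'' z'' q := by
  unfold gn fs
  rw [if_neg h, if_pos h1, fa_zero fun h2 => h h2.1]
  ring

theorem new_lt (hq : DLt q.tm q.Q) (ha : agr m z z'') (h : ¬ made m z q)
    (h1 : made m'' z'' q) : m < q.tm := by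
  by_contra h2
  have h3 : q.tm ≤ m := not_lt.1 h2
  exact h ⟨h3, (hq.iff (agr_mono h3 ha)).2 h1.2⟩

theorem gn_eq (h : q.lev = k) (h1 : ¬ made m z q) (h2 : made m'' z'' q) :
    1 ≤ gn k m m'' z z'' q := by
  rw [new_gn h1 h2, h]
  have h3 := KK_mul k q.J.card
  have h4 := fa_le k m'' z'' q
  linarith

theorem gn_lt (h : k < q.lev) (h1 : ¬ made m z q) (h2 : made m'' z'' q) :
    3 * price q.lev q.J.card ≤ gn k m m'' z z'' q := by
  rw [new_gn h1 h2, fa_zero' h.ne', sub_zero]
  exact mul_le_mul_of_nonneg_right (KK_pos k) (price_nonneg _ _)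

theorem gn_none (h : ¬ made m z q) (h1 : ¬ made m'' z'' q) : gn k m m'' z z'' q = 0 := by
  unfold gn fs
  rw [if_neg h, if_neg h1, fa_zero fun h2 => h h2.1, fa_zero fun h2 => h1 h2.1]
  ring

theorem gn_nonneg (hq : DLt q.tm q.Q) (hk : ∀ z ∈ q.Q, k ≤ q.lev) (hm : m ≤ m'')
    (ha : agr m z z'') : 0 ≤ gn k m m'' z z'' q := by
  by_cases h : made m z q
  · obtain ⟨h1, h2⟩ := made_gn (k := k) hq hm ha h
    rw [h1]
    linarith
  · by_cases h1 : made m'' z'' q
    · rcases (hk z'' h1.2).eq_or_lt with h2 | h2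
      · have := gn_eq h2.symm h h1
        linarith
      · have h3 := gn_lt h2 h h1
        have h4 := price_nonneg q.lev q.J.card
        linarith
    · rw [gn_none h h1]

end pt

end PSI_

open PSI_ in
/-- PSI -/
theorem p_PSI : T_PSI := by
  intro L _ T p k m0 m m'' z z'' P hP hm ha hc
  have hnn : ∀ q ∈ P, 0 ≤ gn k m m'' z z'' q := fun q hq =>
    gn_nonneg (hP q hq).1 (fun z hz => ((hP q hq).2 z hz).1.1) hm ha
  have hsum := sum_gn P k m m'' z z''
  have hone : ∀ q ∈ P, 1 ≤ gn k m m'' z z'' q → Psi P k m'' z'' + 1 ≤ Psi P k m z := by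
    intro q hq h1
    have h2 : gn k m m'' z z'' q ≤ (P.map (gn k m m'' z z'')).sum := by
      apply List.single_le_sum
      · intro x hx
        obtain ⟨q', hq', rfl⟩ := List.mem_map.1 hx
        exact hnn q' hq'
      · exact List.mem_map.2 ⟨q, hq, rfl⟩
    linarith
  rcases hc with ⟨q, hq, hl, hal, hes⟩ | ⟨q, hq, hl, hz, hlt, hle⟩ | hN
  · refine hone q hq ?_
    obtain ⟨h1, -⟩ := made_gn (k := k) (hP q hq).1 hm ha hal.1
    rw [h1, fa_zero (m := m'') (z := z'') fun h2 => h2.2 hes]
    unfold fa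
    rw [if_pos ⟨hl, hal⟩]
    norm_num
  · exact hone q hq (gn_eq hl (fun h => absurd h.1 (not_le.2 hlt)) ⟨hle, hz⟩)
  · have h1 : 3 * Newp P k m m'' z'' ≤ (P.map (gn k m m'' z z'')).sum := by
      unfold Newp
      rw [← List.sum_map_mul_left]
      apply List.sum_le_sum
      intro q hq
      split_ifs with h
      · exact gn_lt h.1 (fun h1 => absurd h1.1 (not_le.2 h.2.1)) ⟨h.2.2.1, h.2.2.2⟩
      · rw [mul_zero]
        exact hnn q hq
    linarith

end SNB
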