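import Pool.Agent.SNB.Targets1

/-!
# SNB-PU: one purchase with `Q = univ` (helper44)
-/

set_option autoImplicit false

namespace SNB

open Classical

theorem p_PU : T_PU := by
  intro L _ T p r m J X hrp hJ hm hcard hbig
  have hne : J.Nonempty := by
    rw [← Finset.card_pos]
    exact lt_of_lt_of_le (by positivity) hcard
  have hprice : price r J.card = (1 / 2) ^ r := price_eq hcard
  have hplan : Plan (T := T) m r p [⟨r, m, Set.univ, X, J⟩] := by
    intro q hq
    rw [List.mem_singleton] at hq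
    subst hq
    refine ⟨dLt_univ m, fun z _ => ⟨⟨le_rfl, hrp⟩, le_rfl, hne, ?_, hJ.2, ?_⟩⟩
    · intro g hg
      exact ⟨hm g hg, hJ.1 g hg⟩
    · intro g hg
      exact hbig g hg z
  have hcost : ∀ z : ∀ l, T l, cost [(⟨r, m, Set.univ, X, J⟩ : Pur T)] z ≤ (1 / 2) ^ r := by
    intro z
    have : cost [(⟨r, m, Set.univ, X, J⟩ : Pur T)] z = price r J.card := by
      simp [cost, con]
    rw [this, hprice]
  have hcov : X ⊆ cov [(⟨r, m, Set.univ, X, J⟩ : Pur T)] := by
    intro z hz
    exact ⟨_, List.mem_singleton.2 rfl, Set.mem_univ z, hz⟩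
  unfold phi
  apply csInf_le
  · refine ⟨0, ?_⟩
    rintro s (hs | hs)
    · exact hs.1
    · rw [Set.mem_singleton_iff] at hs
      rw [hs]
      norm_num
  · exact Or.inl ⟨by positivity, _, hplan, hcost, hcov⟩

end SNB
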