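import Pool.Agent.SNB.Targets1

set_option autoImplicit false

namespace SNB

open Classical

/-- `T_RNA` from `T_GAP`, `T_PSI`, `T_ALV` -/
theorem p_RNA (hGAP : T_GAP) (hPSI : T_PSI) (hALV : T_ALV) : T_RNA := by
  intro L _ T p k i m0 m z P hL hP hc hInv hi hna
  obtain ⟨m'', z'', hm, -, hag, h1, h2, h3⟩ := hGAP L T p k m0 m ⊤ z P hL hP hc le_top
  -- a purchase made at `(m'',z'')` with `q.tm ≤ m` was made at `(m,z)`
  have hold : ∀ q ∈ P, z'' ∈ q.Q → q.tm ≤ m → ¬ esc m'' z'' q → alive m z q := by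
    intro q hq hzQ htm hne
    have hD : DLt q.tm q.Q := (hP q hq).1
    refine ⟨⟨htm, (hD.iff (agr_mono htm hag)).2 hzQ⟩, fun he => hne (esc_mono hm hag he)⟩
  have hgate : ∀ q ∈ P, z'' ∈ q.Q → ∀ t : WithTop L, t ≤ q.tm → bef q.J t = 0 := by
    intro q hq hzQ t ht
    obtain ⟨-, -, -, hg, -, -⟩ := (hP q hq).2 z'' hzQ
    exact bef_zero fun g hgJ => ht.trans (hg g hgJ).1
  have hbef : ∀ q ∈ P, k < q.lev → z'' ∈ q.Q → ¬ esc m'' z'' q →
      bef q.J m ≤ i * tq (k + 10) q.J.card := by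
    intro q hq hk hzQ hne
    rcases lt_or_ge m q.tm with h | h
    · rw [hgate q hq hzQ m h.le]
      exact Nat.zero_le _
    · exact hInv.1 q hq hk (hold q hq hzQ h hne)
  by_cases hex : ∃ q ∈ P, q.lev = k ∧ z'' ∈ q.Q ∧ m < q.tm ∧ q.tm = m''
  · right
    refine ⟨m'', z'', hm, hag, ⟨?_, ?_⟩, ?_⟩
    · intro q hq hk hal
      have hs : stt q.J m m'' ≤ tq (k + 10) q.J.card := by
        rcases h3 q hq hk hal.1 with h | h
        · exact absurd h hal.2
        · exact h
      have hb := hbef q hq hk hal.1.2 hal.2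
      rw [bef_add_stt q.J hm]
      calc bef q.J m + stt q.J m m'' ≤ i * tq (k + 10) q.J.card + tq (k + 10) q.J.card :=
            Nat.add_le_add hb hs
        _ = (i + 1) * tq (k + 10) q.J.card := by ring
        _ ≤ (i + 2) * tq (k + 10) q.J.card := Nat.mul_le_mul_right _ (by omega)
    · intro q hq hk hal
      rcases lt_or_ge m q.tm with h | h
      · have he : q.tm = m'' := h1 q hq hk hal.1.2 h hal.1.1
        rw [hgate q hq hal.1.2 m'' he.ge]
        exact Nat.zero_le _
      · exact absurd (hold q hq hal.1.2 h hal.2) (hna q hq hk)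
    · apply hPSI L T p k m0 m m'' z z'' P hP hm hag
      obtain ⟨q, hq, hk, hzQ, hlt, he⟩ := hex
      exact Or.inr (Or.inl ⟨q, hq, hk, hzQ, hlt, he.le⟩)
  · have htop : m'' = ⊤ := by
      rcases h2 with h | h
      · exact h
      · exact absurd h hex
    subst htop
    left
    refine ⟨z'', hag, ?_⟩
    rintro ⟨q, hq, hzQ, hzX⟩
    obtain ⟨⟨hkl, -⟩, -, hne, hg, -, -⟩ := (hP q hq).2 z'' hzQ
    have hnesc : ¬ esc ⊤ z'' q := fun he => esc_notMem he hzX
    rcases Nat.lt_or_ge k q.lev with hk | hk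
    · rcases h3 q hq hk ⟨le_top, hzQ⟩ with h | h
      · exact hnesc h
      · have h4 := (hALV L T p k i m0 m z'' P hP hc (by omega) q hq hzQ).2 hk
          (hbef q hq hk hzQ hnesc)
        omega
    · have hk' : q.lev = k := le_antisymm hk hkl
      rcases lt_or_ge m q.tm with h | h
      · have he : q.tm = ⊤ := h1 q hq hk' hzQ h le_top
        obtain ⟨g, hgJ⟩ := hne
        have := hg g hgJ
        rw [he] at this
        exact absurd (this.1.trans_lt this.2) (not_lt.2 le_top)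
      · exact hna q hq hk' (hold q hq hzQ h hnesc)

end SNB
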