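import Pool.Agent.SNB.Targets2

/-!
# MP_3e8648_lc, case x = b: target STB (stabilisation) (helper75)
-/

set_option autoImplicit false

namespace SNB

open Classical Filter Topology

theorem p_STB : T_STB := by
  intro L _ T μ S hμ G hG a δ hδ
  by_contra hcon
  have hcon' : ∀ a', a < a' → ∃ j, a' ≤ j ∧ δ < μ (G j \ ⋃ i ∈ Finset.Ico a a', G i) := by
    intro a' ha'
    by_contra h
    apply hcon
    refine ⟨a', ha', fun j hj => ?_⟩
    by_contra h1
    exact h ⟨j, hj, not_le.1 h1⟩
  choose! f hf using hcon'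
  let s : ℕ → ℕ := fun n => Nat.rec (a + 1) (fun _ x => f x + 1) n
  have hs1 : ∀ n, s (n + 1) = f (s n) + 1 := fun n => rfl
  have hs : ∀ n, a < s n := by
    intro n
    induction n with
    | zero => exact Nat.lt_succ_self a
    | succ n ih =>
      rw [hs1]
      have := (hf (s n) ih).1
      omega
  have hstep : ∀ n, s n ≤ f (s n) := fun n => (hf (s n) (hs n)).1
  have hmono : StrictMono s := by
    apply strictMono_nat_of_lt_succ
    intro n
    rw [hs1]
    have := hstep n
    omega
  let E : ℕ → Set (∀ l, T l) := fun n => G (f (s n)) \ ⋃ i ∈ Finset.Ico a (s n), G i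
  have hE : ∀ n, Cl S (E n) := fun n => (hG _).diff (Cl.biUnion _ fun i _ => hG i)
  have hlt : ∀ i j, i < j → Disjoint (E i) (E j) := by
    intro i j hij
    rw [Set.disjoint_left]
    intro z hz hz'
    apply hz'.2
    rw [Set.mem_iUnion₂]
    refine ⟨f (s i), ?_, hz.1⟩
    rw [Finset.mem_Ico]
    have h1 := hstep i
    have h2 := hs i
    have h3 : s (i + 1) ≤ s j := hmono.monotone hij
    rw [hs1] at h3
    constructor <;> omega
  have hdis : ∀ i j, i ≠ j → Disjoint (E i) (E j) := by
    intro i j hij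
    rcases lt_or_gt_of_ne hij with h | h
    · exact hlt i j h
    · exact (hlt j i h).symm
  obtain ⟨N, hN⟩ := hμ E hE hdis δ hδ
  have h1 := hN N le_rfl
  have h2 := (hf (s N) (hs N)).2
  exact absurd h1 (not_lt.2 h2.le)

end SNB
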