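import Pool.Agent.SNB.Targets1

/-!
# SNB: at most one gate is cut
-/

set_option autoImplicit false

namespace SNB

open Classical

theorem p_STC : T_STC := by
  intro L _ J m n hJ
  have h1 : J.filter (fun g => m ≤ g.1 ∧ g.1 < n) ⊆
      ins J m n ∪ J.filter (fun g => g.1 < n ∧ n < g.2) := by
    intro g hg
    rw [Finset.mem_filter] at hg
    rw [Finset.mem_union, mem_ins, Finset.mem_filter]
    rcases le_or_gt g.2 n with h | h
    · exact Or.inl ⟨hg.1, hg.2.1, h⟩
    · exact Or.inr ⟨hg.1, hg.2.2, h⟩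
  have h2 : (J.filter (fun g => g.1 < n ∧ n < g.2)).card ≤ 1 := by
    rw [Finset.card_le_one]
    intro g hg h hh
    rw [Finset.mem_filter] at hg hh
    by_contra hne
    rcases hJ.2 g hg.1 h hh.1 hne with h3 | h3
    · exact absurd (hg.2.2.trans_le h3) (not_lt.2 hh.2.1.le)
    · exact absurd (hh.2.2.trans_le h3) (not_lt.2 hg.2.1.le)
  have h3 := (Finset.card_le_card h1).trans (Finset.card_union_le _ _)
  unfold stt cnt
  omega

end SNB
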