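import Pool.Agent.SNB.Targets2

/-!
# SNB-SUBM: the result of Part I (helper62)
-/

set_option autoImplicit false

namespace SNB

open Classical

theorem SUBM_.exists_least (L : Type) [LinearOrder L] [WellFoundedLT L] :
    ∃ m : WithTop L, ∀ x : WithTop L, m ≤ x := by
  obtain ⟨m, -, hm⟩ := (wellFounded_lt (α := WithTop L)).has_min Set.univ ⟨⊤, trivial⟩
  exact ⟨m, fun x => not_lt.1 (hm x trivial)⟩

/-- result of Part I, from exhaustivity, hitting and the simple properties of `nu` -/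
theorem p_SUBM (hEX : T_EX) (hHIT : T_HIT) (hNUB : T_NUB) : T_SUBM := by
  intro L _ _ T _ _
  obtain ⟨m, hm⟩ := SUBM_.exists_least L
  obtain ⟨h1, h2, h3, h4, h5, h6⟩ := hNUB L T 0 m
  refine ⟨nu 0 m, h2, h6, h1, h3, h4, ?_, ?_⟩
  · have hI : (Iv m ⊤ : Set L) = Set.univ := by
      ext l
      rw [mem_Iv]
      exact iff_of_true ⟨hm _, WithTop.coe_lt_top l⟩ trivial
    have := hEX L T ⊤ m 0
    rwa [hI] at this
  · intro k I τ hI hτ
    refine (h5 k _ (Nat.zero_le k)).trans ?_
    refine hHIT L T k m I τ hI (fun i _ => hm _) ?_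
    intro i hi z y hzy
    exact hτ i hi z y fun l hl => hzy l (WithTop.coe_lt_coe.2 hl)

end SNB
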