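import Pool.Agent.SNB.Targets1
import Pool.Agent.SNB.P_DJ

/-!
# SNB: averaging of the weights
-/

set_option autoImplicit false
set_option linter.unusedSectionVars false

namespace SNB

open Classical

namespace WGT_

theorem sum_swap {α β : Type} (G : Finset β) (w : α → β → ℝ) : ∀ P : List α,
    ∑ g ∈ G, (P.map fun q => w q g).sum = (P.map fun q => ∑ g ∈ G, w q g).sum
  | [] => by simp
  | q :: P => by
    simp only [List.map_cons, List.sum_cons, Finset.sum_add_distrib]
    rw [sum_swap G w P]

theorem card_le {L : Type} [LinearOrder L] (J G : Finset (WithTop L × WithTop L)) (e : ℕ)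
    (hJ : Gts J) (hG : Gts G) :
    (G.filter fun g => tq e J.card ≤ cnt J g.1 g.2).card ≤ 2 ^ e := by
  have h1 := p_DJ L J G (tq e J.card) hJ hG
  have h2 : J.card < 2 ^ e * tq e J.card := by
    unfold tq
    have h3 := Nat.div_add_mod J.card (2 ^ e)
    have h4 := Nat.mod_lt J.card (show 0 < 2 ^ e by positivity)
    rw [Nat.mul_add]
    omega
  have h3 : tq e J.card * (G.filter fun g => tq e J.card ≤ cnt J g.1 g.2).card <
      tq e J.card * 2 ^ e := by
    rw [Nat.mul_comm _ (2 ^ e)]
    exact h1.trans_lt h2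
  exact (lt_of_mul_lt_mul_left h3 (Nat.zero_le _)).le

end WGT_

theorem p_WGT : T_WGT := by
  intro L _ T p k m0 m z P G hP hc hG hcard
  by_contra hne
  push Not at hne
  let w : Pur T → WithTop L × WithTop L → ℝ := fun q g =>
    if k < q.lev ∧ made m z q ∧ tq (k + 10) q.J.card ≤ cnt q.J g.1 g.2
      then 2 * price q.lev q.J.card else 0
  have h1 : ∑ g ∈ G, wgt P k m z g = (P.map fun q => ∑ g ∈ G, w q g).sum :=
    WGT_.sum_swap G w P
  have h2 : (P.map fun q => ∑ g ∈ G, w q g).sum ≤ (P.map fun q => 2 ^ (k + 11) * con q z).sum := by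
    refine List.sum_le_sum fun q hq => ?_
    by_cases h : k < q.lev ∧ made m z q
    · have hz : z ∈ q.Q := h.2.2
      obtain ⟨-, -, -, h5, h6, -⟩ := (hP q hq).2 z hz
      have hJ : Gts q.J := ⟨fun g hg => (h5 g hg).2, h6⟩
      have h7 := WGT_.card_le q.J G (k + 10) hJ hG
      have h8 : ∑ g ∈ G, w q g =
          ((G.filter fun g => tq (k + 10) q.J.card ≤ cnt q.J g.1 g.2).card : ℝ) *
            (2 * price q.lev q.J.card) := by
        rw [← nsmul_eq_mul, ← Finset.sum_const, Finset.sum_filter]
        refine Finset.sum_congr rfl fun g _ => ?_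
        refine if_congr ?_ rfl rfl
        tauto
      have h9 : con q z = price q.lev q.J.card := if_pos hz
      have h10 : ((G.filter fun g => tq (k + 10) q.J.card ≤ cnt q.J g.1 g.2).card : ℝ) ≤
          2 ^ (k + 10) := by exact_mod_cast h7
      rw [h8, h9, show (2 : ℝ) ^ (k + 11) = 2 ^ (k + 10) * 2 by ring, mul_assoc]
      have := price_nonneg q.lev q.J.card
      gcongr
    · have h8 : ∑ g ∈ G, w q g = 0 := by
        refine Finset.sum_eq_zero fun g _ => ?_
        refine if_neg ?_
        tauto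
      rw [h8]
      have := con_nonneg q z
      positivity
  have h3 : (P.map fun q => 2 ^ (k + 11) * con q z).sum = 2 ^ (k + 11) * cost P z := by
    unfold cost
    rw [List.sum_map_mul_left]
  have h4 : cost P z < 16 := by
    refine (hc z).trans_le ?_
    unfold cc
    have : (0 : ℝ) < (1 / 2) ^ k := by positivity
    linarith
  have h5 : (2 : ℝ) ^ (k + 18) * (1 / 8) ≤ ∑ g ∈ G, wgt P k m z g := by
    have h6 : ∑ _g ∈ G, (1 / 8 : ℝ) ≤ ∑ g ∈ G, wgt P k m z g :=
      Finset.sum_le_sum fun g hg => (hne g hg).le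
    rw [Finset.sum_const, hcard, nsmul_eq_mul] at h6
    exact_mod_cast h6
  rw [h1] at h5
  have h6 := h5.trans h2
  rw [h3] at h6
  have h7 : (2 : ℝ) ^ (k + 18) * (1 / 8) = 2 ^ (k + 11) * 16 := by ring
  rw [h7] at h6
  have h8 : (16 : ℝ) ≤ cost P z := le_of_mul_le_mul_left h6 (by positivity)
  linarith

end SNB
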