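import Pool.Agent.SNB.P_PS
import Pool.Agent.SNB.P_PABC
import Pool.Agent.SNB.P_PD
import Pool.Agent.SNB.P_STC
import Pool.Agent.SNB.P_EE
import Pool.Agent.SNB.P_DJ
import Pool.Agent.SNB.P_DPL
import Pool.Agent.SNB.P_DPN
import Pool.Agent.SNB.P_GAP
import Pool.Agent.SNB.P_WGT
import Pool.Agent.SNB.P_CHO
import Pool.Agent.SNB.P_ATB
import Pool.Agent.SNB.P_ATS
import Pool.Agent.SNB.P_PSI
import Pool.Agent.SNB.P_ALV
import Pool.Agent.SNB.P_RNA
import Pool.Agent.SNB.P_RNB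
import Pool.Agent.SNB.P_LBS
import Pool.Agent.SNB.P_LB
import Pool.Agent.SNB.P_PHB
import Pool.Agent.SNB.P_PHP
import Pool.Agent.SNB.P_PHK
import Pool.Agent.SNB.P_PH8
import Pool.Agent.SNB.P_F1P
import Pool.Agent.SNB.P_FIN
import Pool.Agent.SNB.P_F1
import Pool.Agent.SNB.P_PU
import Pool.Agent.SNB.P_GP1
import Pool.Agent.SNB.P_GCT
import Pool.Agent.SNB.P_GC1
import Pool.Agent.SNB.P_GD1
import Pool.Agent.SNB.P_GD2
import Pool.Agent.SNB.P_GD3
import Pool.Agent.SNB.P_GC2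
import Pool.Agent.SNB.P_GF
import Pool.Agent.SNB.P_CPT
import Pool.Agent.SNB.P_CNT
import Pool.Agent.SNB.P_STB
import Pool.Agent.SNB.P_PFI
import Pool.Agent.SNB.P_NUT
import Pool.Agent.SNB.P_NUB
import Pool.Agent.SNB.P_NF1
import Pool.Agent.SNB.P_NPU
import Pool.Agent.SNB.P_HIT
import Pool.Agent.SNB.P_GM
import Pool.Agent.SNB.P_G
import Pool.Agent.SNB.P_KEB
import Pool.Agent.SNB.P_KEY
import Pool.Agent.SNB.P_GAT
import Pool.Agent.SNB.P_BSE
import Pool.Agent.SNB.P_ITG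
import Pool.Agent.SNB.P_EXR
import Pool.Agent.SNB.P_EXS
import Pool.Agent.SNB.P_EX0
import Pool.Agent.SNB.P_EX
import Pool.Agent.SNB.P_SUBM

/-!
# MP_3e8648_lc, case x = b: the submeasure (Part I), assembly (helper56)
-/

set_option autoImplicit false

namespace SNB

/-- the result of Part I: an exhaustive submeasure with the hitting property on the product of
finite nonempty sets over any well-order -/
theorem subm : T_SUBM := by
  have hPS : T_PS := p_PS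
  have hPA : T_PA := p_PA'
  have hPB : T_PB := p_PB'
  have hPC : T_PC := p_PC'
  have hPD : T_PD := p_PD
  have hSTC : T_STC := p_STC
  have hEE : T_EE := p_EE
  have hDPL : T_DPL := p_DPL hPS hPA
  have hDPN : T_DPN := p_DPN hPS hPA
  have hGAP : T_GAP := p_GAP hDPL hEE hSTC hPC
  have hWGT : T_WGT := p_WGT
  have hCHO : T_CHO := p_CHO hEE hSTC hWGT
  have hATB : T_ATB := p_ATB hDPL hEE hSTC hPC
  have hATS : T_ATS := p_ATS
  have hPSI : T_PSI := p_PSI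
  have hALV : T_ALV := p_ALV hPB
  have hRNA : T_RNA := p_RNA hGAP hPSI hALV
  have hRNB : T_RNB := p_RNB hCHO hGAP hATB hATS hPSI hALV
  have hLBS : T_LBS := p_LBS hRNA hRNB
  have hLB : T_LB := p_LB hLBS
  have hPHB : T_PHB := p_PHB
  have hPHP : T_PHP := p_PHP
  have hPHK : T_PHK := p_PHK
  have hPH8 : T_PH8 := p_PH8 hLB hPHP
  have hF1P : T_F1P := p_F1P
  have hFIN : T_FIN := p_FIN
  have hF1 : T_F1 := p_F1 hF1P hFIN hPHP hPHB
  have hPU : T_PU := p_PU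
  have hGP1 : T_GP1 := p_GP1 hDPN hEE
  have hGCT : T_GCT := p_GCT hPB hSTC
  have hGC1 : T_GC1 := p_GC1 hDPL hGCT
  have hGD1 : T_GD1 := p_GD1 hDPL hGCT
  have hGD2 : T_GD2 := p_GD2 hDPL hGCT
  have hGD3 : T_GD3 := p_GD3 hDPL hGCT
  have hGC2 : T_GC2 := p_GC2 hGD1 hGD2 hGD3 hPHP hPD
  have hGF : T_GF := p_GF hGP1 hGC1 hGC2 hGCT hLB hPHP
  have hCPT : T_CPT := p_CPT
  have hCNT : T_CNT := p_CNT
  have hSTB : T_STB := p_STB
  have hPFI : T_PFI := p_PFI hSTB hCPT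
  have hNUT : T_NUT := p_NUT hPHB
  have hNUB : T_NUB := p_NUB hNUT hPHB hPHK hPH8
  have hNF1 : T_NF1 := p_NF1 hNUT hF1 hFIN
  have hNPU : T_NPU := p_NPU hNUT hFIN hPHK hPU
  have hHIT : T_HIT := p_HIT hPU hNUT
  have hGM : T_GM := p_GM hGF hNUT hCPT
  have hG : T_G := p_G hGM hNUB hPD
  have hKEB : T_KEB := p_KEB hSTB
  have hKEY : T_KEY := p_KEY hKEB hG hNF1 hNUB hPD
  have hGAT : T_GAT := p_GAT hKEY hCNT hPFI hNF1 hNUB
  have hBSE : T_BSE := p_BSE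
  have hITG : T_ITG := p_ITG hGAT hBSE
  have hEXR : T_EXR := p_EXR hITG hNPU hNUB
  have hEXS : T_EXS := p_EXS
  have hEX0 : T_EX0 := p_EX0
  have hEX : T_EX := p_EX hEXR hEXS hEX0 hNUB
  exact p_SUBM hEX hHIT hNUB

end SNB
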