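import Pool.Agent.SNB.Targets2
import Pool.Agent.SNC.T1

/-!
# MP_3e8648_lc, case x = b: the result of Part I in the form used in Part II (helper56)
-/

set_option autoImplicit false

namespace SNB

theorem cl_of_snc {K : Type} [LinearOrder K] {T : K → Type} {S : Set K}
    {X : Set (∀ k, T k)} (h : Pool.Agent.SNC.Cl S X) : Cl S X := by
  obtain ⟨F, h1, h2⟩ := h
  exact ⟨F, fun l hl => h1 hl, fun z y hzy => h2 z y hzy⟩

/-- the interface between Part I and Part II -/
theorem p_BRG (h : T_SUBM) : Pool.Agent.SNC.T_SUBM := by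
  intro K _ _ T _ _
  obtain ⟨μ, h0, h1, h2, h3, h4, h5, h6⟩ := h K T
  refine ⟨μ, fun k => 2 ^ parD k, ⟨fun a _ => (h2 a).1, h0, fun a b _ _ hab => h3 a b hab,
    fun a b _ _ => h4 a b, by linarith, ?_⟩, ?_⟩
  · intro E hE hd δ hδ
    obtain ⟨N, hN⟩ := h5 E (fun i => cl_of_snc (hE i)) hd δ hδ
    exact ⟨N, fun i hi => (hN i hi).le⟩
  · intro j I hI τ hτ
    refine h6 j I τ hI ?_
    intro i hi z y hzy
    obtain ⟨F, h7, h8⟩ := hτ i hi (τ i y)
    exact (h8 z y fun l hl => hzy l (h7 hl)).2 rfl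

end SNB
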