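import Pool.Agent.SNB.Targets1

set_option autoImplicit false

namespace SNB

open Classical

namespace GC2_

theorem Cum_le_cost {L : Type} [LinearOrder L] {T : L → Type} (P : List (Pur T))
    (m n t : WithTop L) (z : ∀ l, T l) : Cum P m n t z ≤ cost P z := by
  unfold Cum cost
  apply List.sum_le_sum
  intro q _
  unfold con
  by_cases h : z ∈ q.Q
  · rw [if_pos h]
    split_ifs
    · exact le_rfl
    · exact price_nonneg _ _
  · rw [if_neg h, if_neg (fun h' => h h'.2.2)]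

theorem Cum_congr {L : Type} [LinearOrder L] {T : L → Type} {P : List (Pur T)}
    {m n t : WithTop L} {z z' : ∀ l, T l} (hP : ∀ q ∈ P, DLt q.tm q.Q) (h : agr t z z') :
    Cum P m n t z = Cum P m n t z' := by
  unfold Cum
  congr 1
  apply List.map_congr_left
  intro q hq
  have : (Early m n q ∧ q.tm ≤ t ∧ z ∈ q.Q) ↔ (Early m n q ∧ q.tm ≤ t ∧ z' ∈ q.Q) := by
    constructor
    · rintro ⟨h1, h2, h3⟩
      exact ⟨h1, h2, ((hP q hq).iff (agr_mono h2 h)).1 h3⟩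
    · rintro ⟨h1, h2, h3⟩
      exact ⟨h1, h2, ((hP q hq).iff (agr_mono h2 h)).2 h3⟩
  by_cases h1 : Early m n q ∧ q.tm ≤ t ∧ z ∈ q.Q
  · rw [if_pos h1, if_pos (this.1 h1)]
  · rw [if_neg h1, if_neg (fun h2 => h1 (this.2 h2))]

theorem cc_ge (r : ℕ) : 12 ≤ cc (r + 1) := by
  unfold cc
  have : ((1 : ℝ) / 2) ^ r ≤ 1 := pow_le_one₀ (by norm_num) (by norm_num)
  rw [pow_succ]
  linarith

end GC2_

open GC2_ in
theorem p_GC2 (hGD1 : T_GD1) (hGD2 : T_GD2) (hGD3 : T_GD3) (hPHP : T_PHP) (hPD : T_PD) :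
    T_GC2 := by
  intro L _ T p r m n s P A A' z1 b δ hP hLB hδ hδ' hb hb' hc hms hsn hAA' hA' hphi hF hCum
  obtain ⟨-, hβ0, hβ1⟩ := hPD r
  have hc16 : b + 2 * δ ≤ 16 := by linarith
  obtain ⟨W1, hW1, hW1c, hW1p⟩ := hGD1 L T p r m n s P z1 (b + 2 * δ) hP hc hc16 hms hsn hF
  obtain ⟨W3, hW3, hW3c, hW3p⟩ := hGD3 L T p r m n s P z1 (b + 2 * δ) hP hc hc16 hms hsn hF
  have hcost : ∀ z, cost (W1 ++ W3) z < cc (r + 1) := by
    intro z
    rw [cost_append]
    have h1 := hW1c z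
    have h3 := hW3c z
    have h4 := cc_ge r
    nlinarith
  obtain ⟨y, hy⟩ := hLB s (W1 ++ W3) (hW1.append hW3) hcost
  rw [cov_append] at hy
  have hy1 : y ∉ cov W1 := fun h => hy (Or.inl h)
  have hy3 : y ∉ cov W3 := fun h => hy (Or.inr h)
  have hz'P : glue s z1 y ∉ cov P := fun h => hy3 (hW3p y h)
  have hz'A : glue s z1 y ∉ A := fun h => hz'P (hA' (hAA' h))
  have hph := hphi _ hz'A
  have hagr : agr s z1 (glue s z1 y) := agr_glue s z1 y
  have hCeq := Cum_congr (P := P) (m := m) (n := n) (fun q hq => (hP q hq).1) hagr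
  have hCum' : 4 * δ + 5 * bet r < Cum P m n s (glue s z1 y) := by
    rw [← hCeq]
    exact hCum
  obtain ⟨W2, hW2, hW2c, hW2p⟩ := hGD2 L T p r m n s P (glue s z1 y) (b + 2 * δ)
    (4 * δ + 5 * bet r) hP hc hc16 hms hsn hCum' (hW1p y hy1)
  have hpos : 0 < (b + 2 * δ) - (4 * δ + 5 * bet r) := by
    have h1 := Cum_le_cost P m n s (glue s z1 y)
    have h2 := hc (glue s z1 y)
    linarith
  have hs : 0 ≤ (1 + bet r) * ((b + 2 * δ) - (4 * δ + 5 * bet r)) := by positivity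
  have hle := (hPHP L T p (r + 1) n (fib n (glue s z1 y) A') _).1 W2 hs hW2 hW2c
    (fun w hw => hW2p w (hA' hw))
  nlinarith

end SNB
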