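import Pool.Agent.SNB.Targets2

/-!
# MP_3e8648_lc, case x = b: iteration of the gates (helper95)
-/

set_option autoImplicit false

namespace SNB

open Classical Filter Topology

theorem p_ITG (hG : T_GAT) (hB : T_BSE) : T_ITG := by
  intro L _ T _ _ r m l E hml hlim hCl hdis hex J
  induction J with
  | zero =>
    refine ⟨fun _ => m, rfl, fun j hj => absurd hj (Nat.not_lt_zero j), hml, 0, fun i _ =>
      ⟨fun _ => ∅, fun j hj => absurd hj (Nat.not_lt_zero j)⟩⟩
  | succ J ih =>
    obtain ⟨t, ht0, htlt, htl, i0, hi0⟩ := ih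
    have hmt : ∀ j, j ≤ J → m ≤ t j := by
      intro j
      induction j with
      | zero => intro _; exact ht0.ge
      | succ j ihj =>
        intro hj
        exact (ihj (by omega)).trans (htlt j (by omega)).le
    obtain ⟨m1', h1, h2⟩ := hlim (t J) htl
    obtain ⟨S, b, hS, hbm, hb0, hbl, hbE⟩ := hB L T m (t J) l E (hmt J le_rfl) htl hlim hCl
    obtain ⟨m2, hm2, hm2l, i1, hi1⟩ := hG L T r m (t J) m1' l b S E hS (hmt J le_rfl) h1 h2 hbm
      hb0 hbl hbE hdis (hex m (t J) htl) (fun N => hex (t J) (b N) (hbl N))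
    have e1 : ∀ j, j ≤ J → (if j ≤ J then t j else m2) = t j := fun j hj => if_pos hj
    have e2 : (if J + 1 ≤ J then t (J + 1) else m2) = m2 := if_neg (by omega)
    refine ⟨fun j => if j ≤ J then t j else m2, ?_, ?_, ?_, max i0 i1, ?_⟩
    · show (if 0 ≤ J then t 0 else m2) = m
      rw [e1 0 (Nat.zero_le J), ht0]
    · intro j hj
      show (if j ≤ J then t j else m2) < (if j + 1 ≤ J then t (j + 1) else m2)
      rcases Nat.lt_or_ge j J with h | h
      · rw [e1 j h.le, e1 (j + 1) h]
        exact htlt j h
      · have hj' : j = J := by omega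
        subst hj'
        rw [e1 j le_rfl, e2]
        exact hm2
    · show (if J + 1 ≤ J then t (J + 1) else m2) < l
      rw [e2]
      exact hm2l
    · intro i hi
      obtain ⟨W, hW⟩ := hi0 i ((le_max_left _ _).trans hi)
      obtain ⟨W1, hW1⟩ := hi1 i ((le_max_right _ _).trans hi)
      refine ⟨fun j => if j < J then W j else W1, fun j hj => ?_⟩
      show Cl (Iv m (if j + 1 ≤ J then t (j + 1) else m2)) (if j < J then W j else W1) ∧
        (∀ z, 1 < nu (r + 1) (if j ≤ J then t j else m2)
          (fib (if j ≤ J then t j else m2) z (if j < J then W j else W1))) ∧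
        nu (r + 1) m (E i ∩ (if j < J then W j else W1)) ≤ 3 * eps r
      rcases Nat.lt_or_ge j J with h | h
      · rw [if_pos h, e1 j h.le, e1 (j + 1) h]
        exact hW j h
      · have hj' : j = J := by omega
        subst hj'
        rw [if_neg (lt_irrefl j), e1 j le_rfl, e2]
        exact hW1

end SNB
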