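import Pool.Agent.SNB.Targets1

/-!
# SNB: the price with fewer gates (target `T_PS`)
-/

set_option autoImplicit false

namespace SNB

open Classical

namespace PS_

theorem lt_mul_tq (e N : ℕ) : N < 2 ^ e * tq e N := by
  unfold tq
  have h := Nat.lt_mul_div_succ N (show 0 < 2 ^ e by positivity)
  exact h

theorem log_le (e N : ℕ) : Nat.log 2 N ≤ Nat.log 2 (tq e N) + e := by
  rcases Nat.eq_zero_or_pos N with h0 | h0
  · subst h0
    simp
  · have h1 : tq e N < 2 ^ (Nat.log 2 (tq e N) + 1) := Nat.lt_pow_succ_log_self (by norm_num) _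
    have h2 : N < 2 ^ (Nat.log 2 (tq e N) + e + 1) := by
      calc N < 2 ^ e * tq e N := lt_mul_tq e N
        _ ≤ 2 ^ e * 2 ^ (Nat.log 2 (tq e N) + 1) := Nat.mul_le_mul_left _ h1.le
        _ = 2 ^ (Nat.log 2 (tq e N) + e + 1) := by ring
    have h3 := Nat.log_lt_of_lt_pow (b := 2) h0.ne' h2
    omega

end PS_

theorem p_PS : T_PS := by
  intro k e N
  have hA : (0 : ℝ) < (parA k : ℝ) := by exact_mod_cast parA_pos k
  have h1 : ((parD k - Nat.log 2 (tq e N) : ℕ) : ℝ) ≤
      ((parD k - Nat.log 2 N : ℕ) : ℝ) + (e : ℝ) := by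
    have := PS_.log_le e N
    have h2 : parD k - Nat.log 2 (tq e N) ≤ (parD k - Nat.log 2 N) + e := by omega
    exact_mod_cast h2
  have h3 : (1 / 2 : ℝ) ^ k ≤ price k N := le_price k N
  have h4 : 0 ≤ (e : ℝ) / (parA k : ℝ) := by positivity
  have h5 : price k (tq e N) ≤ price k N + (e : ℝ) / (parA k : ℝ) * (1 / 2 : ℝ) ^ k := by
    unfold price
    have h6 : ((parD k - Nat.log 2 (tq e N) : ℕ) : ℝ) / (parA k : ℝ) ≤
        ((parD k - Nat.log 2 N : ℕ) : ℝ) / (parA k : ℝ) + (e : ℝ) / (parA k : ℝ) := by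
      rw [← add_div]
      exact div_le_div_of_nonneg_right h1 hA.le
    have h7 : (0 : ℝ) < (1 / 2 : ℝ) ^ k := by positivity
    nlinarith
  have h8 := mul_le_mul_of_nonneg_left h3 h4
  linarith

end SNB
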