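import Pool.Agent.SNB.Targets1

set_option autoImplicit false

namespace SNB

open Classical

theorem RNB_wgt {L : Type} [LinearOrder L] {T : L → Type} {p k : ℕ} {m0 m : WithTop L}
    {z z1 : ∀ l, T l} {P : List (Pur T)} (hP : Plan m0 k p P) (h : agr m z z1)
    (g : WithTop L × WithTop L) : wgt P k m z1 g = wgt P k m z g := by
  unfold wgt
  congr 1
  apply List.map_congr_left
  intro q hq
  have h1 : made m z1 q ↔ made m z q := (made_iff (hP q hq).1 h).symm
  simp only [h1]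

/-- the attempt phase, both kinds of gates -/
theorem RNB_att (hATB : T_ATB) (hATS : T_ATS) (L : Type) [LinearOrder L] (T : L → Type) (p k : ℕ)
    (m0 m : WithTop L) (z : ∀ l, T l) (P : List (Pur T)) (q1 : Pur T)
    (g : WithTop L × WithTop L) (hP : Plan m0 k p P) (hmg : m ≤ g.1) (hg : g.1 < g.2)
    (hd : (Single g.1 g.2 ∧ (Esc q1.X g.1 g.2 z).Nonempty) ∨
      Big p (k + 1) g.1 (Esc q1.X g.1 g.2 z))
    (hw : wgt P k m z g ≤ 1 / 8) :
    ∃ (m'' : WithTop L) (z'' : ∀ l, T l), g.1 ≤ m'' ∧ m'' ≤ g.2 ∧ agr g.1 z z'' ∧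
      (∀ q ∈ P, q.lev = k → z'' ∈ q.Q → g.1 < q.tm → q.tm ≤ m'' → q.tm = m'') ∧
      (esc m'' z'' q1 ∨ (∃ q ∈ P, q.lev = k ∧ z'' ∈ q.Q ∧ g.1 < q.tm ∧ q.tm ≤ m'') ∨
        7 / 16 ≤ Newp P k m m'' z'') ∧
      ∀ q ∈ P, k < q.lev → made m'' z'' q →
        esc m'' z'' q ∨ stt q.J g.1 m'' ≤ tq (k + 10) q.J.card := by
  rcases hd with ⟨h1, h2⟩ | h
  · obtain ⟨z'', ha, hb, hc, hd⟩ := hATS L T p k m0 z P q1 g hP h1 h2
    exact ⟨g.2, z'', hg.le, le_rfl, ha, hb, Or.inl hc, fun q hq hk hm => Or.inr (hd q hq hk hm)⟩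
  · exact hATB L T p k m0 m z P q1 g hP hmg hg h hw

/-- `T_RNB` from `T_CHO`, `T_GAP`, `T_ATB`, `T_ATS`, `T_PSI`, `T_ALV` -/
theorem p_RNB (hCHO : T_CHO) (hGAP : T_GAP) (hATB : T_ATB) (hATS : T_ATS) (hPSI : T_PSI)
    (hALV : T_ALV) : T_RNB := by
  intro L _ T p k i m0 m z P hL hP hc hInv hi hex
  have hgate : ∀ q ∈ P, ∀ y ∈ q.Q, ∀ t : WithTop L, t ≤ q.tm → ∀ g ∈ q.J, t ≤ g.1 := by
    intro q hq y hy t ht g hg
    exact ht.trans (((hP q hq).2 y hy).2.2.2.1 g hg).1
  obtain ⟨q1, hq1, hk1, hal1, g, hgJ, hmg, e1, hge1, hstt, hw⟩ :=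
    hCHO L T p k m0 m z P hP hc (fun q hq hk hal =>
      (hALV L T p k i m0 m z P hP hc (by omega) q hq hal.1.2).1 hk (hInv.2 q hq hk hal)) hex
  have hg12 : g.1 < g.2 := (((hP q1 hq1).2 z hal1.1.2).2.2.2.1 g hgJ).2
  obtain ⟨m1, z1, hm1, hm1g, hag1, ha1, hb1, hc1⟩ := hGAP L T p k m0 m g.1 z P hL hP hc hmg
  by_cases hst : ∃ q ∈ P, q.lev = k ∧ z1 ∈ q.Q ∧ m < q.tm ∧ q.tm = m1
  · -- a purchase of level `k` is made in the gap phase
    refine ⟨m1, z1, hm1, hag1, ⟨?_, ?_⟩, ?_⟩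
    · intro q hq hk hal
      have hs : stt q.J m m1 ≤ tq (k + 10) q.J.card := by
        rcases hc1 q hq hk hal.1 with h | h
        · exact absurd h hal.2
        · exact h
      have hb : bef q.J m ≤ i * tq (k + 10) q.J.card := by
        rcases lt_or_ge m q.tm with h | h
        · rw [bef_zero (hgate q hq z1 hal.1.2 m h.le)]
          exact Nat.zero_le _
        · exact hInv.1 q hq hk ⟨⟨h, ((hP q hq).1.iff (agr_mono h hag1)).2 hal.1.2⟩,
            fun he => hal.2 (esc_mono hm1 hag1 he)⟩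
      rw [bef_add_stt q.J hm1]
      calc bef q.J m + stt q.J m m1 ≤ i * tq (k + 10) q.J.card + tq (k + 10) q.J.card :=
            Nat.add_le_add hb hs
        _ = (i + 1) * tq (k + 10) q.J.card := by ring
        _ ≤ (i + 2) * tq (k + 10) q.J.card := Nat.mul_le_mul_right _ (by omega)
    · intro q hq hk hal
      rcases lt_or_ge m q.tm with h | h
      · have he : q.tm = m1 := ha1 q hq hk hal.1.2 h hal.1.1
        rw [bef_zero (hgate q hq z1 hal.1.2 m1 he.ge)]
        exact Nat.zero_le _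
      · have hal' : alive m z q := ⟨⟨h, ((hP q hq).1.iff (agr_mono h hag1)).2 hal.1.2⟩,
            fun he => hal.2 (esc_mono hm1 hag1 he)⟩
        have hs : stt q.J m m1 ≤ 2 ^ (k + 18) + 1 :=
          (stt_mono (hm1g.trans (hg12.le.trans hge1))).trans (hstt q hq hk hal')
        rw [bef_add_stt q.J hm1]
        calc bef q.J m + stt q.J m m1 ≤ i * (2 ^ (k + 18) + 1) + (2 ^ (k + 18) + 1) :=
              Nat.add_le_add (hInv.2 q hq hk hal') hs
          _ = (i + 1) * (2 ^ (k + 18) + 1) := by ring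
          _ ≤ (i + 2) * (2 ^ (k + 18) + 1) := Nat.mul_le_mul_right _ (by omega)
    · apply hPSI L T p k m0 m m1 z z1 P hP hm1 hag1
      obtain ⟨q, hq, hk, hzQ, hlt, he⟩ := hst
      exact Or.inr (Or.inl ⟨q, hq, hk, hzQ, hlt, he.le⟩)
  · have hm1' : m1 = g.1 := by
      rcases hb1 with h | h
      · exact h
      · exact absurd h hst
    subst hm1'
    have hz1 : z1 ∈ q1.Q := ((hP q1 hq1).1.iff (agr_mono hal1.1.1 hag1)).1 hal1.1.2
    have hd := ((hP q1 hq1).2 z1 hz1).2.2.2.2.2 g hgJ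
    rw [hk1] at hd
    obtain ⟨m'', z'', hm, hmg2, hag2, ha2, hb2, hc2⟩ :=
      RNB_att hATB hATS L T p k m0 m z1 P q1 g hP hmg hg12 hd
        (by rw [RNB_wgt hP hag1]; exact hw)
    have hmm : m ≤ m'' := hmg.trans hm
    have hag : agr m z z'' := agr_trans hag1 (agr_mono hmg hag2)
    -- purchases alive at `(m'',z'')` and made before `m` are alive at `(m,z)`
    have hold : ∀ q ∈ P, alive m'' z'' q → q.tm ≤ m → alive m z q := by
      intro q hq hal h
      exact ⟨⟨h, ((hP q hq).1.iff (agr_mono h hag)).2 hal.1.2⟩,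
        fun he => hal.2 (esc_mono hmm hag he)⟩
    refine ⟨m'', z'', hmm, hag, ⟨?_, ?_⟩, ?_⟩
    · intro q hq hk hal
      have hs2 : stt q.J g.1 m'' ≤ tq (k + 10) q.J.card := by
        rcases hc2 q hq hk hal.1 with h | h
        · exact absurd h hal.2
        · exact h
      have hs1 : stt q.J m g.1 ≤ tq (k + 10) q.J.card := by
        rcases lt_or_ge g.1 q.tm with h | h
        · rw [stt_zero (hgate q hq z'' hal.1.2 g.1 h.le)]
          exact Nat.zero_le _
        · have hmd : made g.1 z1 q :=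
            ⟨h, ((hP q hq).1.iff (agr_mono h hag2)).2 hal.1.2⟩
          rcases hc1 q hq hk hmd with h' | h'
          · exact absurd (esc_mono hm hag2 h') hal.2
          · exact h'
      have hb : bef q.J m ≤ i * tq (k + 10) q.J.card := by
        rcases lt_or_ge m q.tm with h | h
        · rw [bef_zero (hgate q hq z'' hal.1.2 m h.le)]
          exact Nat.zero_le _
        · exact hInv.1 q hq hk (hold q hq hal h)
      rw [bef_add_stt q.J hm, bef_add_stt q.J hmg]
      calc bef q.J m + stt q.J m g.1 + stt q.J g.1 m''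
          ≤ i * tq (k + 10) q.J.card + tq (k + 10) q.J.card + tq (k + 10) q.J.card :=
            Nat.add_le_add (Nat.add_le_add hb hs1) hs2
        _ = (i + 2) * tq (k + 10) q.J.card := by ring
    · intro q hq hk hal
      rcases lt_or_ge m q.tm with h | h
      · have he : q.tm = m'' := by
          rcases lt_or_ge g.1 q.tm with h' | h'
          · exact ha2 q hq hk hal.1.2 h' hal.1.1
          · have hzq : z1 ∈ q.Q := ((hP q hq).1.iff (agr_mono h' hag2)).2 hal.1.2
            exact absurd ⟨q, hq, hk, hzq, h, ha1 q hq hk hzq h h'⟩ hst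
        rw [bef_zero (hgate q hq z'' hal.1.2 m'' he.ge)]
        exact Nat.zero_le _
      · have hal' := hold q hq hal h
        have hs : stt q.J m m'' ≤ 2 ^ (k + 18) + 1 :=
          (stt_mono (hmg2.trans hge1)).trans (hstt q hq hk hal')
        rw [bef_add_stt q.J hmm]
        calc bef q.J m + stt q.J m m'' ≤ i * (2 ^ (k + 18) + 1) + (2 ^ (k + 18) + 1) :=
              Nat.add_le_add (hInv.2 q hq hk hal') hs
          _ = (i + 1) * (2 ^ (k + 18) + 1) := by ring
          _ ≤ (i + 2) * (2 ^ (k + 18) + 1) := Nat.mul_le_mul_right _ (by omega)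
    · apply hPSI L T p k m0 m m'' z z'' P hP hmm hag
      rcases hb2 with h | ⟨q, hq, hk, hzQ, hlt, hle⟩ | h
      · exact Or.inl ⟨q1, hq1, hk1, hal1, h⟩
      · exact Or.inr (Or.inl ⟨q, hq, hk, hzQ, lt_of_le_of_lt hmg hlt, hle⟩)
      · exact Or.inr (Or.inr h)

end SNB
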