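import Pool.Agent.SNB.Base

/-!
# MP_3e8648_lc, case x = b: targets of Part I, first half (helper56)

Paper proof: ideas row 1723. Parameters: `parA k`, `parD k`, `tq e N = N / 2^e + 1`.
LB = lower bound (section 3), F1 (section 2), GF = finite form of the density lemma (section 5).
-/

set_option autoImplicit false

namespace SNB

open Classical

/-! ## Parameters -/

/-- PS. Prices with fewer gates. Proof: `2^e * tq e N > N`, hence
`Nat.log 2 N ≤ Nat.log 2 (2^e * tq e N) = e + Nat.log 2 (tq e N)` (`tq e N ≥ 1`), so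
`(parD k - log (tq e N) : ℕ) ≤ (parD k - log N : ℕ) + e`; and `(1/2)^k ≤ price k N`. -/
def T_PS : Prop := ∀ k e N : ℕ, price k (tq e N) ≤ (1 + (e : ℝ) / (parA k : ℝ)) * price k N

/-- PA. `parA (k+1) = 2^(k + 9 + parD k)`, `parD k = 2k + 30 + 2^(k+4) * parA k`, and
`n < 2^n`. -/
def T_PA : Prop := Monotone parA ∧ ∀ k, parA (k + 1) = 2 ^ (k + 9 + parD k)

/-- PB. A price `< 16` forces many gates: `price k N < 16` gives
`(parD k - log N : ℕ) < 2^(k+4) * parA k`, so `log N > parD k - 2^(k+4) * parA k = 2k+30`. -/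
def T_PB : Prop := ∀ k N : ℕ, price k N < 16 → 2 ^ (2 * k + 30) ≤ N

/-- PC. `F_k c_k ≤ c_{k+1}` and `F_k ≤ 2` with `F_k = 1 + (k+10)/parA (k+1)`,
`cc k = 16 - 8 (1/2)^k`: `parA (k+1) ≥ 2^(3k+39)`. -/
def T_PC : Prop := ∀ k : ℕ,
  (1 + ((k + 10 : ℕ) : ℝ) / (parA (k + 1) : ℝ)) * cc k ≤ cc (k + 1) ∧
  1 + ((k + 10 : ℕ) : ℝ) / (parA (k + 1) : ℝ) ≤ 2

/-- the number `beta_r` -/
noncomputable def bet (r : ℕ) : ℝ := 7 / (parA (r + 1) : ℝ)

/-- the number `eps'_r` -/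
noncomputable def eps (r : ℕ) : ℝ := (1 / 2) ^ r / (8 * 2 ^ parD r)

/-- PD. `parA (r+1) = 2^(r + 9 + parD r)`, `parD r ≥ 30`; `49 ≤ 64`. -/
def T_PD : Prop := ∀ r : ℕ, 7 * bet r ≤ eps r ∧ 0 < bet r ∧ bet r ≤ 1 / 100

/-! ## Gates -/

/-- STC. At most one gate starts before `n` and ends after `n`: two such gates `g ≠ h` have
`g.2 ≤ h.1 < n < g.2` or the symmetric inequality. -/
def T_STC : Prop := ∀ (L : Type) [LinearOrder L] (J : Finset (WithTop L × WithTop L))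
  (m n : WithTop L), Gts J → stt J m n ≤ cnt J m n + 1

/-- EE. The end of the `t`-th gate. Proof: among the ends `g.2` of the gates `g ∈ ins J m n` with
`t ≤ cnt J m g.2` (nonempty: the largest end `b` has `cnt J m b = cnt J m n`) take the least `e`.
If `x < e` and `t ≤ cnt J m x`, then the largest end `b ≤ x` in `ins J m x` contradicts the
choice. `cnt J m e ≤ t`: two gates of `J` cannot have the same end; if some gate of
`ins J m e` ends before `e`, let `x < e` be the largest such end: `cnt J m e ≤ cnt J m x + 1`,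
otherwise `cnt J m e ≤ 1`. -/
def T_EE : Prop := ∀ (L : Type) [LinearOrder L] (J : Finset (WithTop L × WithTop L))
  (m n : WithTop L) (t : ℕ), Gts J → 1 ≤ t → t ≤ cnt J m n →
  ∃ e, m < e ∧ e ≤ n ∧ cnt J m e = t ∧ ∀ x < e, cnt J m x < t

/-- DJ. A family of gates has at least `t` gates inside at most `|J| / t` intervals of a family
of disjoint intervals: a gate `x` of `J` (with `x.1 < x.2`) is inside at most one of them. -/
def T_DJ : Prop := ∀ (L : Type) [LinearOrder L] (J G : Finset (WithTop L × WithTop L)) (t : ℕ),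
  Gts J → Gts G → t * (G.filter fun g => t ≤ cnt J g.1 g.2).card ≤ J.card

/-! ## Derived plans -/

/-- DPL. Derived plan at the state `(σ,z)`. Take
`W = P.map fun q => if cond q then der σ z (R q) (fib σ z (hull (en q) q.X)) (ins q.J σ (en q)) q
else der σ z ∅ q.X q.J q`. Check `OK σ k' p`: the set `Q' = {y | glue σ z y ∈ q.Q ∧ y ∈ R q}`
depends only on the coordinates below `max q.tm σ`; gates `g` in `ins q.J σ (en q)` have
`σ ≤ g.1`, `q.tm ≤ g.1`, `g.2 ≤ en q`, and by `Esc_fib`, `Esc_hull` the escape sets at `y` are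
those of `q` at `glue σ z y`. Cost: `price q.lev (cnt ..) ≤ price q.lev (tq e |J|)`
(`price_anti`) `≤ (1 + e / parA q.lev) price q.lev |J|` (T_PS) and `parA` is monotone. -/
def T_DPL : Prop := ∀ (L : Type) [LinearOrder L] (T : L → Type) (p k k' e : ℕ)
    (m0 σ : WithTop L) (z : ∀ l, T l) (P : List (Pur T)) (cond : Pur T → Prop)
    (en : Pur T → WithTop L) (R : Pur T → Set (∀ l, T l)),
    Plan m0 k p P →
    (∀ q ∈ P, cond q → k' ≤ q.lev ∧ tq e q.J.card ≤ cnt q.J σ (en q)) →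
    (∀ q ∈ P, DLt (max q.tm σ) (R q)) →
    ∃ W : List (Pur T), Plan σ k' p W ∧
      (∀ y, cost W y ≤ (P.map fun q => if cond q ∧ glue σ z y ∈ q.Q ∧ y ∈ R q then
        (1 + (e : ℝ) / (parA k' : ℝ)) * price q.lev q.J.card else 0).sum) ∧
      ∀ y, y ∉ cov W → ∀ q ∈ P, cond q → glue σ z y ∈ q.Q → y ∈ R q →
        glue σ z y ∉ hull (en q) q.X

/-- DPN. The same without a state: take
`W = P.map fun q => if cond q then ⟨q.lev, q.tm, q.Q ∩ R q, hull (en q) q.X, ins q.J m (en q)⟩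
else ⟨q.lev, q.tm, ∅, q.X, q.J⟩`. -/
def T_DPN : Prop := ∀ (L : Type) [LinearOrder L] (T : L → Type) (p k e : ℕ)
    (m : WithTop L) (P : List (Pur T)) (cond : Pur T → Prop)
    (en : Pur T → WithTop L) (R : Pur T → Set (∀ l, T l)),
    Plan m k p P →
    (∀ q ∈ P, cond q → tq e q.J.card ≤ cnt q.J m (en q)) →
    (∀ q ∈ P, DLt q.tm (R q)) →
    ∃ W : List (Pur T), Plan m k p W ∧
      (∀ y, cost W y ≤ (P.map fun q => if cond q ∧ y ∈ q.Q ∧ y ∈ R q then
        (1 + (e : ℝ) / (parA k : ℝ)) * price q.lev q.J.card else 0).sum) ∧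
      ∀ y, y ∉ cov W → ∀ q ∈ P, cond q → y ∈ q.Q → y ∈ R q → y ∉ hull (en q) q.X

/-! ## LB: the lower bound -/

/-- GAP. The gap phase. Let `t q = tq (k+10) q.J.card`. `cond q`: `k < q.lev` and there is `e`,
`m < e ≤ m'`, `cnt q.J m e = t q`, `∀ x < e, cnt q.J m x < t q` (choose it: `en q`). Apply T_DPL
with `k' = k+1`, `e = k+10`, `R = univ`, at the state `(m,z)`: the cost of `W` at `y` is at most
`F_k * cost P (glue m z y) < F_k * cc k ≤ cc (k+1)` (T_PC), so by `LBH T p (k+1)` some `y` is not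
in `cov W`. Put `z'' = glue m z y`, and let `m''` be the least element of the finite set of
`m'` and the times `q.tm`, `q ∈ P`, `q.lev = k`, `z'' ∈ q.Q`, `m < q.tm ≤ m'`.
Last clause: let `q.tm ≤ m''`, `z'' ∈ q.Q` (so `q.J` is `Gts` and its gates start at
`q.tm` or later). If `cond q` and `en q ≤ m''`: `z'' ∉ hull (en q) q.X`, use `esc_of_hull`.
If `cond q` and `m'' < en q`: `cnt q.J m m'' < t q` and T_STC. If not `cond q`:
`cnt q.J m m' < t q` by T_EE, so `stt q.J m m'' ≤ stt q.J m m' ≤ t q` by T_STC. -/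
def T_GAP : Prop := ∀ (L : Type) [LinearOrder L] (T : L → Type) (p k : ℕ) (m0 m m' : WithTop L)
    (z : ∀ l, T l) (P : List (Pur T)),
    LBH T p (k + 1) → Plan m0 k p P → (∀ z, cost P z < cc k) → m ≤ m' →
    ∃ (m'' : WithTop L) (z'' : ∀ l, T l), m ≤ m'' ∧ m'' ≤ m' ∧ agr m z z'' ∧
      (∀ q ∈ P, q.lev = k → z'' ∈ q.Q → m < q.tm → q.tm ≤ m'' → q.tm = m'') ∧
      (m'' = m' ∨ ∃ q ∈ P, q.lev = k ∧ z'' ∈ q.Q ∧ m < q.tm ∧ q.tm = m'') ∧
      ∀ q ∈ P, k < q.lev → made m'' z'' q →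
        esc m'' z'' q ∨ stt q.J m m'' ≤ tq (k + 10) q.J.card

/-- WGT. Averaging. If `G` is a family of `2^(k+18)` gates, some `g ∈ G` has weight `≤ 1/8`.
Proof: `∑_{g ∈ G} wgt P k m z g = ∑_q [k < q.lev, made m z q] 2 price(q) *
#{g ∈ G | tq (k+10) |q.J| ≤ cnt q.J g.1 g.2}`; by T_DJ and `|q.J| < 2^(k+10) * tq (k+10) |q.J|`
the number of these `g` is at most `2^(k+10)` (`q.J` is `Gts` because `z ∈ q.Q`); and
`Spent P m z ≤ cost P z < 16`. So the sum is at most `2^(k+15)`. -/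
def T_WGT : Prop := ∀ (L : Type) [LinearOrder L] (T : L → Type) (p k : ℕ) (m0 m : WithTop L)
    (z : ∀ l, T l) (P : List (Pur T)) (G : Finset (WithTop L × WithTop L)),
    Plan m0 k p P → (∀ z, cost P z < cc k) → Gts G → G.card = 2 ^ (k + 18) →
    ∃ g ∈ G, wgt P k m z g ≤ 1 / 8

/-- CHO. Choice of the gate. For every alive `q ∈ P` of level `k` T_EE (with `n = ⊤`,
`t = 2^(k+18)`) gives the end `e q` of its `t`-th gate with `m ≤ g.1`; let `q1` be the one with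
the least `e q`, `e1 = e q1`. For the other ones `stt q.J m e1 ≤ cnt q.J m e1 + 1` (T_STC) and
`cnt q.J m e1 ≤ cnt q.J m (e q) = t`. Apply T_WGT to `G = ins q1.J m e1`. -/
def T_CHO : Prop := ∀ (L : Type) [LinearOrder L] (T : L → Type) (p k : ℕ) (m0 m : WithTop L)
    (z : ∀ l, T l) (P : List (Pur T)),
    Plan m0 k p P → (∀ z, cost P z < cc k) →
    (∀ q ∈ P, q.lev = k → alive m z q → 2 ^ (k + 18) ≤ cnt q.J m ⊤) →
    (∃ q ∈ P, q.lev = k ∧ alive m z q) →
    ∃ q1 ∈ P, q1.lev = k ∧ alive m z q1 ∧ ∃ g ∈ q1.J, m ≤ g.1 ∧ ∃ e1 : WithTop L, g.2 ≤ e1 ∧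
      (∀ q ∈ P, q.lev = k → alive m z q → stt q.J m e1 ≤ 2 ^ (k + 18) + 1) ∧
      wgt P k m z g ≤ 1 / 8

/-- ATB. The attempt phase, gates with a large escape set `C`. Put `m' = g.1`, `n' = g.2`,
`t q = tq (k+10) |q.J|`. `cond q`: `k < q.lev` and there is `e`, `m' < e ≤ n'`,
`cnt q.J m' e = t q`, `∀ x < e, cnt q.J m' x < t q` (choose it: `en q`). For `y` and a time `s`
let `S y s` be the sum of `2 * price q.lev |q.J|` over `q ∈ P` with `cond q`, `q.tm ≤ s`,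
`glue m' z y ∈ q.Q`; `R q = {y | S y (max q.tm m') < 1}` depends only on the coordinates below
`max q.tm m'`. T_DPL (`k' = k+1`, `e = k+10`, state `(m',z)`; `F_k ≤ 2` by T_PC) gives `W` with
cost `< 1` at every `y`: if some term is not zero take among the nonzero terms `q` one with the
largest `max q.tm m'`; all of them are counted in `S y (max q.tm m') < 1`. As `Big p (k+1) m' C`
(`Big_iff`), some `y ∈ C` is not in `cov W`. Put `z'' = glue m' z y` and let `m''` be the least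
element of the finite set consisting of `n'`, the times `q.tm` (`q ∈ P`, `q.lev = k`, `z'' ∈ q.Q`,
`m' < q.tm ≤ n'`), and the times `s = max q.tm m' ≤ n'` (`q ∈ P`) with `1 ≤ S y s`.
Second clause: if `m'' = n'`, use `y ∈ C = Esc q1.X m' n' z`; if `1 ≤ S y m''`: the `q` with
`q.tm ≤ m` contribute at most `wgt P k m z g ≤ 1/8` to `S y m''` (`cond q` implies
`t q ≤ cnt q.J g.1 g.2`, and `z`, `z''` agree below `m' ≥ m`), the others at most
`2 * Newp P k m m'' z''`. Third clause: let `q.tm ≤ m''`, `z'' ∈ q.Q`, `k < q.lev`. Not `cond q`: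
`cnt q.J m' n' < t q` (T_EE), so `stt q.J m' m'' ≤ t q` (T_STC). `cond q` and `y ∈ R q`:
`z'' ∉ hull (en q) q.X`; if `en q ≤ m''` it is escaped, else `cnt q.J m' m'' < t q`, T_STC.
`cond q` and `y ∉ R q`: then `m'' ≤ max q.tm m'`, so `m'' = m'` (`stt_self`) or `m'' = q.tm`
(`stt_zero`, all gates start at `q.tm` or later). -/
def T_ATB : Prop := ∀ (L : Type) [LinearOrder L] (T : L → Type) (p k : ℕ)
    (m0 m : WithTop L) (z : ∀ l, T l) (P : List (Pur T)) (q1 : Pur T)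
    (g : WithTop L × WithTop L),
    Plan m0 k p P → m ≤ g.1 → g.1 < g.2 → Big p (k + 1) g.1 (Esc q1.X g.1 g.2 z) →
    wgt P k m z g ≤ 1 / 8 →
    ∃ (m'' : WithTop L) (z'' : ∀ l, T l), g.1 ≤ m'' ∧ m'' ≤ g.2 ∧ agr g.1 z z'' ∧
      (∀ q ∈ P, q.lev = k → z'' ∈ q.Q → g.1 < q.tm → q.tm ≤ m'' → q.tm = m'') ∧
      (esc m'' z'' q1 ∨ (∃ q ∈ P, q.lev = k ∧ z'' ∈ q.Q ∧ g.1 < q.tm ∧ q.tm ≤ m'') ∨
        7 / 16 ≤ Newp P k m m'' z'') ∧
      ∀ q ∈ P, k < q.lev → made m'' z'' q →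
        esc m'' z'' q ∨ stt q.J g.1 m'' ≤ tq (k + 10) q.J.card

/-- ATS. The attempt phase, gates which are a single coordinate: take `m'' = g.2` and
`z'' = glue g.1 z y` with `y ∈ Esc q1.X g.1 g.2 z`. No time is strictly between `g.1` and `g.2`
except times `≥ g.2` (a time `t` with `g.1 < t < g.2` is an element of `L` in `[g.1,g.2)`, so it
is `g.1`). Last clause: `stt_le_one` and `tq_pos` (`q.J` is `Gts` since `z'' ∈ q.Q`). -/
def T_ATS : Prop := ∀ (L : Type) [LinearOrder L] (T : L → Type) (p k : ℕ)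
    (m0 : WithTop L) (z : ∀ l, T l) (P : List (Pur T)) (q1 : Pur T)
    (g : WithTop L × WithTop L),
    Plan m0 k p P → Single g.1 g.2 → (Esc q1.X g.1 g.2 z).Nonempty →
    ∃ (z'' : ∀ l, T l), agr g.1 z z'' ∧
      (∀ q ∈ P, q.lev = k → z'' ∈ q.Q → g.1 < q.tm → q.tm ≤ g.2 → q.tm = g.2) ∧
      esc g.2 z'' q1 ∧
      ∀ q ∈ P, k < q.lev → made g.2 z'' q → stt q.J g.1 g.2 ≤ tq (k + 10) q.J.card

/-- PSI. The potential. For `q ∈ P` put `f q (m,z) = [q.lev = k, alive] - K [made] price(q)`,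
`K = 2^(k+1) + 3`; `Psi = 16 K + ∑ f`. From `(m,z)` to `(m'',z'')`: a purchase made at `(m,z)` is
made at `(m'',z'')` (`made_mono`), and an escaped one stays escaped (`esc_mono`), so `f` does
not increase, and it drops by `1` if it was alive, of level `k`, and is escaped now. A purchase
made at `(m'',z'')` but not at `(m,z)` has `m < q.tm ≤ m''`, `z'' ∈ q.Q`, level `≥ k` (Plan); if
the level is `k`, `f` changes by at most `1 - K (1/2)^k ≤ -1`, otherwise by
`-K price(q) ≤ -3 price(q)`. In the third case the sum of these is at most `-3 * 7/16`. -/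
def T_PSI : Prop := ∀ (L : Type) [LinearOrder L] (T : L → Type) (p k : ℕ)
    (m0 m m'' : WithTop L) (z z'' : ∀ l, T l) (P : List (Pur T)),
    Plan m0 k p P → m ≤ m'' → agr m z z'' →
    ((∃ q ∈ P, q.lev = k ∧ alive m z q ∧ esc m'' z'' q) ∨
      (∃ q ∈ P, q.lev = k ∧ z'' ∈ q.Q ∧ m < q.tm ∧ q.tm ≤ m'') ∨
      7 / 16 ≤ Newp P k m m'' z'') →
    Psi P k m'' z'' + 1 ≤ Psi P k m z

/-- ALV. Alive purchases have enough gates left. All purchases made at some point have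
`2^(2 lev + 30) ≤ |J|` (`price_lt`, `cc k < 16`, T_PB), `Gts J`, and gates starting at `q.tm`
or later; `|J| = bef J m + cnt J m ⊤`. Level `k`: `bef ≤ 2^(k+8) (2^(k+18)+1)`. Level `> k`:
`bef ≤ 2^(k+8) (|J| / 2^(k+10) + 1) ≤ |J|/4 + 2^(k+8)` and `|J| ≥ 2^(2k+32)`; and
`stt J m ⊤ = cnt J m ⊤` as all gates start before `⊤`. -/
def T_ALV : Prop := ∀ (L : Type) [LinearOrder L] (T : L → Type) (p k i : ℕ) (m0 m : WithTop L)
    (z : ∀ l, T l) (P : List (Pur T)),
    Plan m0 k p P → (∀ z, cost P z < cc k) → i ≤ 2 ^ (k + 8) → ∀ q ∈ P, z ∈ q.Q →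
    (q.lev = k → bef q.J m ≤ i * (2 ^ (k + 18) + 1) → 2 ^ (k + 18) ≤ cnt q.J m ⊤) ∧
    (k < q.lev → bef q.J m ≤ i * tq (k + 10) q.J.card → tq (k + 10) q.J.card < stt q.J m ⊤)

/-- RNA. A round without alive purchase of level `k`: apply T_GAP with `m' = ⊤`. If
`m'' = ⊤` (and no purchase of level `k` has the time `m''`, which is `< ⊤` anyway since it has
gates) then `z'' ∉ cov P`: let `q ∈ P`, `z'' ∈ q.Q`. Level `k`: `q.tm = ⊤` is impossible, so
`q.tm ≤ m`, `q` is made at `(m,z)`, not alive, so escaped, `z'' ∉ q.X`. Level `> k`: it is made at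
`(⊤,z'')`; if it is escaped there then `z'' ∉ q.X` (`esc_notMem`); otherwise
`stt q.J m ⊤ ≤ t q`, it was not escaped at `(m,z)` (`esc_mono`), so it was alive at `(m,z)` or
`m < q.tm`, in both cases `bef q.J m ≤ i * t q` (invariant, resp. `bef = 0`), against
T_ALV. If a purchase of level `k` is made at the time `m''` use T_PSI; the invariant after
`i+1` phases (and so after `i+2`): level `> k`: `bef q.J m'' = bef q.J m + stt q.J m m''`
(`bef_add_stt`; `bef q.J m = 0` if `m < q.tm`), level `k`: it was not alive at `(m,z)`, so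
`m < q.tm`, so `q.tm = m''` and `bef q.J m'' = 0`. -/
def T_RNA : Prop := ∀ (L : Type) [LinearOrder L] (T : L → Type) (p k i : ℕ) (m0 m : WithTop L)
    (z : ∀ l, T l) (P : List (Pur T)),
    LBH T p (k + 1) → Plan m0 k p P → (∀ z, cost P z < cc k) →
    Inv P k i m z → i + 2 ≤ 2 ^ (k + 8) → (∀ q ∈ P, q.lev = k → ¬ alive m z q) →
    (∃ z'', agr m z z'' ∧ z'' ∉ cov P) ∨
    ∃ (m'' : WithTop L) (z'' : ∀ l, T l), m ≤ m'' ∧ agr m z z'' ∧ Inv P k (i + 2) m'' z'' ∧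
      Psi P k m'' z'' + 1 ≤ Psi P k m z

/-- RNB. A round with an alive purchase of level `k`. By the invariant and T_ALV the hypothesis
of T_CHO holds: get `q1, g, e1`. T_GAP from `m` to `g.1` gives `(m1,z1)`. If a purchase `q` of
level `k`, `z1 ∈ q.Q`, `m < q.tm = m1` exists, stop: `(m'',z'') = (m1,z1)`. Otherwise `m1 = g.1`;
`q1` is made at `(g.1,z1)` (`z1 ∈ q1.Q`, so by Plan one of the two kinds of gates occurs at `z1`);
apply T_ATS or T_ATB (with `m`, `z1`, `g`; `wgt P k m z1 g = wgt P k m z g` as `z`, `z1` agree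
below `m`) to get `(m'',z'')` (for T_ATS `m'' = g.2`). Potential: T_PSI (first case with
`q1`). Invariant: let `q` be alive at `(m'',z'')`. `bef q.J m'' = bef q.J m + stt q.J m m''`, and
`stt q.J m m'' ≤ stt q.J m g.1 + stt q.J g.1 m''`. Level `> k`: both are `≤ t q` (T_GAP clause,
resp. T_ATB/T_ATS clause; if `q.tm > g.1` the first is `0`; escaped states stay escaped), and
`bef q.J m ≤ i * t q` if `q.tm ≤ m` (it was alive then), `= 0` if `m < q.tm`. Level `k`: if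
`q.tm ≤ m` it was alive at `(m,z)` and `stt q.J m m'' ≤ stt q.J m e1 ≤ 2^(k+18)+1` since
`m'' ≤ g.2 ≤ e1`; if `m < q.tm` then `q.tm = m''` (clauses of T_GAP, T_ATB), `bef q.J m'' = 0`. -/
def T_RNB : Prop := ∀ (L : Type) [LinearOrder L] (T : L → Type) (p k i : ℕ) (m0 m : WithTop L)
    (z : ∀ l, T l) (P : List (Pur T)),
    LBH T p (k + 1) → Plan m0 k p P → (∀ z, cost P z < cc k) →
    Inv P k i m z → i + 2 ≤ 2 ^ (k + 8) → (∃ q ∈ P, q.lev = k ∧ alive m z q) →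
    ∃ (m'' : WithTop L) (z'' : ∀ l, T l), m ≤ m'' ∧ agr m z z'' ∧ Inv P k (i + 2) m'' z'' ∧
      Psi P k m'' z'' + 1 ≤ Psi P k m z

/-- LBS. One step down. Given `P` from the time `m`, cost `< cc k`, and any point `z`. `Inv` holds
with `i = 0` at `(m,z)` (gates start at `m` or later, `bef_zero`), `Psi P k m z ≤ 16 (2^(k+1)+3)`
(an alive purchase of level `k` has `1 ≤ 2^k price ≤ (2^(k+1)+3) price`, and it is counted in
`Spent`), and `0 ≤ Psi` always (`Spent ≤ cost < 16`). Iterate T_RNA / T_RNB: by induction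
on `j : ℕ`, if `Psi < j` and `i + 2 j ≤ 2^(k+8)` then there is an uncovered point. Start with
`j = 16 (2^(k+1)+3) + 1`, `2 j ≤ 2^(k+8)`. -/
def T_LBS : Prop := ∀ (L : Type) [LinearOrder L] (T : L → Type) [∀ l, Nonempty (T l)] (p k : ℕ),
  LBH T p (k + 1) → LBH T p k

/-- LB. The lower bound. For `k > p` all purchases of a plan have `q.Q = ∅`, so `cov P = ∅`;
then downward induction with T_LBS. -/
def T_LB : Prop := ∀ (L : Type) [LinearOrder L] (T : L → Type) [∀ l, Nonempty (T l)] (p k : ℕ),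
  LBH T p k

/-! ## The functional `phi` -/

/-- PHB. Simple properties of `phi` (an infimum of a set containing `16` and contained in
`[0,∞)`; plans can be concatenated). -/
def T_PHB : Prop := ∀ (L : Type) [LinearOrder L] (T : L → Type) (p k : ℕ) (m : WithTop L),
    (∀ Y : Set (∀ l, T l), 0 ≤ phi p k m Y ∧ phi p k m Y ≤ 16) ∧
    phi p k m (∅ : Set (∀ l, T l)) = 0 ∧
    (∀ Y Y' : Set (∀ l, T l), Y ⊆ Y' → phi p k m Y ≤ phi p k m Y') ∧
    ∀ Y Y' : Set (∀ l, T l), phi p k m (Y ∪ Y') ≤ phi p k m Y + phi p k m Y'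

/-- PHP. `phi` and plans. -/
def T_PHP : Prop := ∀ (L : Type) [LinearOrder L] (T : L → Type) (p k : ℕ) (m : WithTop L)
    (Y : Set (∀ l, T l)) (s : ℝ),
    (∀ P : List (Pur T), 0 ≤ s → Plan m k p P → (∀ z, cost P z ≤ s) → Y ⊆ cov P →
      phi p k m Y ≤ s) ∧
    (phi p k m Y < s → s ≤ 16 → ∃ (P : List (Pur T)) (s' : ℝ), 0 ≤ s' ∧ s' < s ∧ Plan m k p P ∧
      (∀ z, cost P z ≤ s') ∧ Y ⊆ cov P)

/-- PHK. `phi` increases with the first level (a plan of the levels `k+1, …, p` is a plan of the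
levels `k, …, p`); and small sets: if `C` is not `Big` then `phi ≤ 1` (`Big_iff`). -/
def T_PHK : Prop := ∀ (L : Type) [LinearOrder L] (T : L → Type) (p k : ℕ) (m : WithTop L)
    (Y : Set (∀ l, T l)), phi p k m Y ≤ phi p (k + 1) m Y ∧ (¬ Big p k m Y → phi p k m Y ≤ 1)

/-- PH8. `8 ≤ phi` of the whole space, from T_LB (`8 ≤ cc k`). -/
def T_PH8 : Prop := ∀ (L : Type) [LinearOrder L] (T : L → Type) [∀ l, Nonempty (T l)] (p k : ℕ)
    (m : WithTop L), 8 ≤ phi p k m (Set.univ : Set (∀ l, T l))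

/-- F1P. Gluing of plans: `P` = concatenation over `i < r` of `PP i` with `q.Q` replaced by
`q.Q ∩ R i`. (If `q.Q` is not empty then `n i ≤ q.tm`, so `R i` depends only on coordinates
below `q.tm`.) At a point `z` at most one `i < r` has `z ∈ R i`. -/
def T_F1P : Prop := ∀ (L : Type) [LinearOrder L] (T : L → Type) (p k : ℕ) (m : WithTop L)
    (r : ℕ) (n : ℕ → WithTop L) (R : ℕ → Set (∀ l, T l)) (PP : ℕ → List (Pur T)) (s : ℝ),
    0 ≤ s → (∀ i < r, m ≤ n i ∧ DLt (n i) (R i) ∧ Plan (n i) k p (PP i) ∧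
      ∀ z, cost (PP i) z ≤ s) →
    (∀ i < r, ∀ j < r, i ≠ j → Disjoint (R i) (R j)) →
    ∃ P : List (Pur T), Plan m k p P ∧ (∀ z, cost P z ≤ s) ∧
      ∀ i < r, R i ∩ cov (PP i) ⊆ cov P

/-- FIN. A set depending on finitely many coordinates has finitely many fibres
(`fib n z Y` depends only on the values of `z` on the finite support of `Y`). -/
def T_FIN : Prop := ∀ (L : Type) [LinearOrder L] (T : L → Type) [∀ l, Finite (T l)]
    (n : WithTop L) (Y : Set (∀ l, T l)), Cl Set.univ Y →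
    (Set.range fun z : ∀ l, T l => fib n z Y).Finite

/-- F1. Upper Fubini property. If `16 ≤ s` trivial. Otherwise let `ε > 0`, `s + ε ≤ 16`. For
`i < r` and a fibre `D` (finitely many by T_FIN) of a point of `R i` choose by T_PHP a plan
from `n i` covering `D` of cost `≤ s + ε`; apply T_F1P to the sets
`{z ∈ R i | fib (n i) z Y = D}` (they depend only on coordinates below `n i`), numbered. A point
`z ∈ Y ∩ R i` is in `fib (n i) z Y` (`glue_self`). So `phi p k m Y ≤ s + ε`. -/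
def T_F1 : Prop := ∀ (L : Type) [LinearOrder L] (T : L → Type) [∀ l, Finite (T l)] (p k : ℕ)
    (m : WithTop L) (Y : Set (∀ l, T l)) (r : ℕ) (n : ℕ → WithTop L)
    (R : ℕ → Set (∀ l, T l)) (s : ℝ), 0 ≤ s → Cl Set.univ Y →
    (∀ i < r, m ≤ n i ∧ DLt (n i) (R i)) →
    (∀ i < r, ∀ j < r, i ≠ j → Disjoint (R i) (R j)) →
    (∀ z ∈ Y, ∃ i < r, z ∈ R i) →
    (∀ i < r, ∀ z ∈ R i, phi p k (n i) (fib (n i) z Y) ≤ s) → phi p k m Y ≤ s

/-- PU. One purchase of level `r` with `Q = univ`, time `m`, the gates `J`: its price is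
`(1/2)^r` (`price_eq`). -/
def T_PU : Prop := ∀ (L : Type) [LinearOrder L] (T : L → Type) (p r : ℕ) (m : WithTop L)
    (J : Finset (WithTop L × WithTop L)) (X : Set (∀ l, T l)), r ≤ p → Gts J →
    (∀ g ∈ J, m ≤ g.1) → 2 ^ parD r ≤ J.card →
    (∀ g ∈ J, ∀ z, (Single g.1 g.2 ∧ (Esc X g.1 g.2 z).Nonempty) ∨
      Big p (r + 1) g.1 (Esc X g.1 g.2 z)) → phi p r m X ≤ (1 / 2) ^ r

/-! ## The finite form of the density lemma -/

section G

variable {L : Type} [LinearOrder L] {T : L → Type}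

/-- early purchases: at least `3 t` gates inside `[m,n)` -/
def Early (m n : WithTop L) (q : Pur T) : Prop := 3 * tq 7 q.J.card ≤ cnt q.J m n

/-- the sum of the prices of the early purchases made up to the time `t` -/
noncomputable def Cum (P : List (Pur T)) (m n t : WithTop L) (z : ∀ l, T l) : ℝ :=
  (P.map fun q => if Early m n q ∧ q.tm ≤ t ∧ z ∈ q.Q then price q.lev q.J.card else 0).sum

/-- `z` is not in the hull of `q.X` at the end of the first `t` gates -/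
def Fst (m n : WithTop L) (z : ∀ l, T l) (q : Pur T) : Prop :=
  ∃ e, e ≤ n ∧ (∀ x < e, cnt q.J m x < tq 7 q.J.card) ∧ tq 7 q.J.card ≤ cnt q.J m e ∧
    z ∉ hull e q.X

end G

/-- GP1. The plan `P_1`: T_DPN with `k = r+1`, `e = 7` (`7 / parA (r+1) = bet r`),
`cond q`: `Early m n q` and there is `e ≤ n` with `cnt q.J m e = t q` and `cnt q.J m x < t q` for
`x < e` (T_EE; `en q` = this `e`), `R q = {z | Cum P m n q.tm z ≤ lam}` (it depends only on
the coordinates below `q.tm`). Cost at `z`: if some term is not zero, take a nonzero term with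
the largest `q.tm`; all of them are counted in `Cum P m n q.tm z ≤ lam`. -/
def T_GP1 : Prop := ∀ (L : Type) [LinearOrder L] (T : L → Type) (p r : ℕ) (m n : WithTop L)
    (P : List (Pur T)) (lam : ℝ), Plan m (r + 1) p P → 0 ≤ lam →
    ∃ P1 : List (Pur T), Plan m (r + 1) p P1 ∧ (∀ z, cost P1 z ≤ (1 + bet r) * lam) ∧
      ∀ z, z ∉ cov P1 → ∀ q ∈ P, Early m n q → z ∈ q.Q → Cum P m n q.tm z ≤ lam →
        Fst m n z q

/-- GCT. Counting. Let `q` be a purchase of `P` made at some point, `t = tq 7 |J|`, so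
`4 t ≤ |J|` (T_PB), `bef q.J m = 0`. (1) If `q` is not early, then `t ≤ cnt q.J n ⊤`:
`|J| = stt J m n + cnt J n ⊤`, `stt J m n ≤ cnt J m n + 1 ≤ 3 t`. (2) An early purchase has
`q.tm < n`. (3) Let `m ≤ s ≤ n`, `q` early, `cnt q.J s n < t`: then `q.tm < s` and
`t ≤ cnt q.J m s` (gates inside `[m,n)` end by `s`, start at `s` or later, or, at most one,
contain `s`). (4) `cnt q.J s ⊤ < t` implies `q.tm < s`, `3 t ≤ cnt q.J m s`; so `q` is early
if `s ≤ n`. -/
def T_GCT : Prop := ∀ (L : Type) [LinearOrder L] (T : L → Type) (p r : ℕ) (m n s : WithTop L)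
    (P : List (Pur T)) (q : Pur T) (z : ∀ l, T l), Plan m (r + 1) p P → (∀ z, cost P z < 16) →
    q ∈ P → z ∈ q.Q → m ≤ s → s ≤ n →
    (¬ Early m n q → tq 7 q.J.card ≤ cnt q.J n ⊤) ∧ (Early m n q → q.tm < n) ∧
    (Early m n q → cnt q.J s n < tq 7 q.J.card → q.tm < s ∧ tq 7 q.J.card ≤ cnt q.J m s) ∧
    (cnt q.J s ⊤ < tq 7 q.J.card → q.tm < s ∧ 3 * tq 7 q.J.card ≤ cnt q.J m s)

/-- GC1. Case 1. T_DPL at the state `(n,z1)`, `k' = r+1`, `e = 7`, `en = ⊤`, `R = univ`,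
`cond q` = `¬ Early m n q ∧ tq 7 |J| ≤ cnt q.J n ⊤`: a plan `W` from `n` of cost
`≤ (1 + bet r) * 4 < cc (r+1)`; by `LBH` some `y ∉ cov W`. If `glue n z1 y ∈ cov P`, let
`q ∈ P`, `glue n z1 y ∈ q.Q ∩ q.X`. If `q` is early, `q.tm < n`, `z1 ∈ q.Q`, so `Fst`:
`z1 ∉ hull e q.X`, `e ≤ n`, impossible (`esc_of_hull`). So `q` is not early, `cond q` by T_GCT,
and `glue n z1 y ∈ q.X ⊆ hull ⊤ q.X`, a contradiction. -/
def T_GC1 : Prop := ∀ (L : Type) [LinearOrder L] (T : L → Type) (p r : ℕ) (m n : WithTop L)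
    (P : List (Pur T)) (z1 : ∀ l, T l), Plan m (r + 1) p P → LBH T p (r + 1) →
    (∀ z, cost P z < 4) → m ≤ n →
    (∀ q ∈ P, Early m n q → z1 ∈ q.Q → Fst m n z1 q) → ∃ y, glue n z1 y ∉ cov P

/-- GD1. Case 2, (i). T_DPL at the state `(s,z1)`, `k' = r+1`, `e = 7`, `en = n`, `R = univ`,
`cond q` = `Early m n q ∧ tq 7 |J| ≤ cnt q.J s n`. Let `y ∉ cov W`, `q` early,
`z' = glue s z1 y ∈ q.Q`. If `cond q`, `z' ∉ hull n q.X`. If not, by T_GCT `q.tm < s`,
`t ≤ cnt q.J m s`, so `z1 ∈ q.Q`, `Fst m n z1 q` gives `e` with `e ≤ s` (if `s < e` then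
`cnt q.J m s < t`) and `z1 ∉ hull e q.X`, hence `z' ∉ hull e q.X` (`dLt_hull`, `z'` agrees with
`z1` below `s`), and `hull n q.X ⊆ hull e q.X` as `e ≤ n`. -/
def T_GD1 : Prop := ∀ (L : Type) [LinearOrder L] (T : L → Type) (p r : ℕ) (m n s : WithTop L)
    (P : List (Pur T)) (z1 : ∀ l, T l) (c : ℝ), Plan m (r + 1) p P → (∀ z, cost P z < c) →
    c ≤ 16 → m ≤ s → s ≤ n →
    (∀ q ∈ P, Early m n q → z1 ∈ q.Q → q.tm < s → Fst m n z1 q) →
    ∃ W : List (Pur T), Plan s (r + 1) p W ∧ (∀ y, cost W y ≤ (1 + bet r) * c) ∧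
      ∀ y, y ∉ cov W → ∀ q ∈ P, Early m n q → glue s z1 y ∈ q.Q → glue s z1 y ∉ hull n q.X

/-- GD2. Case 2, (ii): the state `(n,z')`. T_DPL at `(n,z')`, `k' = r+1`, `e = 7`, `en = ⊤`,
`R = univ`, `cond q` = `¬ Early m n q ∧ tq 7 |J| ≤ cnt q.J n ⊤`. Its cost at `w` is at most
`(1 + bet r)` times the sum of the prices of the `q`, not early, `glue n z' w ∈ q.Q`; this sum
is at most `cost P (glue n z' w) - Cum P m n s z'` (the early `q` with `q.tm ≤ s`, `z' ∈ q.Q` have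
`glue n z' w ∈ q.Q`), which is `< c - lam`. If `glue n z' w ∈ cov P`, it is in
`q.Q ∩ q.X`; `q` is not early (otherwise `q.tm < n`, `z' ∈ q.Q`, `z' ∈ hull n q.X`), so `cond q`
by T_GCT, and `w ∈ cov W`. -/
def T_GD2 : Prop := ∀ (L : Type) [LinearOrder L] (T : L → Type) (p r : ℕ) (m n s : WithTop L)
    (P : List (Pur T)) (z' : ∀ l, T l) (c lam : ℝ), Plan m (r + 1) p P → (∀ z, cost P z < c) →
    c ≤ 16 → m ≤ s → s ≤ n → lam < Cum P m n s z' →
    (∀ q ∈ P, Early m n q → z' ∈ q.Q → z' ∉ hull n q.X) →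
    ∃ W : List (Pur T), Plan n (r + 1) p W ∧ (∀ w, cost W w ≤ (1 + bet r) * (c - lam)) ∧
      ∀ w, glue n z' w ∈ cov P → w ∈ cov W

/-- GD3. Case 2, (iii): T_DPL at the state `(s,z1)`, `k' = r+1`, `e = 7`, `en = ⊤`, `R = univ`,
`cond q` = `tq 7 |J| ≤ cnt q.J s ⊤`. If `glue s z1 y ∈ q.Q ∩ q.X` and not `cond q`, then by T_GCT
`q.tm < s` and `3 t ≤ cnt q.J m s ≤ cnt q.J m n`, so `q` is early, `z1 ∈ q.Q`, `Fst` gives `e`
with `e ≤ s` and `z1 ∉ hull e q.X`, against `esc_of_hull`. -/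
def T_GD3 : Prop := ∀ (L : Type) [LinearOrder L] (T : L → Type) (p r : ℕ) (m n s : WithTop L)
    (P : List (Pur T)) (z1 : ∀ l, T l) (c : ℝ), Plan m (r + 1) p P → (∀ z, cost P z < c) →
    c ≤ 16 → m ≤ s → s ≤ n →
    (∀ q ∈ P, Early m n q → z1 ∈ q.Q → q.tm < s → Fst m n z1 q) →
    ∃ W : List (Pur T), Plan s (r + 1) p W ∧ (∀ y, cost W y ≤ (1 + bet r) * c) ∧
      ∀ y, glue s z1 y ∈ cov P → y ∈ cov W

/-- GC2. Case 2, conclusion. Put `c = b + 2 δ ≤ 3.2`, `lam = 4 δ + 5 bet r`. Take `W1` from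
T_GD1 and `W3` from T_GD3. The plan `W1 ++ W3` has cost `≤ 2 (1 + bet r) c < cc (r+1)`, so by
`LBH` some `y` is in neither `cov W1` nor `cov W3`. `z' = glue s z1 y` is in no
`q.Q ∩ hull n q.X`, `q` early, and `z' ∉ cov P ⊇ A' ⊇ A`. So
`b - 2 δ < phi p (r+1) n (fib n z' A')`. But T_GD2 (`Cum P m n s z' = Cum P m n s z1` because the
sets `q.Q`, `q.tm ≤ s`, do not distinguish `z'` and `z1`) and T_PHP give
`phi .. ≤ (1 + bet r)(c - lam)` (`c - lam > 0` since `lam < Cum ≤ cost P z' < c`) and this is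
`≤ b - 2 δ` as `b ≤ 3`. -/
def T_GC2 : Prop := ∀ (L : Type) [LinearOrder L] (T : L → Type) (p r : ℕ) (m n s : WithTop L)
    (P : List (Pur T)) (A A' : Set (∀ l, T l)) (z1 : ∀ l, T l) (b δ : ℝ),
    Plan m (r + 1) p P → LBH T p (r + 1) → 0 < δ → δ ≤ 1 / 10 → 0 ≤ b → b ≤ 3 →
    (∀ z, cost P z < b + 2 * δ) → m ≤ s → s ≤ n → A ⊆ A' → A' ⊆ cov P →
    (∀ z, z ∉ A → b - 2 * δ < phi p (r + 1) n (fib n z A')) →
    (∀ q ∈ P, Early m n q → z1 ∈ q.Q → q.tm < s → Fst m n z1 q) →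
    4 * δ + 5 * bet r < Cum P m n s z1 → False

/-- GF. Finite form of the density lemma. Take `P1` from T_GP1 with `lam = 4 δ + 5 bet r`.
Suppose `z1 ∈ A`, `z1 ∉ cov P1`. If `Cum P m n q.tm z1 ≤ lam` for all early `q ∈ P` with
`z1 ∈ q.Q`: T_GC1 gives `y` with `glue n z1 y ∉ cov P`, but `glue n z1 y ∈ A` (`DLt n A`).
Otherwise let `s` be the least `q.tm` of such a `q` with `lam < Cum P m n q.tm z1`;
`m ≤ s < n` (T_GCT) and T_GC2 applies. -/
def T_GF : Prop := ∀ (L : Type) [LinearOrder L] (T : L → Type) [∀ l, Nonempty (T l)] (p r : ℕ)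
    (m n : WithTop L) (P : List (Pur T)) (A A' : Set (∀ l, T l)) (b δ : ℝ),
    Plan m (r + 1) p P → 0 < δ → δ ≤ 1 / 10 → 0 ≤ b → b ≤ 3 →
    (∀ z, cost P z < b + 2 * δ) → m ≤ n → DLt n A → A ⊆ A' → A' ⊆ cov P →
    (∀ z, z ∉ A → b - 2 * δ < phi p (r + 1) n (fib n z A')) →
    phi p (r + 1) m A ≤ (1 + bet r) * (4 * δ + 5 * bet r)

end SNB
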