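import Pool.Agent.SNB.Base2
import Pool.Agent.SNB.Targets1

/-!
# MP_3e8648_lc, case x = b: targets of Part I, second half (helper56)

Limits `nu` of `phi`, density lemma (G), exhaustivity (EX). Paper proof: ideas row 1723,
sections 4, 5, 6. In all targets the factors `T l` are finite and nonempty.
-/

set_option autoImplicit false

namespace SNB

open Classical Filter Topology

/-! ## Compactness, countability, exhaustive functions -/

/-- CPT. Compactness of the product of finite (discrete) spaces: a decreasing sequence of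
nonempty sets depending on finitely many coordinates has nonempty intersection (give `T l`
the discrete topology; these sets are closed). -/
def T_CPT : Prop := ∀ (L : Type) [LinearOrder L] (T : L → Type) [∀ l, Finite (T l)]
    (X : ℕ → Set (∀ l, T l)), (∀ i, Cl Set.univ (X i)) → (∀ i, X (i + 1) ⊆ X i) →
    (∀ i, (X i).Nonempty) → ∃ z, ∀ i, z ∈ X i

/-- CNT. For countable `S` there are only countably many sets depending on finitely many
coordinates of `S`. -/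
def T_CNT : Prop := ∀ (L : Type) [LinearOrder L] (T : L → Type) [∀ l, Finite (T l)] (S : Set L),
    S.Countable → {X : Set (∀ l, T l) | Cl S X}.Countable

/-- STB. Stabilisation. Otherwise for every `a' > a` there is `j ≥ a'` with
`δ < μ (G j \ ⋃_{a ≤ i < a'} G i)`; choose `a'_0 = a + 1`, `j_n ≥ a'_n`, `a'_{n+1} = j_n + 1`: the
sets `G j_n \ ⋃_{a ≤ i < a'_n} G i` are disjoint, with values `> δ`. -/
def T_STB : Prop := ∀ (L : Type) [LinearOrder L] (T : L → Type)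
    (μ : Set (∀ l, T l) → ℝ) (S : Set L), Exs μ S →
    ∀ (G : ℕ → Set (∀ l, T l)), (∀ i, Cl S (G i)) → ∀ (a : ℕ) (δ : ℝ), 0 < δ →
    ∃ a', a < a' ∧ ∀ j, a' ≤ j → μ (G j \ ⋃ i ∈ Finset.Ico a a', G i) ≤ δ

/-- PFI. Point finite sequences. Suppose `ε ≤ μ (G j)` for infinitely many `j`; pass to a
subsequence, so for all `j`. By T_STB (with `δ = ε / 2^(s+2)`) choose `j_0 = 0 < j_1 < …` such that
`H_s = ⋃_{j_s ≤ j < j_{s+1}} G j` satisfies `μ (G j \ H_s) ≤ ε / 2^(s+2)` for `j ≥ j_{s+1}`. Then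
`μ (G j \ (H_0 ∩ … ∩ H_s)) ≤ ε/2` for large `j`, so `μ (H_0 ∩ … ∩ H_s) ≥ ε/2 > 0 = μ ∅`,
`H_0 ∩ … ∩ H_s` is not empty; by T_CPT some point is in all `H_s`, so in infinitely many `G j`. -/
def T_PFI : Prop := ∀ (L : Type) [LinearOrder L] (T : L → Type) [∀ l, Finite (T l)]
    (μ : Set (∀ l, T l) → ℝ) (S : Set L), Exs μ S → μ ∅ = 0 →
    (∀ X Y : Set (∀ l, T l), X ⊆ Y → μ X ≤ μ Y) →
    (∀ X Y : Set (∀ l, T l), μ (X ∪ Y) ≤ μ X + μ Y) →
    ∀ (G : ℕ → Set (∀ l, T l)), (∀ i, Cl S (G i)) → (∀ z, {j | z ∈ G j}.Finite) →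
    ∀ ε : ℝ, 0 < ε → ∃ N : ℕ, ∀ j, N ≤ j → μ (G j) < ε

/-! ## The limits `nu` -/

/-- NUT. `nu` is the limit along the ultrafilter (compactness of `[0,16]`, T_PHB). -/
def T_NUT : Prop := ∀ (L : Type) [LinearOrder L] (T : L → Type) (k : ℕ) (m : WithTop L)
    (Y : Set (∀ l, T l)),
    Tendsto (fun p => phi p k m Y) (hyperfilter ℕ : Filter ℕ) (𝓝 (nu k m Y))

/-- NUB. Properties of `nu` inherited from `phi` (T_PHB, T_PHK, T_PH8, T_NUT; limits of
inequalities). -/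
def T_NUB : Prop := ∀ (L : Type) [LinearOrder L] (T : L → Type) [∀ l, Nonempty (T l)] (k : ℕ)
    (m : WithTop L),
    (∀ Y : Set (∀ l, T l), 0 ≤ nu k m Y ∧ nu k m Y ≤ 16) ∧
    nu k m (∅ : Set (∀ l, T l)) = 0 ∧
    (∀ Y Y' : Set (∀ l, T l), Y ⊆ Y' → nu k m Y ≤ nu k m Y') ∧
    (∀ Y Y' : Set (∀ l, T l), nu k m (Y ∪ Y') ≤ nu k m Y + nu k m Y') ∧
    (∀ (k' : ℕ) (Y : Set (∀ l, T l)), k ≤ k' → nu k m Y ≤ nu k' m Y) ∧
    8 ≤ nu k m (Set.univ : Set (∀ l, T l))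

/-- NF1. Upper Fubini property of `nu`: for `ε > 0` and ultrafilter-most `p` all the finitely
many (T_FIN) fibres in question have `phi p k (n i) ≤ s + ε` (T_NUT); apply T_F1 for these `p`. -/
def T_NF1 : Prop := ∀ (L : Type) [LinearOrder L] (T : L → Type) [∀ l, Finite (T l)]
    [∀ l, Nonempty (T l)] (k : ℕ)
    (m : WithTop L) (Y : Set (∀ l, T l)) (r : ℕ) (n : ℕ → WithTop L)
    (R : ℕ → Set (∀ l, T l)) (s : ℝ), 0 ≤ s → Cl Set.univ Y →
    (∀ i < r, m ≤ n i ∧ DLt (n i) (R i)) →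
    (∀ i < r, ∀ j < r, i ≠ j → Disjoint (R i) (R j)) →
    (∀ z ∈ Y, ∃ i < r, z ∈ R i) →
    (∀ i < r, ∀ z ∈ R i, nu k (n i) (fib (n i) z Y) ≤ s) → nu k m Y ≤ s

/-- NPU. Purchase at level `r` with the consecutive gates `[t j, t (j+1))`, `j < 2^parD r`. For
every `j` the sets `fib (t j) z (W j)` are finitely many (T_FIN), so for ultrafilter-most `p ≥ r`
all of them have `1 < phi p (r+1) (t j)`, so they are `Big p (r+1) (t j)` (T_PHK). As `W j`
depends on the coordinates below `t (j+1)` and is disjoint from `X`,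
`fib (t j) z (W j) ⊆ Esc X (t j) (t (j+1)) z`; use `Big_mono` and T_PU with
`J = image of (t j, t (j+1))` (the gates are increasing, so pairwise disjoint and distinct). -/
def T_NPU : Prop := ∀ (L : Type) [LinearOrder L] (T : L → Type) [∀ l, Finite (T l)]
    [∀ l, Nonempty (T l)] (r : ℕ) (m : WithTop L) (X : Set (∀ l, T l))
    (t : ℕ → WithTop L) (W : ℕ → Set (∀ l, T l)), m ≤ t 0 →
    (∀ j < 2 ^ parD r, t j < t (j + 1) ∧ Cl Set.univ (W j) ∧ DLt (t (j + 1)) (W j) ∧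
      Disjoint X (W j) ∧ ∀ z, 1 < nu (r + 1) (t j) (fib (t j) z (W j))) →
    nu r m X ≤ (1 / 2) ^ r

/-- HIT. Hitting. For `i ∈ I` let `b i` be the least time above `i` (well-founded order of
times), so `Single i (b i)`. T_PU with the gates `(i, b i)`: for every `z` some `y` has
`y i = τ i z`, and then `y ∈ Esc X i (b i) z` (a point `x = glue (b i) (glue i z y) w` has
`x i = τ i z = τ i x`). So `phi p k m X ≤ (1/2)^k` for all `p ≥ k`; T_NUT. -/
def T_HIT : Prop := ∀ (L : Type) [LinearOrder L] [WellFoundedLT L] (T : L → Type)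
    [∀ l, Nonempty (T l)] (k : ℕ) (m : WithTop L) (I : Finset L)
    (τ : ∀ i : L, (∀ l, T l) → T i), 2 ^ parD k ≤ I.card → (∀ i ∈ I, m ≤ (i : WithTop L)) →
    (∀ i ∈ I, ∀ z y : ∀ l, T l, agr (i : WithTop L) z y → τ i z = τ i y) →
    nu k m {z : ∀ l, T l | ∀ i ∈ I, z i ≠ τ i z} ≤ (1 / 2) ^ k

/-! ## (G) -/

/-- GM. One step of (G): at the state `(n s0, z0)` with almost minimal supremum. Let
`h s z = sup_t nu (r+1) (n s) (fib (n s) z (A t))`. Hypotheses in the form of inequalities: `b` is a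
lower bound of all `h s z`, `z ∉ A s` (for every `c < b` some `t` has a fibre of value `> c`), and
`h s0 z0 < b + δ`. Conclusion for every `s1 ≥ s0`. Proof: the sets
`O t = {z | b - δ < nu (r+1) (n s1) (fib (n s1) z (A t))}` (`Cl.pred`) increase with `t` and cover the
complement of `A s1`; by compactness (T_CPT applied to `(O t ∪ A s1)ᶜ`) some `t' ≥ s1` has
`(A s1)ᶜ ⊆ O t'`. For ultrafilter-most `p`: `phi p (r+1) (n s0) (fib (n s0) z0 (A t')) < b + 2δ`, so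
T_PHP gives a plan `P` of cost `< b + 2δ` covering it (`b + 2δ ≤ 16`), and (finitely many fibres,
T_FIN) `b - 2δ < phi p (r+1) (n s1) (fib (n s1) z (A t'))` for all `z ∉ A s1`. Apply T_GF with
`m := n s0`, `n := n s1`, `A := fib (n s0) z0 (A s1)`, `A' := fib (n s0) z0 (A t')` (`fib_fib`), and take
the limit over `p`. -/
def T_GM : Prop := ∀ (L : Type) [LinearOrder L] (T : L → Type) [∀ l, Finite (T l)]
    [∀ l, Nonempty (T l)] (r : ℕ) (m : WithTop L) (n : ℕ → WithTop L)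
    (A : ℕ → Set (∀ l, T l)) (b δ : ℝ) (s0 : ℕ) (z0 : ∀ l, T l),
    Monotone n → Monotone A → (∀ t, Cl (Iv m (n t)) (A t)) → m ≤ n 0 →
    0 < δ → δ ≤ 1 / 10 → 0 ≤ b → b ≤ 3 →
    (∀ (s : ℕ) (z : ∀ l, T l), z ∉ A s → ∀ c : ℝ, c < b →
      ∃ t, c < nu (r + 1) (n s) (fib (n s) z (A t))) →
    (∀ t, nu (r + 1) (n s0) (fib (n s0) z0 (A t)) ≤ b + δ) → ∀ s1, s0 ≤ s1 →
    nu (r + 1) (n s0) (fib (n s0) z0 (A s1)) ≤ (1 + bet r) * (4 * (2 * δ) + 5 * bet r)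

/-- G. The density lemma. `A 0` is `∅` or `univ` (`Iv m m` is empty), not `univ` as
`8 ≤ nu univ`. Let `b` be the infimum of `sup_t nu (r+1) (n s) (fib (n s) z (A t))` over the
states `(s,z)`, `z ∉ A s`; the state with `s = 0` shows `b ≤ 3` (`fib m z (A t) = A t`). Choose
`δ > 0` with `(1 + bet r)(8 δ + 5 bet r) ≤ 7 bet r` (`bet r ≤ 1/100`), `δ ≤ 1/10`, and a state
with supremum `≤ b + δ`; T_GM for `s1 ≥ s`, and monotonicity of `A` for `t ≤ s`. -/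
def T_G : Prop := ∀ (L : Type) [LinearOrder L] (T : L → Type) [∀ l, Finite (T l)]
    [∀ l, Nonempty (T l)] (r : ℕ) (m : WithTop L) (n : ℕ → WithTop L)
    (A : ℕ → Set (∀ l, T l)), Monotone n → n 0 = m → Monotone A →
    (∀ t, Cl (Iv m (n t)) (A t)) → (∀ t, nu (r + 1) m (A t) ≤ 3) →
    ∃ (s : ℕ) (z : ∀ l, T l), z ∉ A s ∧
      ∀ t, nu (r + 1) (n s) (fib (n s) z (A t)) ≤ 7 * bet r

/-! ## (EX) -/

/-- KEB. Choice of the blocks. By T_STB applied to `μ = nu (r+1) m`, the set `Iv m (b a)`, the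
sequence `G i = {z | ε < nu (r+1) (b a) (fib (b a) z (E i))} ∩ (dependence)`, `a`, `δ`: the set `G i`
depends on finitely many coordinates in `Iv m (b a)` by `Cl.pred`. -/
def T_KEB : Prop := ∀ (L : Type) [LinearOrder L] (T : L → Type) [∀ l, Finite (T l)]
    [∀ l, Nonempty (T l)] (r : ℕ) (m : WithTop L) (b : ℕ → WithTop L)
    (E : ℕ → Set (∀ l, T l)) (ε : ℝ), Monotone b → b 0 = m →
    (∀ N, ∀ i < N, Cl (Iv m (b N)) (E i)) →
    (∀ N, Exs (nu (r + 1) m : Set (∀ l, T l) → ℝ) (Iv m (b N))) →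
    ∀ (a : ℕ) (δ : ℝ), 0 < δ → ∃ a', a < a' ∧ ∀ j, a' ≤ j →
      nu (r + 1) m ({z | ε < nu (r + 1) (b a) (fib (b a) z (E j))} \
        ⋃ i ∈ Finset.Ico a a', {z | ε < nu (r + 1) (b a) (fib (b a) z (E i))}) ≤ δ

/-- KEY. Let `ε = eps r`. By T_KEB choose `i_0 = 0 < i_1 < …` with `δ_s = ε / 2^(s+2)`; put
`n_s = b i_s` (so `n_0 = m`), `U_{s+1} = ⋃_{i_s ≤ i < i_{s+1}} E i`, `U_0 = ∅`,
`D_s = {z | nu (r+1) n_s (fib n_s z U_{s+1}) ≤ ε}`, `A_t = ⋃_{s ≤ t} (D_s ∪ U_s)`; they depend on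
finitely many coordinates of `S ∩ Iv m n_t`. If `nu (r+1) m (A_t) ≤ 3` for all `t`, T_G gives
`s`, `z ∉ A_s`; then `z ∉ D_s`, so `ε < nu (r+1) n_s (fib n_s z U_{s+1})
≤ nu (r+1) n_s (fib n_s z A_{s+1}) ≤ 7 bet r ≤ ε` (T_PD), a contradiction. So
`3 < nu (r+1) m (A_t)` for some `t`; `C = A_t`, `N = i_t`. For `i ≥ i_{t+1}`: `E i` is disjoint from
`U_s`, `s ≤ t`; let `S_s = D_s ∩ {z | ε < nu (r+1) n_s (fib n_s z (E i))}`; `nu (r+1) m (S_s) ≤ δ_s`
because `z ∈ D_s` is in no `{ε < nu .. (E i')}`, `i_s ≤ i' < i_{s+1}` (monotone). And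
`Y = (E i ∩ ⋃_{s≤t} D_s) \ ⋃_{s≤t} S_s` has `nu (r+1) m Y ≤ ε` by T_NF1 with the disjoint sets
`R_s = D_s \ ⋃_{s'<s} D_{s'}` at the times `n_s` (for `z ∈ R_s ∩ S_s` the fibre of `Y` is empty, else
it is contained in the fibre of `E i`). So `nu (r+1) m (E i ∩ C) ≤ ε + ∑ δ_s ≤ 2 ε`. -/
def T_KEY : Prop := ∀ (L : Type) [LinearOrder L] (T : L → Type) [∀ l, Finite (T l)]
    [∀ l, Nonempty (T l)] (r : ℕ) (m : WithTop L) (b : ℕ → WithTop L) (S : Set L)
    (E : ℕ → Set (∀ l, T l)), Monotone b → b 0 = m →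
    (∀ N, ∀ i < N, Cl (S ∩ Iv m (b N)) (E i)) → (∀ i j, i ≠ j → Disjoint (E i) (E j)) →
    (∀ N, Exs (nu (r + 1) m : Set (∀ l, T l) → ℝ) (Iv m (b N))) →
    ∃ (N : ℕ) (C : Set (∀ l, T l)), Cl (S ∩ Iv m (b N)) C ∧ 1 < nu (r + 1) m C ∧
      ∃ i0, ∀ i, i0 ≤ i → nu (r + 1) m (E i ∩ C) ≤ 2 * eps r

/-- GAT. The next gate. By T_KEY applied at the time `m1` to the fibres `fib m1 z (E i)`
(`Cl.fib`: they depend on `S ∩ Iv m1 (b N)`) every point `z` has a pair `(N, C)` with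
`Cl (S ∩ Iv m1 (b N)) C`, `1 < nu (r+1) m1 C`, `nu (r+1) m1 (fib m1 z (E i) ∩ C) ≤ 2 eps r` for all
large `i`. The set of the pairs `(N,C)` with the first two properties is countable (T_CNT)
and not empty: enumerate it, `(N_a, C_a)`, `a : ℕ`. Let
`G i a = {z | ∀ a' ≤ a, 2 eps r < nu (r+1) m1 (fib m1 z (E i) ∩ C_{a'})}` (it depends on finitely many
coordinates of `Iv m m1`, `Cl.pred`). If for every `a` there were infinitely many `i` with
`eps r < nu (r+1) m (G i a)`, choose `i_a` increasing; every `z` is in only finitely many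
`G i_a a`, against T_PFI. So for some `a` and all large `i`, `nu (r+1) m (G i a) ≤ eps r`. Put
`m2 = max m1' (max_{a' ≤ a} b N_{a'})` where `m1 < m1' < l`, and
`W = G i a ∪ ⋃_{a' ≤ a} ({z | nu (r+1) m1 (fib m1 z (E i) ∩ C_{a'}) ≤ 2 eps r, and not for any
a'' < a'} ∩ C_{a'})`. `fib m1 z W` is `univ` or one of the `C_{a'}` (`fib_of_dGe`). And
`nu (r+1) m (E i ∩ W) ≤ nu (G i a) + nu ((E i ∩ W) \ G i a) ≤ 3 eps r` by T_NF1 (one time `m1`,
`R = univ`): the fibre of `(E i ∩ W) \ G i a` at `z` is `∅` or contained in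
`fib m1 z (E i) ∩ C_{a'}` with the right `a'`. -/
def T_GAT : Prop := ∀ (L : Type) [LinearOrder L] (T : L → Type) [∀ l, Finite (T l)]
    [∀ l, Nonempty (T l)] (r : ℕ) (m m1 m1' l : WithTop L) (b : ℕ → WithTop L) (S : Set L)
    (E : ℕ → Set (∀ l, T l)), S.Countable → m ≤ m1 → m1 < m1' → m1' < l → Monotone b →
    b 0 = m1 → (∀ N, b N < l) → (∀ N, ∀ i < N, Cl (S ∩ Iv m (b N)) (E i)) →
    (∀ i j, i ≠ j → Disjoint (E i) (E j)) →
    Exs (nu (r + 1) m : Set (∀ l, T l) → ℝ) (Iv m m1) →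
    (∀ N, Exs (nu (r + 1) m1 : Set (∀ l, T l) → ℝ) (Iv m1 (b N))) →
    ∃ m2 : WithTop L, m1 < m2 ∧ m2 < l ∧ ∃ i0, ∀ i, i0 ≤ i → ∃ W : Set (∀ l, T l),
      Cl (Iv m m2) W ∧ (∀ z, 1 < nu (r + 1) m1 (fib m1 z W)) ∧
      nu (r + 1) m (E i ∩ W) ≤ 3 * eps r

/-- BSE. Times for the supports: if `l` is a limit (no largest time below it) and `m1 < l`, there
are a countable set `S` and `b` as in T_GAT. `S` = union of finite supports `F_i` of the `E i`
(in `Iv m l`); `b (N+1)` = a time `< l` above `b N` and all elements of `F_i`, `i ≤ N`. -/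
def T_BSE : Prop := ∀ (L : Type) [LinearOrder L] (T : L → Type) (m m1 l : WithTop L)
    (E : ℕ → Set (∀ l, T l)), m ≤ m1 → m1 < l → (∀ x < l, ∃ y, x < y ∧ y < l) →
    (∀ i, Cl (Iv m l) (E i)) →
    ∃ (S : Set L) (b : ℕ → WithTop L), S.Countable ∧ Monotone b ∧ b 0 = m1 ∧ (∀ N, b N < l) ∧
      ∀ N, ∀ i < N, Cl (S ∩ Iv m (b N)) (E i)

/-- ITG. Iteration of T_GAT: induction on `J` (use T_BSE and the limit hypothesis for `m1'`;
`t' = Function.update t (J+1) m2`; increase `i0`). -/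
def T_ITG : Prop := ∀ (L : Type) [LinearOrder L] (T : L → Type) [∀ l, Finite (T l)]
    [∀ l, Nonempty (T l)] (r : ℕ) (m l : WithTop L) (E : ℕ → Set (∀ l, T l)), m < l →
    (∀ x < l, ∃ y, x < y ∧ y < l) → (∀ i, Cl (Iv m l) (E i)) →
    (∀ i j, i ≠ j → Disjoint (E i) (E j)) →
    (∀ n1 n2 : WithTop L, n2 < l → Exs (nu (r + 1) n1 : Set (∀ l, T l) → ℝ) (Iv n1 n2)) →
    ∀ J : ℕ, ∃ t : ℕ → WithTop L, t 0 = m ∧ (∀ j < J, t j < t (j + 1)) ∧ t J < l ∧
      ∃ i0, ∀ i, i0 ≤ i → ∃ W : ℕ → Set (∀ l, T l), ∀ j < J, Cl (Iv m (t (j + 1))) (W j) ∧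
        (∀ z, 1 < nu (r + 1) (t j) (fib (t j) z (W j))) ∧ nu (r + 1) m (E i ∩ W j) ≤ 3 * eps r

/-- EXR. The bound at level `r`. T_ITG with `J = 2^parD r`. `B = E i ∩ ⋃_{j<J} W j` has
`nu r m B ≤ nu (r+1) m B ≤ J * 3 * eps r = (3/8) (1/2)^r`; `X = E i \ B` satisfies T_NPU, so
`nu r m X ≤ (1/2)^r`. -/
def T_EXR : Prop := ∀ (L : Type) [LinearOrder L] (T : L → Type) [∀ l, Finite (T l)]
    [∀ l, Nonempty (T l)] (r : ℕ) (m l : WithTop L) (E : ℕ → Set (∀ l, T l)), m < l →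
    (∀ x < l, ∃ y, x < y ∧ y < l) → (∀ i, Cl (Iv m l) (E i)) →
    (∀ i j, i ≠ j → Disjoint (E i) (E j)) →
    (∀ n1 n2 : WithTop L, n2 < l → Exs (nu (r + 1) n1 : Set (∀ l, T l) → ℝ) (Iv n1 n2)) →
    ∃ N : ℕ, ∀ i, N ≤ i → nu r m (E i) ≤ 2 * (1 / 2) ^ r

/-- EXS. Successor step: `x` is the last coordinate below `l`. For `v : T x` the sets
`E' i = {z | Function.update z x v ∈ E i}` depend on finitely many coordinates of
`Iv m x`, are disjoint, and `E i ⊆ ⋃_v E' i` (finite union). (`Cl (Iv m l)` with `x < m`: then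
`Iv m l` is empty; this case is included, the sets `E' i = E i` then.) -/
def T_EXS : Prop := ∀ (L : Type) [LinearOrder L] (T : L → Type) [∀ l, Finite (T l)]
    (μ : Set (∀ l, T l) → ℝ) (m l : WithTop L) (x : L), (x : WithTop L) < l →
    (∀ y : L, (y : WithTop L) < l → y ≤ x) → μ ∅ = 0 →
    (∀ X Y : Set (∀ l, T l), X ⊆ Y → μ X ≤ μ Y) →
    (∀ X Y : Set (∀ l, T l), μ (X ∪ Y) ≤ μ X + μ Y) →
    Exs μ (Iv m (x : WithTop L)) → Exs μ (Iv m l)

/-- EX0. If there are no coordinates: sets with `Cl ∅` are `∅` or `univ`, at most one member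
of a disjoint sequence is `univ` (there is a point). -/
def T_EX0 : Prop := ∀ (L : Type) [LinearOrder L] (T : L → Type) [∀ l, Nonempty (T l)]
    (μ : Set (∀ l, T l) → ℝ), μ ∅ = 0 → Exs μ (∅ : Set L)

/-- EX. Exhaustivity, by induction on `l` in the well-founded order `WithTop L`, for all `m`
and `k` at once. If `l ≤ m`, `Iv m l = ∅`: T_EX0. If some `x : L`, `x < l`, is the largest
coordinate below `l`: T_EXS. Otherwise `l` is a limit (a time `x < l` is an element of `L`, it is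
not the largest one): given `ε` choose `r ≥ k` with `2 (1/2)^r < ε` and use T_EXR and
`nu k ≤ nu r` (T_NUB). -/
def T_EX : Prop := ∀ (L : Type) [LinearOrder L] [WellFoundedLT L] (T : L → Type)
    [∀ l, Finite (T l)] [∀ l, Nonempty (T l)] (l m : WithTop L) (k : ℕ),
    Exs (nu k m : Set (∀ l, T l) → ℝ) (Iv m l)

/-- SUBM. Result of Part I: `μ = nu 0 m` with `m` the least time (`Iv m ⊤ = univ`), and
`nu 0 m ≤ nu k m` for the last property (T_HIT). -/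
def T_SUBM : Prop := ∀ (L : Type) [LinearOrder L] [WellFoundedLT L] (T : L → Type)
    [∀ l, Finite (T l)] [∀ l, Nonempty (T l)],
    ∃ μ : Set (∀ l, T l) → ℝ, μ ∅ = 0 ∧ 8 ≤ μ Set.univ ∧ (∀ X, 0 ≤ μ X ∧ μ X ≤ 16) ∧
      (∀ X Y : Set (∀ l, T l), X ⊆ Y → μ X ≤ μ Y) ∧
      (∀ X Y : Set (∀ l, T l), μ (X ∪ Y) ≤ μ X + μ Y) ∧ Exs μ Set.univ ∧
      ∀ (k : ℕ) (I : Finset L) (τ : ∀ i : L, (∀ l, T l) → T i), 2 ^ parD k ≤ I.card →
        (∀ i ∈ I, ∀ z y : ∀ l, T l, (∀ l < i, z l = y l) → τ i z = τ i y) →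
        μ {z : ∀ l, T l | ∀ i ∈ I, z i ≠ τ i z} ≤ (1 / 2) ^ k

end SNB
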